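import Pool.Agent.TH964.FP.Nil

set_option autoImplicit false

/-! Almost all orders. -/

namespace TH964.FP

open Finset TH964.HP

theorem nilpotent_case {n : ℕ} (L : Fin n → Fin n → Fin n) (hL : IsLatin L) (e₀ : ℕ)
    (he₀ : ¬ Obstructed n L → ∀ e ≥ e₀, ∀ (F : Type) [Field F] [Finite F], e ∣ Nat.card F - 1 →
      64 * e ^ 6 < Nat.card F →
      HasTransversal (fun r c : Fin n × F => (L r.1 c.1, r.2 + c.2)))
    (G : Type) [Group G] [Group.IsNilpotent G] (p e : ℕ) (hG : Odd (Nat.card G))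
    (hp : p.Prime) (hpG : p ∣ Nat.card G) (he : e₀ ≤ e) (h1 : e ∣ p - 1) (h2 : 64 * e ^ 6 < p) :
    HasTransversal (fun r c : Fin n × G => (L r.1 c.1, r.2 * c.2)) ↔ ¬ Obstructed n L := by
  have : Finite G := Nat.finite_of_card_ne_zero hG.pos.ne'
  refine ⟨converse L hL hG, fun hO => ?_⟩
  have : Fact p.Prime := ⟨hp⟩
  obtain ⟨x, hxc, hx⟩ := exists_central p hp G inferInstance hpG
  have hcN : Nat.card (Subgroup.zpowers x) = p := by rw [Nat.card_zpowers, hx]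
  have hcF : Nat.card (ZMod p) = p := Nat.card_zmod p
  have φ : Subgroup.zpowers x ≃* Multiplicative (ZMod p) :=
    mulEquivOfCyclicCardEq (by rw [hcN]; exact hcF.symm)
  have hN : (Subgroup.zpowers x).Normal := by
    refine ⟨fun y hy g => ?_⟩
    have hyc : y ∈ Subgroup.center G := (Subgroup.zpowers_le.2 hxc) hy
    have := Subgroup.mem_center_iff.1 hyc g
    rwa [this, mul_inv_cancel_right]
  refine group_case L (Subgroup.zpowers x) (odd_complete ?_) φ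
    (he₀ hO e he (ZMod p) (by rw [hcF]; exact h1) (by rw [hcF]; exact h2))
  exact Nat.Odd.of_mul_left (n := Nat.card (Subgroup.zpowers x)) (by
    show Odd ((Subgroup.zpowers x).index * Nat.card (Subgroup.zpowers x))
    rw [Subgroup.index_mul_card]; exact hG)

theorem almost_all (n e₀ : ℕ)
    (he₀ : ∀ L : Fin n → Fin n → Fin n, IsLatin L →
      ¬ Obstructed n L → ∀ e ≥ e₀, ∀ (F : Type) [Field F] [Finite F], e ∣ Nat.card F - 1 →
      64 * e ^ 6 < Nat.card F →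
      HasTransversal (fun r c : Fin n × F => (L r.1 c.1, r.2 + c.2)))
    (ε : ℝ) (hε : 0 < ε) : ∃ X₀ : ℕ, ∀ X ≥ X₀,
      ({m : ℕ | m < X ∧ Odd m ∧ ∃ (G : Type) (_ : Group G) (L : Fin n → Fin n → Fin n),
        Group.IsNilpotent G ∧ Nat.card G = m ∧ IsLatin L ∧
        ¬ (HasTransversal (fun r c : Fin n × G => (L r.1 c.1, r.2 * c.2)) ↔
          ¬ Obstructed n L)}.ncard : ℝ) ≤ ε * X := by
  classical
  obtain ⟨S, hS, hK⟩ := exists_set (e₀ + 1) (64 * (e₀ + 1) ^ 6) (- Real.log (ε / 2))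
  obtain ⟨M, hM⟩ : ∃ M : ℕ, M = ∏ p ∈ S, p := ⟨_, rfl⟩
  obtain ⟨X₀, hX₀⟩ := exists_nat_ge (2 * (M : ℝ) / ε)
  refine ⟨X₀, fun X hX => ?_⟩
  have hsub : {m : ℕ | m < X ∧ Odd m ∧ ∃ (G : Type) (_ : Group G) (L : Fin n → Fin n → Fin n),
        Group.IsNilpotent G ∧ Nat.card G = m ∧ IsLatin L ∧
        ¬ (HasTransversal (fun r c : Fin n × G => (L r.1 c.1, r.2 * c.2)) ↔
          ¬ Obstructed n L)} ⊆ ((range X).filter (fun m => ∀ p ∈ S, ¬ p ∣ m) : Finset ℕ) := by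
    rintro m ⟨hmX, hodd, G, _, L, hnil, hcard, hL, hnot⟩
    rw [Finset.coe_filter]
    refine ⟨mem_range.2 hmX, fun p hp hpm => hnot ?_⟩
    obtain ⟨hpp, hpB, hpq⟩ := hS p hp
    rw [← hcard] at hpm hodd
    exact nilpotent_case L hL e₀ (he₀ L hL) G p (e₀ + 1) hodd hpp hpm (Nat.le_succ _) hpq hpB
  have h1 := Set.ncard_le_ncard hsub (Finset.finite_toSet _)
  rw [Set.ncard_coe_finset] at h1
  have h2 := sieve S (fun p hp => (hS p hp).1) X
  rw [← hM] at h2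
  have h3 : Real.exp (- ∑ p ∈ S, (p : ℝ)⁻¹) ≤ ε / 2 := by
    rw [← Real.exp_log (show (0 : ℝ) < ε / 2 by positivity)]
    exact Real.exp_le_exp.2 (by linarith)
  have h4 : (M : ℝ) ≤ ε / 2 * X := by
    have h5 : 2 * (M : ℝ) / ε ≤ X := hX₀.trans (by exact_mod_cast hX)
    rw [div_le_iff₀ hε] at h5
    linarith
  have h6 : (X : ℝ) * Real.exp (- ∑ p ∈ S, (p : ℝ)⁻¹) ≤ X * (ε / 2) :=
    mul_le_mul_of_nonneg_left h3 (by positivity)
  have h7 : ((_ : ℕ) : ℝ) ≤ _ := Nat.cast_le.2 h1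
  refine h7.trans (h2.trans ?_)
  linarith

theorem main' (n : ℕ) :
    (∀ ε : ℝ, 0 < ε → ∃ X₀ : ℕ, ∀ X ≥ X₀,
      ({m : ℕ | m < X ∧ Odd m ∧ ∃ (G : Type) (_ : Group G) (L : Fin n → Fin n → Fin n),
        Group.IsNilpotent G ∧ Nat.card G = m ∧ IsLatin L ∧
        ¬ (HasTransversal (fun r c : Fin n × G => (L r.1 c.1, r.2 * c.2)) ↔
          ¬ Obstructed n L)}.ncard : ℝ) ≤ ε * X) ∧
    ∃ e₀ : ℕ, ∀ L : Fin n → Fin n → Fin n, IsLatin L → (Odd n → ¬ Obstructed n L) ∧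
      ∀ (F G : Type) [Field F] [Finite F] [Group G] [Finite G] (N : Subgroup G) [N.Normal] (e : ℕ),
        Nonempty (N ≃* Multiplicative F) → e₀ ≤ e → e ∣ Nat.card F - 1 →
        64 * e ^ 6 < Nat.card F →
        (HasTransversal (fun x y : G ⧸ N => x * y) → ¬ Obstructed n L →
          HasTransversal (fun r c : Fin n × G => (L r.1 c.1, r.2 * c.2))) ∧
        (Odd (Nat.card G) →
          (HasTransversal (fun r c : Fin n × G => (L r.1 c.1, r.2 * c.2)) ↔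
            ¬ Obstructed n L)) := by
  obtain ⟨e₀, he₀⟩ := field_case n
  refine ⟨fun ε hε => almost_all n e₀ he₀ ε hε, e₀, fun L hL => ⟨fun hn => odd_unobstructed hn L,
    ?_⟩⟩
  intro F G _ _ _ _ N _ e hφ he h1 h2
  obtain ⟨φ⟩ := hφ
  have key : HasTransversal (fun x y : G ⧸ N => x * y) → ¬ Obstructed n L →
      HasTransversal (fun r c : Fin n × G => (L r.1 c.1, r.2 * c.2)) :=
    fun hN hO => group_case L N hN φ (he₀ L hL hO e he F h1 h2)
  refine ⟨key, fun hG => ⟨converse L hL hG, key (odd_complete ?_)⟩⟩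
  exact Nat.Odd.of_mul_left (n := Nat.card N) (by
    show Odd (N.index * Nat.card N)
    rw [Subgroup.index_mul_card]; exact hG)

end TH964.FP
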