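import Mathlib.NumberTheory.LegendreSymbol.Complex
import Mathlib.Analysis.Complex.Norm
import Mathlib.Analysis.Real.Sqrt
import Mathlib.SetTheory.Cardinal.Finite
import Mathlib.Tactic

set_option autoImplicit false

/-! Consecutive elements in prescribed cosets of a subgroup of the multiplicative group. -/

namespace TH964.FP

open Finset

variable {F : Type} [Field F] [Fintype F] [DecidableEq F]

/-- The character sum over a set. -/
noncomputable def S (ψ : AddChar F ℂ) (H : Finset Fˣ) (u : F) : ℂ := ∑ h ∈ H, ψ (u * (h : F))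

theorem S_sq_sum (ψ : AddChar F ℂ) (hψ : ψ.IsPrimitive) (H : Finset Fˣ) :
    ∑ u : F, ‖S ψ H u‖ ^ 2 = Fintype.card F * H.card := by
  have h1 : ∀ u : F, ((‖S ψ H u‖ ^ 2 : ℝ) : ℂ) = ∑ h ∈ H, ∑ h' ∈ H, ψ (u * ((h : F) - h')) := by
    intro u
    rw [Complex.ofReal_pow, ← Complex.mul_conj', S, map_sum, Finset.sum_mul_sum]
    refine Finset.sum_congr rfl (fun h _ => Finset.sum_congr rfl (fun h' _ => ?_))
    rw [← AddChar.map_neg_eq_conj, ← AddChar.map_add_eq_mul]
    congr 1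
    ring
  have h2 : ((∑ u : F, ‖S ψ H u‖ ^ 2 : ℝ) : ℂ) = ((Fintype.card F * H.card : ℕ) : ℂ) := by
    rw [Complex.ofReal_sum]
    simp_rw [h1]
    rw [Finset.sum_comm]
    have h3 : ∀ h ∈ H, ∑ u : F, ∑ h' ∈ H, ψ (u * ((h : F) - h')) = (Fintype.card F : ℂ) := by
      intro h hh
      rw [Finset.sum_comm, Finset.sum_eq_single h]
      · rw [AddChar.sum_mulShift _ hψ, if_pos (sub_self _)]
      · intro h' _ hne
        rw [AddChar.sum_mulShift _ hψ, if_neg]
        · simp
        · rw [sub_eq_zero]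
          intro h0
          exact hne (Units.ext h0).symm
      · intro h0; exact absurd hh h0
    rw [Finset.sum_congr rfl h3, Finset.sum_const]
    push_cast
    rw [nsmul_eq_mul]
    ring
  have h3 : (((∑ u : F, ‖S ψ H u‖ ^ 2 : ℝ)) : ℂ) = (((Fintype.card F * H.card : ℕ) : ℝ) : ℂ) := by
    rw [h2]; push_cast; rfl
  have h4 := Complex.ofReal_injective h3
  rw [h4]
  push_cast
  rfl

/-- `S` is invariant under multiplication by elements of the subgroup. -/
theorem S_inv (ψ : AddChar F ℂ) (G : Subgroup Fˣ) [DecidablePred (· ∈ G)] (u : F) (g : Fˣ)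
    (hg : g ∈ G) : S ψ (univ.filter (· ∈ G)) (u * g) = S ψ (univ.filter (· ∈ G)) u := by
  rw [S, S]
  refine Finset.sum_nbij' (fun h => g * h) (fun h => g⁻¹ * h) ?_ ?_ ?_ ?_ ?_
  · intro h hh
    simp only [mem_filter, mem_univ, true_and] at hh ⊢
    exact G.mul_mem hg hh
  · intro h hh
    simp only [mem_filter, mem_univ, true_and] at hh ⊢
    exact G.mul_mem (G.inv_mem hg) hh
  · intro h _; simp
  · intro h _; simp
  · intro h _
    congr 1
    push_cast
    ring

theorem S_bound (ψ : AddChar F ℂ) (hψ : ψ.IsPrimitive) (G : Subgroup Fˣ) [DecidablePred (· ∈ G)]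
    (u : F) (hu : u ≠ 0) :
    ‖S ψ (univ.filter (· ∈ G)) u‖ ≤ Real.sqrt (Fintype.card F) := by
  refine Real.le_sqrt_of_sq_le ?_
  have hcard : 0 < (univ.filter (· ∈ G) : Finset Fˣ).card :=
    Finset.card_pos.2 ⟨1, by simp [G.one_mem]⟩
  have h1 := S_sq_sum ψ hψ (univ.filter (· ∈ G))
  have h2 : ((univ.filter (· ∈ G) : Finset Fˣ).card : ℝ) * ‖S ψ (univ.filter (· ∈ G)) u‖ ^ 2
      ≤ ∑ u : F, ‖S ψ (univ.filter (· ∈ G)) u‖ ^ 2 := by
    have h3 : ∑ v ∈ (univ.filter (· ∈ G) : Finset Fˣ).image (fun g : Fˣ => u * (g : F)),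
        ‖S ψ (univ.filter (· ∈ G)) v‖ ^ 2
        = ((univ.filter (· ∈ G) : Finset Fˣ).card : ℝ) * ‖S ψ (univ.filter (· ∈ G)) u‖ ^ 2 := by
      rw [Finset.sum_image]
      · rw [Finset.sum_congr rfl (g := fun _ => ‖S ψ (univ.filter (· ∈ G)) u‖ ^ 2), Finset.sum_const,
          nsmul_eq_mul]
        intro g hg
        rw [S_inv ψ G u g (by simpa using hg)]
      · intro g _ g' _ h
        exact Units.ext (mul_left_cancel₀ hu h)
    rw [← h3]
    exact Finset.sum_le_sum_of_subset_of_nonneg (subset_univ _) (fun _ _ _ => by positivity)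
  rw [h1] at h2
  have h4 : (0 : ℝ) < (univ.filter (· ∈ G) : Finset Fˣ).card := by exact_mod_cast hcard
  rw [mul_comm (Fintype.card F : ℝ)] at h2
  exact le_of_mul_le_mul_left h2 h4

/-- Consecutive elements in prescribed cosets. -/
theorem consecutive (G : Subgroup Fˣ) (e : ℕ) (he : 1 ≤ e)
    (hG : Nat.card G * e = Fintype.card F - 1) (hq : 64 * e ^ 6 < Fintype.card F) (a b : Fˣ) :
    ∃ x y : Fˣ, (y : F) = 1 + x ∧ a⁻¹ * x ∈ G ∧ b⁻¹ * y ∈ G := by
  classical
  by_contra hno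
  push Not at hno
  let ψ := (AddChar.FiniteField.primitiveChar_to_Complex F)
  have hψ : ψ.IsPrimitive := AddChar.FiniteField.primitiveChar_to_Complex_isPrimitive F
  set H : Finset Fˣ := univ.filter (· ∈ G) with hH
  have hHcard : H.card = Nat.card G := by
    rw [hH, Nat.card_eq_fintype_card, Fintype.card_subtype]
  -- the count is zero
  have hzero : ∑ t : F, ψ t * S ψ H (t * a) * S ψ H (-(t * b)) = 0 := by
    have h1 : ∀ t : F, ψ t * S ψ H (t * a) * S ψ H (-(t * b))
        = ∑ h ∈ H, ∑ h' ∈ H, ψ (t * (1 + a * h - b * h')) := by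
      intro t
      rw [S, S, mul_assoc, Finset.sum_mul_sum, Finset.mul_sum]
      refine Finset.sum_congr rfl (fun h _ => ?_)
      rw [Finset.mul_sum]
      refine Finset.sum_congr rfl (fun h' _ => ?_)
      rw [← AddChar.map_add_eq_mul, ← AddChar.map_add_eq_mul]
      congr 1
      ring
    simp_rw [h1]
    rw [Finset.sum_comm]
    refine Finset.sum_eq_zero (fun h hh => ?_)
    rw [Finset.sum_comm]
    refine Finset.sum_eq_zero (fun h' hh' => ?_)
    rw [AddChar.sum_mulShift _ hψ, if_neg]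
    · simp
    · intro h0
      refine hno (a * h) (b * h') ?_ ?_ ?_
      · push_cast
        have : (1 : F) + a * h = b * h' := by rw [← sub_eq_zero]; exact h0
        exact this.symm
      · simpa [hH] using hh
      · simpa [hH] using hh'
  rw [← Finset.add_sum_erase _ _ (mem_univ (0 : F))] at hzero
  have h0 : ψ (0 : F) * S ψ H (0 * a) * S ψ H (-(0 * b)) = (H.card : ℂ) ^ 2 := by
    simp [S, sq]
  rw [h0] at hzero
  -- average over the subgroup
  have havg : (H.card : ℂ) * ∑ t ∈ univ.erase (0 : F), ψ t * S ψ H (t * a) * S ψ H (-(t * b))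
      = ∑ t ∈ univ.erase (0 : F), S ψ H t * S ψ H (t * a) * S ψ H (-(t * b)) := by
    have h1 : ∀ h ∈ H, ∑ t ∈ univ.erase (0 : F), ψ t * S ψ H (t * a) * S ψ H (-(t * b))
        = ∑ t ∈ univ.erase (0 : F), ψ (t * h) * S ψ H (t * a) * S ψ H (-(t * b)) := by
      intro h hh
      have hhG : h ∈ G := by simpa [hH] using hh
      symm
      refine Finset.sum_nbij' (fun t => t * (h : F)) (fun t => t * ((h⁻¹ : Fˣ) : F)) ?_ ?_ ?_ ?_ ?_
      · intro t ht
        simp only [mem_erase, mem_univ, and_true] at ht ⊢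
        exact mul_ne_zero ht h.ne_zero
      · intro t ht
        simp only [mem_erase, mem_univ, and_true] at ht ⊢
        exact mul_ne_zero ht (h⁻¹).ne_zero
      · intro t _; simp
      · intro t _; simp
      · intro t _
        have e1 := S_inv ψ G (t * a) h hhG
        have e2 := S_inv ψ G (-(t * b)) h hhG
        have e3 : t * (h : F) * a = t * a * h := by ring
        have e4 : -(t * (h : F) * b) = -(t * b) * h := by ring
        rw [e3, e4, e1, e2]
    have h2 : (H.card : ℂ) * ∑ t ∈ univ.erase (0 : F), ψ t * S ψ H (t * a) * S ψ H (-(t * b))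
        = ∑ h ∈ H, ∑ t ∈ univ.erase (0 : F), ψ (t * h) * S ψ H (t * a) * S ψ H (-(t * b)) := by
      rw [← Finset.sum_congr rfl h1, Finset.sum_const, nsmul_eq_mul]
    rw [h2, Finset.sum_comm]
    refine Finset.sum_congr rfl (fun t _ => ?_)
    rw [← Finset.sum_mul, ← Finset.sum_mul]
    rfl
  obtain ⟨q, hqdef⟩ : ∃ q : ℝ, q = Fintype.card F := ⟨_, rfl⟩
  have hqpos : (0 : ℝ) < q := by rw [hqdef]; exact_mod_cast Fintype.card_pos
  have hbound : ‖∑ t ∈ univ.erase (0 : F), S ψ H t * S ψ H (t * a) * S ψ H (-(t * b))‖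
      ≤ q * (Real.sqrt q) ^ 3 := by
    refine (norm_sum_le _ _).trans ?_
    have h1 : ∀ t ∈ univ.erase (0 : F), ‖S ψ H t * S ψ H (t * a) * S ψ H (-(t * b))‖
        ≤ (Real.sqrt q) ^ 3 := by
      intro t ht
      have ht0 : t ≠ 0 := by simpa using ht
      rw [norm_mul, norm_mul]
      have b1 := S_bound ψ hψ G t ht0
      have b2 := S_bound ψ hψ G (t * a) (mul_ne_zero ht0 a.ne_zero)
      have b3 := S_bound ψ hψ G (-(t * b)) (neg_ne_zero.2 (mul_ne_zero ht0 b.ne_zero))
      rw [← hqdef] at b1 b2 b3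
      calc _ ≤ Real.sqrt q * Real.sqrt q * Real.sqrt q := by gcongr
        _ = Real.sqrt q ^ 3 := by ring
    refine (Finset.sum_le_sum h1).trans ?_
    rw [Finset.sum_const, nsmul_eq_mul]
    gcongr
    rw [hqdef]
    exact_mod_cast Finset.card_le_univ _
  have hfin : (H.card : ℝ) ^ 3 ≤ q * (Real.sqrt q) ^ 3 := by
    have h1 : ∑ t ∈ univ.erase (0 : F), ψ t * S ψ H (t * a) * S ψ H (-(t * b))
        = -(H.card : ℂ) ^ 2 := by
      linear_combination hzero
    rw [h1] at havg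
    rw [← havg] at hbound
    have h2 : ‖(H.card : ℂ) * -(H.card : ℂ) ^ 2‖ = (H.card : ℝ) ^ 3 := by
      rw [norm_mul, norm_neg, norm_pow]
      simp
      ring
    rw [h2] at hbound
    exact hbound
  -- contradiction with the size of q
  have hcardq : (H.card : ℝ) * e = q - 1 := by
    rw [hHcard, hqdef]
    have h1 : 1 ≤ Fintype.card F := Fintype.card_pos
    have : ((Nat.card G * e : ℕ) : ℝ) = ((Fintype.card F - 1 : ℕ) : ℝ) := by rw [hG]
    rw [Nat.cast_sub h1] at this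
    push_cast at this
    exact this
  have hqbig : 64 * (e : ℝ) ^ 6 < q := by rw [hqdef]; exact_mod_cast hq
  have he1 : (1 : ℝ) ≤ e := by exact_mod_cast he
  obtain ⟨r, hr⟩ : ∃ r : ℝ, r = Real.sqrt q := ⟨_, rfl⟩
  have hr2 : r ^ 2 = q := by rw [hr]; exact Real.sq_sqrt hqpos.le
  have hr0 : 0 < r := by rw [hr]; exact Real.sqrt_pos.2 hqpos
  rw [← hr, ← hr2] at hfin
  have hr4 : 8 * (e : ℝ) ^ 3 < r := by
    have : (8 * (e : ℝ) ^ 3) ^ 2 < r ^ 2 := by rw [hr2]; nlinarith
    exact lt_of_pow_lt_pow_left₀ 2 hr0.le this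
  have h5 : ((H.card : ℝ) * e) ^ 3 ≤ r ^ 5 * e ^ 3 := by
    rw [mul_pow]
    have : (0 : ℝ) ≤ (e : ℝ) ^ 3 := by positivity
    nlinarith
  rw [hcardq, ← hr2] at h5
  have h6 : r ^ 2 / 2 ≤ r ^ 2 - 1 := by
    have : (4 : ℝ) < r := lt_of_le_of_lt (by nlinarith [pow_le_pow_left₀ (by norm_num) he1 3]) hr4
    nlinarith
  have h7 : (r ^ 2 / 2) ^ 3 ≤ r ^ 5 * e ^ 3 := (pow_le_pow_left₀ (by positivity) h6 3).trans h5
  have h8 : r * r ^ 5 ≤ 8 * e ^ 3 * r ^ 5 := by nlinarith
  have h9 : r ≤ 8 * (e : ℝ) ^ 3 := le_of_mul_le_mul_right h8 (by positivity)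
  exact absurd h9 (not_le.2 hr4)

end TH964.FP
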