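import Pool.Agent.TH964.FP.Enum
import Pool.Agent.TH964.FP.Char

set_option autoImplicit false

/-! Transversals in products of a Latin square with the additive group of a finite field. -/

namespace TH964.FP

open Finset TH964.HP

theorem lab {I K Q O : Type} [Fintype I] [Fintype Q] [DecidableEq I] [DecidableEq K]
    [DecidableEq Q] (q₀ : Q) (cl : I → K)
    (hcl : ∀ k, Fintype.card {ι // cl ι = k} = Fintype.card Q)
    (p : O → I) (hp : Function.Injective p) (t : O → Q) (ht : Function.Injective t) :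
    ∃ a : I → Q, (∀ o, a (p o) = t o) ∧ Function.Bijective (fun ι => (cl ι, a ι)) := by
  classical
  have h : ∀ k, ∃ g : {ι // cl ι = k} ≃ {x // x ∈ (univ : Finset Q)},
      ∀ (ι : {ι // cl ι = k}) (o : O), p o = ι.1 → (g ι : Q) = t o := by
    intro k
    obtain ⟨g, hg⟩ := Finset.exists_equiv_extend_of_card_eq (α := {ι // cl ι = k})
      (t := (univ : Finset Q)) (by rw [hcl, Finset.card_univ])
      (s := univ.filter (fun ι => ∃ o, p o = ι.1))
      (f := fun ι => Function.extend p t (fun _ => q₀) ι.1) (Finset.subset_univ _) (by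
        intro ι hι ι' hι' h
        simp only [coe_filter, mem_univ, true_and, Set.mem_ofPred_eq] at hι hι'
        obtain ⟨o, ho⟩ := hι
        obtain ⟨o', ho'⟩ := hι'
        simp only [← ho, ← ho', hp.extend_apply] at h
        have := ht h
        subst this
        exact Subtype.ext (ho.symm.trans ho'))
    refine ⟨g, fun ι o ho => ?_⟩
    rw [hg ι (by simp only [mem_filter, mem_univ, true_and]; exact ⟨o, ho⟩), ← ho,
      hp.extend_apply]
  choose g hg using h
  have key : ∀ k ι (h : cl ι = k), (g (cl ι) ⟨ι, rfl⟩ : Q) = g k ⟨ι, h⟩ := by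
    rintro k ι rfl; rfl
  refine ⟨fun ι => g (cl ι) ⟨ι, rfl⟩, fun o => hg _ _ o rfl, ?_, ?_⟩
  · intro ι ι' h
    simp only [Prod.mk.injEq] at h
    obtain ⟨h1, h2⟩ := h
    rw [key _ ι h1] at h2
    have := (g (cl ι')).injective (Subtype.ext h2)
    exact congrArg Subtype.val this
  · rintro ⟨k, q⟩
    have h1 := ((g k).symm ⟨q, mem_univ _⟩).2
    refine ⟨((g k).symm ⟨q, mem_univ _⟩).1, Prod.ext h1 ?_⟩
    simp only
    rw [key k _ h1]
    simp

theorem exists_subgroup (F : Type) [Field F] [Fintype F] (e : ℕ) (he0 : e ≠ 0)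
    (he : e ∣ Fintype.card F - 1) : ∃ G : Subgroup Fˣ, Nat.card G * e = Fintype.card F - 1 := by
  classical
  obtain ⟨g, hg⟩ := IsCyclic.exists_generator (α := Fˣ)
  have h1 : orderOf g = Fintype.card F - 1 := by
    rw [orderOf_eq_card_of_forall_mem_zpowers hg, Nat.card_eq_fintype_card, Fintype.card_units]
  refine ⟨Subgroup.zpowers (g ^ e), ?_⟩
  rw [Nat.card_zpowers, orderOf_pow_of_dvd he0 (by rw [h1]; exact he), h1, Nat.div_mul_cancel he]

theorem transversal {n : ℕ} (hn : 0 < n) (L : Fin n → Fin n → Fin n) (hL : IsLatin L)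
    (w : Fin n × Fin n → ℤ) (hw : ∀ s k, ∑ c, (if kap L s c = k then w c else 0) = 1) :
    ∃ m₀ : ℕ, ∀ e ≥ m₀, ∀ (F : Type) [Field F] [Fintype F], e ∣ Fintype.card F - 1 →
      64 * e ^ 6 < Fintype.card F →
      HasTransversal (fun r c : Fin n × F => (L r.1 c.1, r.2 + c.2)) := by
  classical
  obtain ⟨P, Q, cp, cn, ρ, h3, hρ, hS, hC⟩ := exists_structure hn L w hw
  obtain ⟨m₁, hm₁⟩ := big_weights hn L hL w hw (Fintype.card (OI P Q))
  refine ⟨max m₁ (6 * Fintype.card (OI P Q) ^ 2 + 1), fun e he F _ _ hdvd hq => ?_⟩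
  have he1 : m₁ ≤ e := (le_max_left _ _).trans he
  have he2 : 6 * Fintype.card (OI P Q) ^ 2 + 1 ≤ e := (le_max_right _ _).trans he
  have he0 : 1 ≤ e := by omega
  have he6 : e ≤ e ^ 6 := Nat.le_self_pow (by norm_num) e
  obtain ⟨W, hWB, hW⟩ := hm₁ e he1
  obtain ⟨G, hG⟩ := exists_subgroup F e (by omega) hdvd
  let o₀ : Fin n := ⟨0, hn⟩
  have hinv : ∀ k, ∃ i, L i o₀ = k := (hL.2 o₀).2
  choose inv hinv using hinv
  obtain ⟨v, hv0, hv1⟩ := exists_generic (Pm P Q → F) (OI P Q) (tokO F ρ) (tokO_ne h3)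
    (tokO_sep h3 hS hC) G e hG (by omega) (by omega)
  -- the quotient
  let Quo := Fˣ ⧸ G
  have hfQ : Fintype Quo := Fintype.ofFinite _
  have hGpos : 0 < Nat.card G := Nat.card_pos
  have hcQ : Fintype.card Quo = e := by
    have h1 := Subgroup.card_eq_card_quotient_mul_card_subgroup G
    rw [Nat.card_eq_fintype_card (α := Fˣ), Fintype.card_units, ← hG, mul_comm] at h1
    have h2 := Nat.eq_of_mul_eq_mul_right hGpos h1
    rw [← Nat.card_eq_fintype_card]
    exact h2.symm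
  let I := Σ c, Fin (W c)
  let cO := cellO L cp cn o₀ inv
  let cN := cellN L cp cn o₀ inv
  obtain ⟨ins, hins1, hins⟩ : ∃ ins : OI P Q → I, (∀ o, (ins o).1 = cO o) ∧
      Function.Injective ins := by
    refine ⟨fun o => ⟨cO o, ⟨Fintype.equivFin (OI P Q) o, lt_of_lt_of_le (Fin.isLt _) (hWB _)⟩⟩,
      fun o => rfl, ?_⟩
    intro o o' h
    have h1 := congrArg (fun x : I => (x.2 : ℕ)) h
    simp only at h1
    exact (Fintype.equivFin (OI P Q)).injective (Fin.ext h1)
  let tok : Fin 3 → OI P Q → Fˣ := fun s o => Units.mk0 (tokO F ρ s o v) (hv0 s o)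
  have htok : ∀ s o, ((tok s o : Fˣ) : F) = tokO F ρ s o v := fun s o => rfl
  let t : Fin 3 → OI P Q → Quo := fun s o => ((tok s o : Fˣ) : Fˣ ⧸ G)
  have ht : ∀ s, Function.Injective (t s) := by
    intro s o o' h
    by_contra hne
    have h1 := QuotientGroup.eq.1 h
    refine hv1 s o' o (Ne.symm hne) _ h1 ?_
    rw [← htok, ← htok, ← Units.val_mul]
    rw [mul_right_comm, inv_mul_cancel, one_mul]
  have hlab : ∀ s, ∃ a : I → Quo, (∀ o, a (ins o) = t s o) ∧
      Function.Bijective (fun ι : I => (kap L s ι.1, a ι)) := by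
    intro s
    refine lab (1 : Fˣ ⧸ G) (fun ι : I => kap L s ι.1) ?_ ins hins (t s) (ht s)
    intro k
    rw [hcQ, ← hW s k]
    exact card_sigma_fibre W (kap L s) k
  choose a hao hab using hlab
  have hmul : ∀ ι : I, ∃ m : Fin 3 → Fˣ, m 0 = 1 ∧ ((m 2 : Fˣ) : F) = 1 + m 1 ∧
      (∀ s, ((m s : Fˣ) : Fˣ ⧸ G) * a 0 ι = a s ι) ∧ ∀ o, ι = ins o → ∀ s, m s * tok 0 o = tok s o := by
    intro ι
    by_cases hι : ∃ o, ι = ins o
    · obtain ⟨o, rfl⟩ := hι
      refine ⟨fun s => tok s o / tok 0 o, div_self' _, ?_, fun s => ?_, ?_⟩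
      · rw [Units.val_div_eq_div_val, Units.val_div_eq_div_val, htok, htok, htok,
          ← tokO_add, LinearMap.add_apply, add_div, div_self (hv0 0 o)]
      · rw [hao, hao]
        show ((tok s o / tok 0 o : Fˣ) : Fˣ ⧸ G) * ((tok 0 o : Fˣ) : Fˣ ⧸ G) = _
        rw [← QuotientGroup.mk_mul, div_mul_cancel]
      · intro o' ho' s
        have := hins ho'
        subst this
        exact div_mul_cancel _ _
    · obtain ⟨u, hu⟩ := QuotientGroup.mk_surjective (s := G) (a 1 ι / a 0 ι)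
      obtain ⟨u', hu'⟩ := QuotientGroup.mk_surjective (s := G) (a 2 ι / a 0 ι)
      obtain ⟨x, y, hxy, hx, hy⟩ := consecutive G e he0 hG hq u u'
      refine ⟨![1, x, y], rfl, hxy, fun s => ?_, fun o ho => absurd ⟨o, ho⟩ hι⟩
      match s with
      | 0 =>
        show ((1 : Fˣ) : Fˣ ⧸ G) * a 0 ι = a 0 ι
        rw [QuotientGroup.mk_one, one_mul]
      | 1 =>
        show ((x : Fˣ) : Fˣ ⧸ G) * a 0 ι = a 1 ι
        rw [← QuotientGroup.eq.2 hx, hu, div_mul_cancel]
      | 2 =>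
        show ((y : Fˣ) : Fˣ ⧸ G) * a 0 ι = a 2 ι
        rw [← QuotientGroup.eq.2 hy, hu', div_mul_cancel]
  choose m hm0 hm12 hmq hmo using hmul
  let Base := {p : I × Fˣ // ((p.2 : Fˣ) : Fˣ ⧸ G) = a 0 p.1}
  have hfB : Fintype Base := inferInstance
  let f : Fin 3 → Base → Fin n × F := fun s p => (kap L s p.1.1.1, ((m p.1.1 s * p.1.2 : Fˣ) : F))
  let oi : OI P Q → Base := fun o => ⟨(ins o, tok 0 o), (hao 0 o).symm⟩
  have hoi : Function.Injective oi := by
    intro o o' h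
    exact hins (congrArg (fun x : Base => x.1.1) h)
  have hfoi : ∀ s o, f s (oi o) = (kap L s (cO o), tokO F ρ s o v) := by
    intro s o
    refine Prod.ext ?_ ?_
    · show kap L s (ins o).1 = _
      rw [hins1]
    · show ((m (ins o) s * tok 0 o : Fˣ) : F) = _
      rw [hmo (ins o) o rfl s]
      rfl
  have hfsurj : ∀ s i (x : Fˣ), ∃ p, f s p = (i, (x : F)) := by
    intro s i x
    obtain ⟨ι, hι⟩ := (hab s).2 (i, ((x : Fˣ) : Fˣ ⧸ G))
    have h1 : kap L s ι.1 = i := congrArg Prod.fst hι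
    have h2 : a s ι = ((x : Fˣ) : Fˣ ⧸ G) := congrArg Prod.snd hι
    refine ⟨⟨(ι, (m ι s)⁻¹ * x), ?_⟩, ?_⟩
    · show (((m ι s)⁻¹ * x : Fˣ) : Fˣ ⧸ G) = a 0 ι
      rw [QuotientGroup.mk_mul, ← h2, ← hmq ι s, QuotientGroup.mk_inv, inv_mul_cancel_left]
    · refine Prod.ext h1 ?_
      show ((m ι s * ((m ι s)⁻¹ * x) : Fˣ) : F) = x
      rw [mul_inv_cancel_left]
  let gN : Fin 3 → NI P Q → Fin n × F := fun s ν => (kap L s (cN ν), tokN F ρ s ν v)
  let J := {p : Base // p ∉ Set.range oi} ⊕ NI P Q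
  let Φ : Fin 3 → J → Fin n × F := fun s => Sum.elim (fun p => f s p.1) (gN s)
  have hΦ : ∀ s, Function.Surjective (Φ s) := by
    rintro s ⟨i, x⟩
    by_cases hx : x = 0
    · obtain ⟨ν, h1, h2⟩ := hitZ F ρ hinv hρ s i
      refine ⟨Sum.inr ν, Prod.ext h1 ?_⟩
      show tokN F ρ s ν v = x
      rw [h2, hx]; rfl
    · obtain ⟨p, hp⟩ := hfsurj s i (Units.mk0 x hx)
      by_cases hpo : p ∈ Set.range oi
      · obtain ⟨o, rfl⟩ := hpo
        rw [hfoi] at hp
        obtain ⟨ν, h1, h2⟩ := hitO F ρ hinv hρ s o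
        refine ⟨Sum.inr ν, ?_⟩
        rw [Units.val_mk0] at hp
        rw [← hp]
        refine Prod.ext h1 ?_
        show tokN F ρ s ν v = tokO F ρ s o v
        rw [h2]
      · exact ⟨Sum.inl ⟨p, hpo⟩, hp⟩
  have hcB : Fintype.card Base = n * (Fintype.card F - 1) := by
    have h1 : Function.Bijective (fun p : Base => (kap L 0 p.1.1.1, p.1.2)) := by
      constructor
      · rintro ⟨⟨ι, x⟩, hp⟩ ⟨⟨ι', x'⟩, hp'⟩ h
        simp only [Prod.mk.injEq] at h hp hp'
        obtain ⟨h1, rfl⟩ := h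
        have : ι = ι' := (hab 0).1 (Prod.ext h1 (hp.symm.trans hp'))
        subst this
        rfl
      · rintro ⟨i, x⟩
        obtain ⟨ι, hι⟩ := (hab 0).2 (i, ((x : Fˣ) : Fˣ ⧸ G))
        have h1 : kap L 0 ι.1 = i := congrArg Prod.fst hι
        have h2 : a 0 ι = ((x : Fˣ) : Fˣ ⧸ G) := congrArg Prod.snd hι
        exact ⟨⟨(ι, x), h2.symm⟩, Prod.ext h1 rfl⟩
    rw [Fintype.card_of_bijective h1, Fintype.card_prod, Fintype.card_fin, Fintype.card_units]
  have hcJ : Nat.card J ≤ Nat.card (Fin n × F) := by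
    have h1 : Nat.card Base = Nat.card (OI P Q)
        + Nat.card {p : Base // p ∉ Set.range oi} := by
      rw [← Nat.card_congr (Equiv.sumCompl (fun p : Base => p ∈ Set.range oi)),
        Nat.card_sum]
      congr 1
      exact (Nat.card_congr (Equiv.ofInjective oi hoi)).symm
    have h2 : Nat.card J = Nat.card {p : Base // p ∉ Set.range oi}
        + Nat.card (NI P Q) := Nat.card_sum
    have h3 : Nat.card Base = n * (Fintype.card F - 1) := by
      rw [Nat.card_eq_fintype_card, hcB]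
    have h4 : Nat.card (NI P Q) = P + ((P + Q) + (P + Q)) := by simp
    have h5 : Nat.card (OI P Q) = Q + ((P + Q) + (P + Q)) := by simp
    have h6 : P = n + Q := by
      have := Fintype.card_congr (ρ 0)
      simpa using this
    have h7 : Nat.card (Fin n × F) = n * Fintype.card F := by simp
    have h8 : 0 < Fintype.card F := Fintype.card_pos
    have h9 : n * Fintype.card F = n * (Fintype.card F - 1) + n := by
      conv_lhs => rw [show Fintype.card F = (Fintype.card F - 1) + 1 by omega]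
      ring
    omega
  have hbij : ∀ s, Function.Bijective (Φ s) := fun s =>
    (hΦ s).bijective_of_nat_card_le hcJ
  have hrel : ∀ j, Φ 2 j = (L (Φ 0 j).1 (Φ 1 j).1, (Φ 0 j).2 + (Φ 1 j).2) := by
    rintro (p | ν)
    · refine Prod.ext rfl ?_
      show ((m p.1.1.1 2 * p.1.1.2 : Fˣ) : F) = ((m p.1.1.1 0 * p.1.1.2 : Fˣ) : F)
        + ((m p.1.1.1 1 * p.1.1.2 : Fˣ) : F)
      rw [Units.val_mul, Units.val_mul, Units.val_mul, hm12, hm0]
      simp only [Units.val_one]
      ring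
    · refine Prod.ext rfl ?_
      show tokN F ρ 2 ν v = tokN F ρ 0 ν v + tokN F ρ 1 ν v
      rw [← tokN_add, LinearMap.add_apply]
  let e0 := Equiv.ofBijective _ (hbij 0)
  let e1 := Equiv.ofBijective _ (hbij 1)
  refine ⟨e0.symm.trans e1, ?_⟩
  have hfin : (fun r : Fin n × F => (L r.1 ((e0.symm.trans e1) r).1,
      r.2 + ((e0.symm.trans e1) r).2)) = Φ 2 ∘ e0.symm := by
    funext r
    have h1 : Φ 0 (e0.symm r) = r := e0.apply_symm_apply r
    simp only [Function.comp_apply]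
    rw [hrel, h1]
    rfl
  rw [hfin]
  exact (hbij 2).comp e0.symm.bijective

end TH964.FP
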