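import Pool.Agent.TH964.FP.SepTok

set_option autoImplicit false

/-! The cells of the absorber. -/

namespace TH964.FP

open Finset

/-- The three class maps of the cells: row, column, symbol. -/
def kap {n : ℕ} (L : Fin n → Fin n → Fin n) : Fin 3 → Fin n × Fin n → Fin n
  | 0 => fun c => c.1
  | 1 => fun c => c.2
  | 2 => fun c => L c.1 c.2

abbrev OI (P Q : ℕ) : Type := Fin Q ⊕ (Fin P ⊕ Fin Q) ⊕ (Fin P ⊕ Fin Q)
abbrev NI (P Q : ℕ) : Type := Fin P ⊕ (Fin P ⊕ Fin Q) ⊕ (Fin P ⊕ Fin Q)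

section cells

variable {n P Q : ℕ} (L : Fin n → Fin n → Fin n) (cp : Fin P → Fin n × Fin n)
  (cn : Fin Q → Fin n × Fin n) (o₀ : Fin n) (inv : Fin n → Fin n)

def cellO : OI P Q → Fin n × Fin n :=
  Sum.elim cn (Sum.elim (fun e => (o₀, (Sum.elim cp cn e).2))
    (fun e => (inv (L (Sum.elim cp cn e).1 (Sum.elim cp cn e).2), o₀)))

def cellN : NI P Q → Fin n × Fin n :=
  Sum.elim cp (Sum.elim (fun e => (o₀, (Sum.elim cp cn e).2))
    (fun e => (inv (L (Sum.elim cp cn e).1 (Sum.elim cp cn e).2), o₀)))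

variable (F : Type) [Field F] (ρ : Fin 3 → (Fin P ≃ Fin n ⊕ Fin Q))

noncomputable def tokO : Fin 3 → OI P Q → (Pm P Q → F) →ₗ[F] F
  | 0 => rowO F (ρ 0) (ρ 1) (ρ 2)
  | 1 => colO F (ρ 0) (ρ 1) (ρ 2)
  | 2 => symO F (ρ 0) (ρ 1) (ρ 2)

noncomputable def tokN : Fin 3 → NI P Q → (Pm P Q → F) →ₗ[F] F
  | 0 => Sum.elim (fun a => tx F (ρ 0) (Sum.inl a))
      (Sum.elim (fun e => tT F e) (fun e => tm F (ρ 0) (ρ 1) (ρ 2) e))
  | 1 => Sum.elim (fun a => tr F (ρ 1) (Sum.inl a))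
      (Sum.elim (Sum.elim (fun a => ty F (ρ 1) (Sum.inl a)) (fun f => tr F (ρ 1) (Sum.inr f)))
        (fun e => tV F (ρ 0) (ρ 1) (ρ 2) e))
  | 2 => Sum.elim (fun a => tA F (ρ 0) (ρ 1) (Sum.inl a))
      (Sum.elim (fun e => tB F (ρ 1) e)
        (Sum.elim (fun a => tz F (ρ 2) (Sum.inl a)) (fun f => tA F (ρ 0) (ρ 1) (Sum.inr f))))

theorem tokO_add (o : OI P Q) : tokO F ρ 0 o + tokO F ρ 1 o = tokO F ρ 2 o :=
  row_add_col F (ρ 0) (ρ 1) (ρ 2) o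

theorem tokN_add (ν : NI P Q) : tokN F ρ 0 ν + tokN F ρ 1 ν = tokN F ρ 2 ν := by
  rcases ν with a | (a | f) | (a | f)
  · rfl
  · exact B_pos F (ρ 1) a
  · exact B_neg F (ρ 1) f
  · exact m_pos F (ρ 0) (ρ 1) (ρ 2) a
  · exact m_neg' F (ρ 0) (ρ 1) (ρ 2) f

theorem outer_inl {Z : Type} (r : Fin P ≃ Z ⊕ Fin Q) (X : Fin Q → (Pm P Q → F) →ₗ[F] F) (z : Z) :
    outer F r X (Sum.inl (r.symm (Sum.inl z))) = 0 := by
  simp [outer]

theorem outer_inr {Z : Type} (r : Fin P ≃ Z ⊕ Fin Q) (X : Fin Q → (Pm P Q → F) →ₗ[F] F)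
    (f : Fin Q) : outer F r X (Sum.inl (r.symm (Sum.inr f))) = outer F r X (Sum.inr f) := by
  simp [outer]

variable {L cp cn o₀ inv} (hinv : ∀ k, L (inv k) o₀ = k)
  (hρ : ∀ s a, kap L s (cp a) = Sum.elim id (fun f => kap L s (cn f)) (ρ s a))

include hρ in
theorem cls_inl (s : Fin 3) (z : Fin n) : kap L s (cp ((ρ s).symm (Sum.inl z))) = z := by
  rw [hρ, Equiv.apply_symm_apply]; rfl

include hρ in
theorem cls_inr (s : Fin 3) (f : Fin Q) :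
    kap L s (cp ((ρ s).symm (Sum.inr f))) = kap L s (cn f) := by
  rw [hρ, Equiv.apply_symm_apply]; rfl

include hinv hρ in
theorem hitO (s : Fin 3) (o : OI P Q) : ∃ ν : NI P Q,
    kap L s (cellN L cp cn o₀ inv ν) = kap L s (cellO L cp cn o₀ inv o) ∧
      tokN F ρ s ν = tokO F ρ s o := by
  match s with
  | 0 =>
    rcases o with f | e | e
    · exact ⟨Sum.inl ((ρ 0).symm (Sum.inr f)), cls_inr ρ hρ 0 f, outer_inr F (ρ 0) _ f⟩
    · exact ⟨Sum.inr (Sum.inl (sc P Q e)), rfl, rfl⟩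
    · exact ⟨Sum.inr (Sum.inr e), rfl, rfl⟩
  | 1 =>
    rcases o with f | (a | f) | e
    · exact ⟨Sum.inr (Sum.inl (Sum.inr f)), rfl, rfl⟩
    · exact ⟨Sum.inl a, rfl, rfl⟩
    · exact ⟨Sum.inr (Sum.inl (Sum.inl ((ρ 1).symm (Sum.inr f)))), cls_inr ρ hρ 1 f,
        outer_inr F (ρ 1) _ f⟩
    · exact ⟨Sum.inr (Sum.inr (sc P Q e)), rfl, rfl⟩
  | 2 =>
    rcases o with f | e | (a | f)
    · exact ⟨Sum.inr (Sum.inr (Sum.inr f)), hinv _, rfl⟩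
    · exact ⟨Sum.inr (Sum.inl e), rfl, rfl⟩
    · exact ⟨Sum.inl a, (hinv _).symm, rfl⟩
    · refine ⟨Sum.inr (Sum.inr (Sum.inl ((ρ 2).symm (Sum.inr f)))), ?_, outer_inr F (ρ 2) _ f⟩
      have h1 : kap L 2 (cellN L cp cn o₀ inv
          (Sum.inr (Sum.inr (Sum.inl ((ρ 2).symm (Sum.inr f))))))
          = kap L 2 (cp ((ρ 2).symm (Sum.inr f))) := hinv _
      have h2 : kap L 2 (cellO L cp cn o₀ inv (Sum.inr (Sum.inr (Sum.inr f))))
          = kap L 2 (cn f) := hinv _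
      rw [h1, h2]
      exact cls_inr ρ hρ 2 f

include hinv hρ in
theorem hitZ (s : Fin 3) (z : Fin n) : ∃ ν : NI P Q,
    kap L s (cellN L cp cn o₀ inv ν) = z ∧ tokN F ρ s ν = 0 := by
  match s with
  | 0 => exact ⟨Sum.inl ((ρ 0).symm (Sum.inl z)), cls_inl ρ hρ 0 z, outer_inl F (ρ 0) _ z⟩
  | 1 => exact ⟨Sum.inr (Sum.inl (Sum.inl ((ρ 1).symm (Sum.inl z)))), cls_inl ρ hρ 1 z,
      outer_inl F (ρ 1) _ z⟩
  | 2 =>
    refine ⟨Sum.inr (Sum.inr (Sum.inl ((ρ 2).symm (Sum.inl z)))), ?_, outer_inl F (ρ 2) _ z⟩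
    have h1 : kap L 2 (cellN L cp cn o₀ inv
        (Sum.inr (Sum.inr (Sum.inl ((ρ 2).symm (Sum.inl z))))))
        = kap L 2 (cp ((ρ 2).symm (Sum.inl z))) := hinv _
    rw [h1]
    exact cls_inl ρ hρ 2 z

end cells

section generic

variable {n P Q : ℕ} {F : Type} [Field F] {ρ : Fin 3 → (Fin P ≃ Fin n ⊕ Fin Q)}

theorem tokO_ne (h3 : 3 ≤ P + Q) (s : Fin 3) (o : OI P Q) : ∃ w, tokO F ρ s o w ≠ 0 := by
  match s with
  | 0 => exact neR o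
  | 1 => exact neC h3 o
  | 2 => exact neS h3 o

theorem tokO_sep (h3 : 3 ≤ P + Q) (hS : ∀ a : Fin P, (a : ℕ) = 0 → ∃ z, ρ 2 a = Sum.inl z)
    (hC : ∀ (a : Fin P) (f : Fin Q), (a : ℕ) = 0 → (f : ℕ) + 1 = Q → ρ 1 a ≠ Sum.inr f)
    (s : Fin 3) (o o' : OI P Q) (h : o ≠ o') : Sep (tokO F ρ s o) (tokO F ρ s o') := by
  match s with
  | 0 => exact sepR hS o o' h
  | 1 => exact sepC h3 o o' h
  | 2 => exact sepS h3 hC o o' h

end generic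

end TH964.FP
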