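import Mathlib.NumberTheory.LSeries.PrimesInAP
import Mathlib.Data.Nat.Totient
import Mathlib.Topology.Algebra.InfiniteSum.NatInt
import Mathlib.Analysis.SpecialFunctions.Pow.Real
import Mathlib.Tactic

set_option autoImplicit false

/-! Reciprocals of primes congruent to one, and a sieve. -/

namespace TH964.FP

open Finset ArithmeticFunction ArithmeticFunction.vonMangoldt Filter Topology

/-- The function `1 / p` on primes `p = 1` mod `q`. -/
noncomputable def fq (q : ℕ) (n : ℕ) : ℝ := if n.Prime ∧ (n : ZMod q) = 1 then (n : ℝ)⁻¹ else 0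

theorem fq_nonneg (q n : ℕ) : 0 ≤ fq q n := by
  rw [fq]; split_ifs <;> positivity

theorem bound_term (q : ℕ) (P n : ℕ) (x : ℝ) (hx : 1 < x) :
    residueClass (1 : ZMod q) n / (n : ℝ) ^ x ≤
      (if n.Prime then 0 else residueClass (1 : ZMod q) n) / n
      + (if n < P then residueClass (1 : ZMod q) n / n else 0)
      + (if n < P then 0 else fq q n) * (x - 1)⁻¹ := by
  have h0 : 0 ≤ residueClass (1 : ZMod q) n := residueClass_nonneg _ _
  rcases Nat.eq_zero_or_pos n with rfl | hn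
  · simp [fq]
  have hn' : (1 : ℝ) ≤ n := by exact_mod_cast hn
  have hpos : (0 : ℝ) < n := by linarith
  have hle : residueClass (1 : ZMod q) n / (n : ℝ) ^ x ≤ residueClass (1 : ZMod q) n / n := by
    refine div_le_div_of_nonneg_left h0 hpos ?_
    conv_lhs => rw [← Real.rpow_one n]
    exact Real.rpow_le_rpow_of_exponent_le hn' hx.le
  have hdiv : 0 ≤ residueClass (1 : ZMod q) n / n := div_nonneg h0 hpos.le
  have hf := fq_nonneg q n
  have hx' : 0 < (x - 1)⁻¹ := inv_pos.2 (by linarith)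
  by_cases hp : n.Prime
  · rw [if_pos hp, zero_div, zero_add]
    by_cases hP : n < P
    · rw [if_pos hP, if_pos hP, zero_mul, add_zero]
      exact hle
    · rw [if_neg hP, if_neg hP, zero_add]
      by_cases ha : (n : ZMod q) = 1
      · have h1 : residueClass (1 : ZMod q) n = Real.log n := by
          rw [residueClass, Set.indicator_of_mem (by exact ha), vonMangoldt_apply_prime hp]
        rw [h1, fq, if_pos ⟨hp, ha⟩]
        have h2 : Real.log n ≤ (n : ℝ) ^ (x - 1) / (x - 1) :=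
          Real.log_le_rpow_div hpos.le (by linarith)
        have h3 : (n : ℝ) ^ x = (n : ℝ) ^ (x - 1) * n := by
          conv_rhs => rw [← Real.rpow_one (n : ℝ)]
          rw [← Real.rpow_mul hpos.le, one_mul, ← Real.rpow_add hpos]
          congr 1
          ring
        rw [h3, div_le_iff₀ (by positivity)]
        calc Real.log n ≤ (n : ℝ) ^ (x - 1) / (x - 1) := h2
          _ = (n : ℝ)⁻¹ * (x - 1)⁻¹ * ((n : ℝ) ^ (x - 1) * n) := by
            have : x - 1 ≠ 0 := by linarith
            field_simp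
      · have h1 : residueClass (1 : ZMod q) n = 0 := by
          rw [residueClass, Set.indicator_of_notMem]
          exact ha
        rw [h1, zero_div]
        positivity
  · rw [if_neg hp]
    have h1 : 0 ≤ (if n < P then residueClass (1 : ZMod q) n / n else 0) := by
      split_ifs
      · exact hdiv
      · exact le_rfl
    have h2 : 0 ≤ (if n < P then 0 else fq q n) * (x - 1)⁻¹ := by
      refine mul_nonneg ?_ hx'.le
      split_ifs
      · exact le_rfl
      · exact hf
    linarith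

theorem not_summable_fq (q : ℕ) [NeZero q] : ¬ Summable (fq q) := by
  intro H
  have hφ : 0 < (q.totient : ℝ)⁻¹ := inv_pos.mpr (mod_cast q.totient.pos_of_neZero)
  obtain ⟨P, hP⟩ : ∃ P : ℕ, ∑' k, fq q (k + P) < (q.totient : ℝ)⁻¹ / 2 :=
    ((tendsto_sum_nat_add (fq q)).eventually_lt_const (by linarith)).exists
  obtain ⟨C, hC⟩ := LSeries_residueClass_lower_bound (q := q) (a := 1) isUnit_one
  have s1 : Summable (fun n : ℕ => (if n.Prime then 0 else residueClass (1 : ZMod q) n) / (n : ℝ)) :=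
    summable_residueClass_non_primes_div (1 : ZMod q)
  have s2 : Summable (fun n : ℕ => if n < P then residueClass (1 : ZMod q) n / (n : ℝ) else 0) := by
    refine summable_of_ne_finset_zero (s := range P) (fun n hn => ?_)
    rw [mem_range] at hn
    rw [if_neg hn]
  have s3 : Summable (fun n : ℕ => if n < P then 0 else fq q n) := by
    refine Summable.of_nonneg_of_le (fun n => ?_) (fun n => ?_) H
    · split_ifs
      · exact le_rfl
      · exact fq_nonneg q n
    · split_ifs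
      · exact fq_nonneg q n
      · exact le_rfl
  have t3 : ∑' n : ℕ, (if n < P then 0 else fq q n) < (q.totient : ℝ)⁻¹ / 2 := by
    rw [← s3.sum_add_tsum_nat_add P, Finset.sum_eq_zero, zero_add]
    · have e : ∀ k, (if k + P < P then 0 else fq q (k + P)) = fq q (k + P) :=
        fun k => if_neg (by omega)
      rw [tsum_congr e]
      exact hP
    · intro n hn
      rw [if_pos (mem_range.1 hn)]
  obtain ⟨K, hK⟩ : ∃ K : ℝ, K = C
      + ∑' n : ℕ, (if n.Prime then 0 else residueClass (1 : ZMod q) n) / (n : ℝ)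
      + ∑' n : ℕ, (if n < P then residueClass (1 : ZMod q) n / (n : ℝ) else 0) := ⟨_, rfl⟩
  have key : ∀ x ∈ Set.Ioc (1 : ℝ) 2, (q.totient : ℝ)⁻¹ / 2 ≤ K * (x - 1) := by
    intro x hx
    have hx1 : 0 < x - 1 := by linarith [hx.1]
    have h1 := hC hx
    have h2 : ∑' n, residueClass (1 : ZMod q) n / (n : ℝ) ^ x ≤
        ∑' n : ℕ, (if n.Prime then 0 else residueClass (1 : ZMod q) n) / (n : ℝ)
        + ∑' n : ℕ, (if n < P then residueClass (1 : ZMod q) n / (n : ℝ) else 0)
        + (∑' n : ℕ, (if n < P then 0 else fq q n)) * (x - 1)⁻¹ := by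
      rw [← tsum_mul_right, ← s1.tsum_add s2, ← (s1.add s2).tsum_add (s3.mul_right _)]
      refine Summable.tsum_le_tsum (fun n => bound_term q P n x hx.1) ?_
        ((s1.add s2).add (s3.mul_right _))
      exact LSeries.summable_real_of_abscissaOfAbsConv_lt <|
        (abscissaOfAbsConv_residueClass_le_one (1 : ZMod q)).trans_lt <| mod_cast hx.1
    have h3 : (∑' n : ℕ, (if n < P then 0 else fq q n)) * (x - 1)⁻¹
        ≤ (q.totient : ℝ)⁻¹ / 2 * (x - 1)⁻¹ :=
      mul_le_mul_of_nonneg_right t3.le (inv_pos.2 hx1).le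
    have h4 : (q.totient : ℝ)⁻¹ / (x - 1) = (q.totient : ℝ)⁻¹ / 2 * (x - 1)⁻¹
        + (q.totient : ℝ)⁻¹ / 2 * (x - 1)⁻¹ := by
      rw [div_eq_mul_inv]; ring
    have h5 : (q.totient : ℝ)⁻¹ / 2 * (x - 1)⁻¹ ≤ K := by
      rw [hK]; linarith
    calc (q.totient : ℝ)⁻¹ / 2 = (q.totient : ℝ)⁻¹ / 2 * (x - 1)⁻¹ * (x - 1) := by
          rw [mul_assoc, inv_mul_cancel₀ hx1.ne', mul_one]
      _ ≤ K * (x - 1) := mul_le_mul_of_nonneg_right h5 hx1.le
  obtain ⟨φ, hφe⟩ : ∃ φ : ℝ, φ = (q.totient : ℝ)⁻¹ := ⟨_, rfl⟩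
  rw [← hφe] at hφ key
  have hKpos : 0 < K := by
    have := key 2 ⟨by norm_num, le_rfl⟩
    nlinarith
  have hδ : 0 < min 1 (φ / (4 * K)) := by
    refine lt_min one_pos ?_
    positivity
  have := key (1 + min 1 (φ / (4 * K))) ⟨by linarith, by
    have := min_le_left 1 (φ / (4 * K)); linarith⟩
  rw [add_sub_cancel_left] at this
  have h2 : K * min 1 (φ / (4 * K)) ≤ K * (φ / (4 * K)) :=
    mul_le_mul_of_nonneg_left (min_le_right _ _) hKpos.le
  have h3 : K * (φ / (4 * K)) = φ / 4 := by field_simp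
  linarith

theorem exists_set (q B : ℕ) [NeZero q] (K : ℝ) : ∃ S : Finset ℕ,
    (∀ p ∈ S, p.Prime ∧ B < p ∧ q ∣ p - 1) ∧ K ≤ ∑ p ∈ S, (p : ℝ)⁻¹ := by
  classical
  have h := (not_summable_iff_tendsto_nat_atTop_of_nonneg (fq_nonneg q)).1 (not_summable_fq q)
  obtain ⟨N, hN1, hN2⟩ := ((h.eventually_ge_atTop (K + ∑ i ∈ range (B + 1), fq q i)).and
    (eventually_ge_atTop (B + 1))).exists
  refine ⟨(range N \ range (B + 1)).filter (fun n : ℕ => n.Prime ∧ (n : ZMod q) = 1), ?_, ?_⟩
  · intro p hp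
    rw [Finset.mem_filter, Finset.mem_sdiff, Finset.mem_range, Finset.mem_range] at hp
    obtain ⟨⟨-, h1⟩, h2, h3⟩ := hp
    refine ⟨h2, by omega, ?_⟩
    have h4 : ((p : ℕ) : ZMod q) = ((1 : ℕ) : ZMod q) := by rw [h3]; simp
    rw [ZMod.natCast_eq_natCast_iff] at h4
    exact (Nat.modEq_iff_dvd' h2.one_le).1 h4.symm
  · have h5 : ∑ p ∈ (range N \ range (B + 1)).filter (fun n : ℕ => n.Prime ∧ (n : ZMod q) = 1),
        (p : ℝ)⁻¹ = ∑ p ∈ range N \ range (B + 1), fq q p := by
      rw [Finset.sum_filter]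
      rfl
    rw [h5]
    have h6 := Finset.sum_sdiff (f := fq q) (range_subset_range.2 hN2)
    linarith

theorem sieve (S : Finset ℕ) (hS : ∀ p ∈ S, p.Prime) (X : ℕ) :
    (((range X).filter (fun m => ∀ p ∈ S, ¬ p ∣ m)).card : ℝ)
      ≤ X * Real.exp (- ∑ p ∈ S, (p : ℝ)⁻¹) + (∏ p ∈ S, p : ℕ) := by
  classical
  set M := ∏ p ∈ S, p with hM
  have hMpos : 0 < M := Finset.prod_pos (fun p hp => (hS p hp).pos)
  have h1 : (range X).filter (fun m => ∀ p ∈ S, ¬ p ∣ m)
      ⊆ (Ico 0 (0 + X)).filter (fun m => M.Coprime m) := by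
    intro m hm
    simp only [mem_filter, mem_range, mem_Ico, zero_le, zero_add, true_and] at hm ⊢
    refine ⟨hm.1, ?_⟩
    rw [hM]
    exact Nat.Coprime.prod_left (fun p hp => ((hS p hp).coprime_iff_not_dvd).2 (hm.2 p hp))
  have h2 := (Finset.card_le_card h1).trans (Nat.Ico_filter_coprime_le 0 X hMpos.ne')
  have h3 : (((range X).filter (fun m => ∀ p ∈ S, ¬ p ∣ m)).card : ℝ)
      ≤ (M.totient : ℝ) * ((X / M : ℕ) + 1) := by exact_mod_cast h2
  have h4 : ((X / M : ℕ) : ℝ) ≤ X / M := Nat.cast_div_le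
  have hM' : (0 : ℝ) < M := by exact_mod_cast hMpos
  have h5 : (M.totient : ℝ) = M * ∏ p ∈ S, (1 - (p : ℝ)⁻¹) := by
    have h := Nat.totient_eq_mul_prod_factors M
    rw [hM, Nat.primeFactors_prod hS, ← hM] at h
    have h' := congrArg (fun z : ℚ => (z : ℝ)) h
    push_cast at h'
    exact h'
  have h6 : ∏ p ∈ S, (1 - (p : ℝ)⁻¹) ≤ Real.exp (- ∑ p ∈ S, (p : ℝ)⁻¹) := by
    rw [← Finset.sum_neg_distrib, Real.exp_sum]
    refine Finset.prod_le_prod (fun p hp => ?_) (fun p _ => Real.one_sub_le_exp_neg _)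
    have : (1 : ℝ) ≤ p := by exact_mod_cast (hS p hp).one_le
    rw [sub_nonneg]
    exact inv_le_one_of_one_le₀ this
  have h7 : (M.totient : ℝ) ≤ M := by exact_mod_cast Nat.totient_le M
  calc (((range X).filter (fun m => ∀ p ∈ S, ¬ p ∣ m)).card : ℝ)
      ≤ (M.totient : ℝ) * ((X / M : ℕ) + 1) := h3
    _ ≤ (M.totient : ℝ) * (X / M + 1) := by
        refine mul_le_mul_of_nonneg_left ?_ (by positivity)
        linarith
    _ = X * ∏ p ∈ S, (1 - (p : ℝ)⁻¹) + M.totient := by
        rw [mul_add, mul_one, h5]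
        field_simp
    _ ≤ X * Real.exp (- ∑ p ∈ S, (p : ℝ)⁻¹) + M := by
        have := mul_le_mul_of_nonneg_left h6 (show (0 : ℝ) ≤ X by positivity)
        linarith

end TH964.FP
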