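import Pool.Agent.TH964.FP.Duplex

set_option autoImplicit false

/-! Duplexes in products. -/

namespace TH964.FP

open Finset TH964.HP

theorem obstructed_pull {R C S R' C' S' : Type} (M : ℕ) (P : R → C → S) (P' : R' → C' → S')
    (a : R → R') (b : C → C') (c : S → S') (ha : Function.Surjective a)
    (h : ∀ r x, c (P r x) = P' (a r) (b x)) (hO : Obstructed M P') : Obstructed M P := by
  obtain ⟨s, t, hs, ht, hn, α, β, γ, hα, hh⟩ := hO
  exact ⟨s, t, hs, ht, hn, α ∘ a, β ∘ b, γ ∘ c, hα.comp ha, fun i j => by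
    simp only [Function.comp_apply]; rw [h, hh]⟩

theorem hasDuplex_iso {R C S R' C' S' : Type} (P : R → C → S) (P' : R' → C' → S')
    (eR : R' ≃ R) (eC : C' ≃ C) (eS : S' ≃ S) (h : ∀ r c, eS (P' r c) = P (eR r) (eC c))
    (hP : HasDuplex P) : HasDuplex P' := by
  obtain ⟨D, h1, h2, h3⟩ := hP
  let E : R' × C' ≃ R × C := eR.prodCongr eC
  have key : ∀ (p : R × C → Prop), {x ∈ E ⁻¹' D | p (E x)}.ncard = {y ∈ D | p y}.ncard := by
    intro p
    have : {y ∈ D | p y} = E '' {x ∈ E ⁻¹' D | p (E x)} := by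
      ext y
      constructor
      · rintro ⟨hy, hpy⟩
        exact ⟨E.symm y, ⟨by simpa using hy, by simpa using hpy⟩, by simp⟩
      · rintro ⟨x, ⟨hx, hpx⟩, rfl⟩
        exact ⟨hx, hpx⟩
    rw [this, Set.ncard_image_of_injective _ E.injective]
  refine ⟨E ⁻¹' D, fun r => ?_, fun c => ?_, fun k => ?_⟩
  · rw [← h1 (eR r), ← key (fun y => y.1 = eR r)]
    congr 1
    ext x
    have : (E x).1 = eR r ↔ x.1 = r := eR.injective.eq_iff
    exact and_congr_right (fun _ => this.symm)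
  · rw [← h2 (eC c), ← key (fun y => y.2 = eC c)]
    congr 1
    ext x
    have : (E x).2 = eC c ↔ x.2 = c := eC.injective.eq_iff
    exact and_congr_right (fun _ => this.symm)
  · rw [← h3 (eS k), ← key (fun y => P y.1 y.2 = eS k)]
    congr 1
    ext x
    have : P (E x).1 (E x).2 = eS k ↔ P' x.1 x.2 = k := by
      show P (eR x.1) (eC x.2) = eS k ↔ _
      rw [← h]
      exact eS.injective.eq_iff
    exact and_congr_right (fun _ => this.symm)

/-- A relabelled unobstructed extension by the group of order two. -/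
theorem exists_ext {N : ℕ} (hN : 2 ≤ N) (L : Fin N → Fin N → Fin N) (hL : IsLatin L) :
    ∃ (f : Fin N → Fin N → ZMod 2) (ν : Fin N × ZMod 2 ≃ Fin (N * 2))
      (M : Fin (N * 2) → Fin (N * 2) → Fin (N * 2)), IsLatin M ∧ ¬ Obstructed (N * 2) M ∧
      ∀ r c, M (ν r) (ν c) = ν (twist L f r c) := by
  obtain ⟨f, hf⟩ := exists_twist hN L hL
  let ν : Fin N × ZMod 2 ≃ Fin (N * 2) := Finite.equivFinOfCardEq (by
    rw [Nat.card_prod, Nat.card_zmod, Nat.card_eq_fintype_card, Fintype.card_fin])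
  have h := twist_isLatin L hL f
  refine ⟨f, ν, fun i j => ν (twist L f (ν.symm i) (ν.symm j)), ?_, ?_, ?_⟩
  · exact ⟨fun i => ν.bijective.comp ((h.1 (ν.symm i)).comp ν.symm.bijective),
      fun j => ν.bijective.comp ((h.2 (ν.symm j)).comp ν.symm.bijective)⟩
  · intro hO
    refine hf (obstructed_pull (N * 2) _ _ ν ν ν ν.surjective ?_ hO)
    intro r c
    simp
  · intro r c
    simp

theorem nil_duplex {n : ℕ} (hn : 2 ≤ n) (L : Fin n → Fin n → Fin n) (hL : IsLatin L) (A e₀ : ℕ)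
    (he₀ : ∀ a ≤ A, FC (n * 2 ^ a * 2) e₀) (G : Type) [Group G] [Finite G] [Group.IsNilpotent G]
    (p e : ℕ) (h2 : ¬ 2 ^ (A + 1) ∣ Nat.card G) (hp : p.Prime) (hp2 : p ≠ 2)
    (hpG : p ∣ Nat.card G) (he : e₀ ≤ e) (h1 : e ∣ p - 1) (h3 : 64 * e ^ 6 < p) :
    HasDuplex (fun r c : Fin n × G => (L r.1 c.1, r.2 * c.2)) := by
  classical
  obtain ⟨K, B, _, _, _, _, ⟨φ⟩, ⟨a, ha⟩, hB, hnil⟩ := split_two G
  have hcard : Nat.card G = 2 ^ a * Nat.card B := by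
    rw [Nat.card_congr φ.toEquiv, Nat.card_prod, ha]
  have haA : a ≤ A := by
    by_contra hlt
    apply h2
    rw [hcard]
    exact Dvd.dvd.mul_right (pow_dvd_pow 2 (by omega)) _
  have hpB : p ∣ Nat.card B := by
    rw [hcard] at hpG
    rcases hp.dvd_mul.1 hpG with h | h
    · exact absurd ((Nat.prime_dvd_prime_iff_eq hp Nat.prime_two).1 (hp.dvd_of_dvd_pow h)) hp2
    · exact h
  let μ : Fin n × K ≃ Fin (n * 2 ^ a) := Finite.equivFinOfCardEq (by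
    rw [Nat.card_prod, ha, Nat.card_eq_fintype_card, Fintype.card_fin])
  let L' : Fin (n * 2 ^ a) → Fin (n * 2 ^ a) → Fin (n * 2 ^ a) := fun i j =>
    μ (L (μ.symm i).1 (μ.symm j).1, (μ.symm i).2 * (μ.symm j).2)
  have hL' : IsLatin L' := by
    have h := prod_isLatin L hL K
    exact ⟨fun i => μ.bijective.comp ((h.1 (μ.symm i)).comp μ.symm.bijective),
      fun j => μ.bijective.comp ((h.2 (μ.symm j)).comp μ.symm.bijective)⟩
  have hN : 2 ≤ n * 2 ^ a := le_trans hn (Nat.le_mul_of_pos_right n (by positivity))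
  obtain ⟨f, ν, M, hM, hMO, hMν⟩ := exists_ext hN L' hL'
  have hT := (nilpotent_case M hM e₀ (he₀ a haA M hM) B p e hB hp hpB he h1 h3).2 hMO
  have hTw : HasTransversal (twist (fun r c : Fin (n * 2 ^ a) × B => (L' r.1 c.1, r.2 * c.2))
      (fun r c => f r.1 c.1)) := by
    let E : (Fin (n * 2 ^ a) × B) × ZMod 2 ≃ Fin (n * 2 ^ a * 2) × B :=
      ⟨fun z => (ν (z.1.1, z.2), z.1.2), fun w => (((ν.symm w.1).1, w.2), (ν.symm w.1).2),
        fun z => by simp, fun w => by simp⟩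
    refine hasTransversal_iso _ _ E E E ?_ hT
    rintro ⟨⟨i, b⟩, ε⟩ ⟨⟨j, b'⟩, δ⟩
    exact Prod.ext (hMν (i, ε) (j, δ)).symm rfl
  have hD := duplex_of_twist _ _ hTw
  let E : Fin n × G ≃ Fin (n * 2 ^ a) × B :=
    ((Equiv.refl (Fin n)).prodCongr φ.toEquiv).trans
      ((Equiv.prodAssoc (Fin n) K B).symm.trans (μ.prodCongr (Equiv.refl B)))
  refine hasDuplex_iso _ _ E E E ?_ hD
  rintro ⟨i, g⟩ ⟨j, g'⟩
  refine Prod.ext ?_ ?_
  · show μ (L i j, (φ (g * g')).1) = μ (L (μ.symm (μ (i, (φ g).1))).1 (μ.symm (μ (j, (φ g').1))).1,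
      (μ.symm (μ (i, (φ g).1))).2 * (μ.symm (μ (j, (φ g').1))).2)
    rw [Equiv.symm_apply_apply, Equiv.symm_apply_apply, map_mul]
    rfl
  · show (φ (g * g')).2 = (φ g).2 * (φ g').2
    rw [map_mul]
    rfl

theorem almost_all_duplex (n : ℕ) (hn : 2 ≤ n) (ε : ℝ) (hε : 0 < ε) : ∃ X₀ : ℕ, ∀ X ≥ X₀,
      ({m : ℕ | m < X ∧ ∃ (G : Type) (_ : Group G) (_ : Finite G) (L : Fin n → Fin n → Fin n),
        Group.IsNilpotent G ∧ Nat.card G = m ∧ IsLatin L ∧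
        ¬ HasDuplex (fun r c : Fin n × G => (L r.1 c.1, r.2 * c.2))}.ncard : ℝ) ≤ ε * X := by
  classical
  obtain ⟨A, hA⟩ : ∃ A : ℕ, (1 / 2 : ℝ) ^ A < ε / 3 :=
    exists_pow_lt_of_lt_one (by positivity) (by norm_num)
  have hF : ∀ a, ∃ e₀, FC (n * 2 ^ a * 2) e₀ := fun a => field_case (n * 2 ^ a * 2)
  choose e hE using hF
  obtain ⟨e₀, he₀⟩ : ∃ e₀, ∀ a ≤ A, FC (n * 2 ^ a * 2) e₀ := by
    refine ⟨(range (A + 1)).sup e, fun a ha => FC_mono ?_ (hE a)⟩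
    exact Finset.le_sup (f := e) (mem_range.2 (by omega))
  obtain ⟨S, hS, hK⟩ := exists_set (e₀ + 1) (64 * (e₀ + 1) ^ 6) (- Real.log (ε / 3))
  obtain ⟨M, hM⟩ : ∃ M : ℕ, M = ∏ p ∈ S, p := ⟨_, rfl⟩
  obtain ⟨X₀, hX₀⟩ := exists_nat_ge (3 * ((M : ℝ) + 1) / ε)
  refine ⟨X₀, fun X hX => ?_⟩
  have hsub : {m : ℕ | m < X ∧ ∃ (G : Type) (_ : Group G) (_ : Finite G)
        (L : Fin n → Fin n → Fin n), Group.IsNilpotent G ∧ Nat.card G = m ∧ IsLatin L ∧
        ¬ HasDuplex (fun r c : Fin n × G => (L r.1 c.1, r.2 * c.2))} ⊆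
      ((range X).filter (fun m => ∀ p ∈ S, ¬ p ∣ m) ∪
        (range X).filter (fun m => 2 ^ (A + 1) ∣ m) : Finset ℕ) := by
    rintro m ⟨hmX, G, _, _, L, hnil, hcard, hL, hnot⟩
    rw [Finset.coe_union, Set.mem_union, Finset.mem_coe, Finset.mem_coe, mem_filter, mem_filter]
    by_cases h2 : 2 ^ (A + 1) ∣ m
    · exact Or.inr ⟨mem_range.2 hmX, h2⟩
    · refine Or.inl ⟨mem_range.2 hmX, fun p hp hpm => hnot ?_⟩
      obtain ⟨hpp, hpB, hpq⟩ := hS p hp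
      subst hcard
      refine nil_duplex hn L hL A e₀ he₀ G p (e₀ + 1) h2 hpp ?_ hpm (Nat.le_succ _) hpq hpB
      have : 64 * 1 ^ 6 ≤ 64 * (e₀ + 1) ^ 6 :=
        Nat.mul_le_mul_left _ (Nat.pow_le_pow_left (by omega) 6)
      omega
  have h1 := Set.ncard_le_ncard hsub (Finset.finite_toSet _)
  rw [Set.ncard_coe_finset] at h1
  have h1' := h1.trans (Finset.card_union_le _ _)
  have h2 := sieve S (fun p hp => (hS p hp).1) X
  rw [← hM] at h2
  have h3 : Real.exp (- ∑ p ∈ S, (p : ℝ)⁻¹) ≤ ε / 3 := by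
    rw [← Real.exp_log (show (0 : ℝ) < ε / 3 by positivity)]
    exact Real.exp_le_exp.2 (by linarith)
  have h4 : (M : ℝ) + 1 ≤ ε / 3 * X := by
    have h5 : 3 * ((M : ℝ) + 1) / ε ≤ X := hX₀.trans (by exact_mod_cast hX)
    rw [div_le_iff₀ hε] at h5
    linarith
  have h6 : (X : ℝ) * Real.exp (- ∑ p ∈ S, (p : ℝ)⁻¹) ≤ X * (ε / 3) :=
    mul_le_mul_of_nonneg_left h3 (by positivity)
  have h8 : (((range X).filter (fun m => 2 ^ (A + 1) ∣ m)).card : ℝ) ≤ X * (ε / 3) + 1 := by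
    have h9 := multiples (2 ^ (A + 1)) X
    have h10 : (((range X).filter (fun m => 2 ^ (A + 1) ∣ m)).card : ℝ)
        ≤ ((X / 2 ^ (A + 1) : ℕ) : ℝ) + 1 := by exact_mod_cast h9
    have h11 : ((X / 2 ^ (A + 1) : ℕ) : ℝ) ≤ (X : ℝ) / ((2 ^ (A + 1) : ℕ) : ℝ) := Nat.cast_div_le
    have h12 : (X : ℝ) / ((2 ^ (A + 1) : ℕ) : ℝ) ≤ X * (ε / 3) := by
      rw [div_eq_mul_inv]
      refine mul_le_mul_of_nonneg_left ?_ (by positivity)
      have h13 : (((2 ^ (A + 1) : ℕ) : ℝ))⁻¹ ≤ (1 / 2 : ℝ) ^ A := by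
        push_cast
        rw [one_div, inv_pow]
        refine inv_anti₀ (by positivity) ?_
        exact pow_le_pow_right₀ (by norm_num) (Nat.le_succ A)
      linarith
    linarith
  have h7 := (Nat.cast_le (α := ℝ)).2 h1'
  push_cast at h7
  refine h7.trans ?_
  linarith

/-- Affine extensions by abelian groups of large rank. -/
theorem affine_duplex (n : ℕ) (hn : 2 ≤ n) : ∃ m₀ : ℕ, ∀ L : Fin n → Fin n → Fin n, IsLatin L →
    ∀ (G : Type) [AddCommGroup G] [Finite G] (a b : Fin n → Fin n → ℕ) (θ : Fin n → Fin n → G),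
      Odd (Nat.card G) → (∀ i j, (Nat.card G).Coprime (a i j)) →
      (∀ i j, (Nat.card G).Coprime (b i j)) → m₀ * AddMonoid.exponent G ≤ Nat.card G →
      HasDuplex (fun r c : Fin n × G =>
        (L r.1 c.1, a r.1 c.1 • r.2 + b r.1 c.1 • c.2 + θ r.1 c.1)) := by
  classical
  obtain ⟨m₀, hm₀⟩ := TH964.HP.main (n * 2)
  refine ⟨m₀, fun L hL G _ _ a b θ hodd ha hb hG => ?_⟩
  obtain ⟨f, ν, M, hM, hMO, hMν⟩ := exists_ext hn L hL
  have h3 := ((hm₀ M hM).2.out 0 2).1 hMO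
  have hdec := h3 G (fun i j => a (ν.symm i).1 (ν.symm j).1) (fun i j => b (ν.symm i).1 (ν.symm j).1)
    (fun i j => θ (ν.symm i).1 (ν.symm j).1) hodd (fun i j => ha _ _) (fun i j => hb _ _) hG
  have hT := hasTransversal_of_decomposes _ (Equiv.refl _) (Equiv.refl _) hdec
  refine duplex_of_twist _ (fun r c => f r.1 c.1) ?_
  let E : (Fin n × G) × ZMod 2 ≃ Fin (n * 2) × G :=
    ⟨fun z => (ν (z.1.1, z.2), z.1.2), fun w => (((ν.symm w.1).1, w.2), (ν.symm w.1).2),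
      fun z => by simp, fun w => by simp⟩
  refine hasTransversal_iso _ _ E E E ?_ hT
  rintro ⟨⟨i, x⟩, ε⟩ ⟨⟨j, y⟩, δ⟩
  refine Prod.ext (hMν (i, ε) (j, δ)).symm ?_
  simp [E, twist]

/-- Groups with a normal subgroup isomorphic to the additive group of a finite field. -/
theorem group_duplex (n : ℕ) (hn : 2 ≤ n) : ∃ e₀ : ℕ, ∀ L : Fin n → Fin n → Fin n, IsLatin L →
    ∀ (F G : Type) [Field F] [Finite F] [Group G] [Finite G] (N : Subgroup G) [N.Normal] (e : ℕ),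
      Nonempty (N ≃* Multiplicative F) → e₀ ≤ e → e ∣ Nat.card F - 1 → 64 * e ^ 6 < Nat.card F →
      HasTransversal (fun x y : G ⧸ N => x * y) →
      HasDuplex (fun r c : Fin n × G => (L r.1 c.1, r.2 * c.2)) := by
  obtain ⟨e₀, he₀⟩ := (main'' (n * 2)).2.2
  refine ⟨e₀, fun L hL F G _ _ _ _ N _ e hφ he h1 h2 hQ => ?_⟩
  obtain ⟨f, ν, M, hM, hMO, hMν⟩ := exists_ext hn L hL
  have hT := (he₀ M hM F G N e hφ he h1 h2).1 hQ hMO
  refine duplex_of_twist _ (fun r c => f r.1 c.1) ?_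
  let E : (Fin n × G) × ZMod 2 ≃ Fin (n * 2) × G :=
    ⟨fun z => (ν (z.1.1, z.2), z.1.2), fun w => (((ν.symm w.1).1, w.2), (ν.symm w.1).2),
      fun z => by simp, fun w => by simp⟩
  refine hasTransversal_iso _ _ E E E ?_ hT
  rintro ⟨⟨i, x⟩, ε⟩ ⟨⟨j, y⟩, δ⟩
  exact Prod.ext (hMν (i, ε) (j, δ)).symm rfl

end TH964.FP
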