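import Pool.Agent.TH964.FP.Even

set_option autoImplicit false

/-! Duplexes from transversals of extensions by the group of order two. -/

namespace TH964.FP

open Finset TH964.HP

/-- `D` is a duplex of `P`: a set of cells with exactly two cells in every row, in every column and
on every symbol. -/
def IsDuplex {R C S : Type} (P : R → C → S) (D : Set (R × C)) : Prop :=
  (∀ r, {x ∈ D | x.1 = r}.ncard = 2) ∧ (∀ c, {x ∈ D | x.2 = c}.ncard = 2) ∧
    ∀ k, {x ∈ D | P x.1 x.2 = k}.ncard = 2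

/-- `P` has a duplex. -/
def HasDuplex {R C S : Type} (P : R → C → S) : Prop := ∃ D, IsDuplex P D

/-- The extension of `P` by the group of order two with cocycle `f`. -/
def twist {R C S : Type} (P : R → C → S) (f : R → C → ZMod 2) :
    R × ZMod 2 → C × ZMod 2 → S × ZMod 2 :=
  fun r c => (P r.1 c.1, r.2 + c.2 + f r.1 c.1)

theorem ncard_fibre {X Y : Type} (τ : X → Y × ZMod 2) (hτ : Function.Bijective τ) (y : Y) :
    {z | (τ z).1 = y}.ncard = 2 := by
  let e := Equiv.ofBijective τ hτ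
  have : {z | (τ z).1 = y} = e.symm '' (Set.range (fun ε : ZMod 2 => (y, ε))) := by
    ext z
    constructor
    · intro hz
      exact ⟨τ z, ⟨(τ z).2, Prod.ext hz.symm rfl⟩, e.symm_apply_apply z⟩
    · rintro ⟨_, ⟨ε, rfl⟩, rfl⟩
      show (τ (e.symm (y, ε))).1 = y
      rw [show τ (e.symm (y, ε)) = (y, ε) from e.apply_symm_apply _]
  rw [this, Set.ncard_image_of_injective _ e.symm.injective, ← Set.image_univ,
    Set.ncard_image_of_injective, Set.ncard_univ, Nat.card_zmod]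
  intro a b h
  exact congrArg Prod.snd h

theorem two_aux : ∀ a b c d : ZMod 2, a ≠ b → c ≠ d → a + c = b + d := by decide

theorem duplex_of_twist {R C S : Type} (P : R → C → S) (f : R → C → ZMod 2)
    (h : HasTransversal (twist P f)) : HasDuplex P := by
  obtain ⟨σ, hσ⟩ := h
  obtain ⟨q, hqd⟩ : ∃ q : R × ZMod 2 → R × C, ∀ z, q z = (z.1, (σ z).1) := ⟨_, fun _ => rfl⟩
  have hq : Function.Injective q := by
    rintro ⟨r, ε⟩ ⟨r', ε'⟩ h
    rw [hqd, hqd] at h
    simp only [Prod.mk.injEq] at h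
    obtain ⟨rfl, hc⟩ := h
    by_contra hne
    have hε : ε ≠ ε' := fun h => hne (by rw [h])
    have hδ : (σ (r, ε)).2 ≠ (σ (r, ε')).2 := fun h => hne (σ.injective (Prod.ext hc h))
    apply hne
    apply hσ.1
    simp only [twist, hc]
    rw [two_aux _ _ _ _ hε hδ]
  have key : ∀ (p : R × C → Prop), {x ∈ Set.range q | p x}.ncard = {z | p (q z)}.ncard := by
    intro p
    have : {x ∈ Set.range q | p x} = q '' {z | p (q z)} := by
      ext x
      constructor
      · rintro ⟨⟨z, rfl⟩, hz⟩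
        exact ⟨z, hz, rfl⟩
      · rintro ⟨z, hz, rfl⟩
        exact ⟨⟨z, rfl⟩, hz⟩
    rw [this, Set.ncard_image_of_injective _ hq]
  refine ⟨Set.range q, fun r => ?_, fun c => ?_, fun k => ?_⟩
  · rw [key (fun x => x.1 = r)]
    simp only [hqd]
    exact ncard_fibre id Function.bijective_id r
  · rw [key (fun x => x.2 = c)]
    simp only [hqd]
    exact ncard_fibre σ σ.bijective c
  · rw [key (fun x => P x.1 x.2 = k)]
    simp only [hqd]
    exact ncard_fibre (fun z => twist P f z (σ z)) hσ k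

theorem twist_isLatin {R C S : Type} (P : R → C → S) (hP : IsLatin P) (f : R → C → ZMod 2) :
    IsLatin (twist P f) := by
  constructor
  · rintro ⟨r, ε⟩
    refine ⟨?_, ?_⟩
    · rintro ⟨c, δ⟩ ⟨c', δ'⟩ h
      simp only [twist, Prod.mk.injEq] at h
      obtain ⟨h1, h2⟩ := h
      have := (hP.1 r).1 h1
      subst this
      exact Prod.ext rfl (add_left_cancel (add_right_cancel h2))
    · rintro ⟨k, η⟩
      obtain ⟨c, hc⟩ := (hP.1 r).2 k
      refine ⟨(c, η - f r c - ε), Prod.ext hc ?_⟩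
      show ε + (η - f r c - ε) + f r c = η
      abel
  · rintro ⟨c, δ⟩
    refine ⟨?_, ?_⟩
    · rintro ⟨r, ε⟩ ⟨r', ε'⟩ h
      simp only [twist, Prod.mk.injEq] at h
      obtain ⟨h1, h2⟩ := h
      have := (hP.2 c).1 h1
      subst this
      exact Prod.ext rfl (add_right_cancel (add_right_cancel h2))
    · rintro ⟨k, η⟩
      obtain ⟨r, hr⟩ := (hP.2 c).2 k
      refine ⟨(r, η - f r c - δ), Prod.ext hr ?_⟩
      show (η - f r c - δ) + δ + f r c = η
      abel

theorem odd_no_hom {N : ℕ} (hN : Odd N) (L : Fin N → Fin N → Fin N) (hL : IsLatin L)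
    (α β γ : Fin N × ZMod 2 → ZMod 2) (hα : Function.Surjective α) (r0 c0 c1 : Fin N)
    (hc : c1 ≠ c0)
    (H : ∀ r c, α r + β c = γ (twist L (fun r c => if r = r0 ∧ c = c0 then 1 else 0) r c)) :
    False := by
  classical
  have hN1 : ((N : ℕ) : ZMod 2) = 1 := by
    obtain ⟨k, rfl⟩ := hN
    push_cast
    rw [show (2 : ZMod 2) = 0 by decide]
    ring
  have h2 : ∀ x : ZMod 2, x + x = 0 := by decide
  have hcase : ∀ x : ZMod 2, x = 0 ∨ x = 1 := by decide
  have H' : ∀ (r c : Fin N) (ε δ : ZMod 2), α (r, ε) + β (c, δ)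
      = γ (L r c, ε + δ + if r = r0 ∧ c = c0 then 1 else 0) := fun r c ε δ => H (r, ε) (c, δ)
  obtain ⟨h, hh⟩ : ∃ h, h = β (c0, 1) + β (c0, 0) := ⟨_, rfl⟩
  have ha : ∀ r, α (r, 1) = α (r, 0) + h := by
    intro r
    have e1 := H' r c0 1 0
    have e2 := H' r c0 0 1
    rw [add_zero] at e1
    rw [zero_add] at e2
    rw [← e2] at e1
    have : α (r, 1) = α (r, 1) + β (c0, 0) + β (c0, 0) := by rw [add_assoc, h2, add_zero]
    rw [this, e1, hh, add_assoc]
  have hg : ∀ k, γ (k, 1) = γ (k, 0) + h := by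
    intro k
    obtain ⟨c, rfl⟩ := (hL.1 r0).2 k
    have e1 := H' r0 c 1 0
    have e2 := H' r0 c 0 0
    rw [ha] at e1
    by_cases hcc : c = c0
    · subst hcc
      simp only [and_self, if_true] at e1 e2
      rw [show (1 + 0 + 1 : ZMod 2) = 0 by decide] at e1
      rw [show (0 + 0 + 1 : ZMod 2) = 1 by decide] at e2
      rw [← e1, ← e2]
      have : α (r0, 0) + h + β (c, 0) + h = α (r0, 0) + β (c, 0) + (h + h) := by ring
      rw [this, h2, add_zero]
    · rw [if_neg (fun h => hcc h.2)] at e1 e2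
      rw [show (1 + 0 + 0 : ZMod 2) = 1 by decide] at e1
      rw [show (0 + 0 + 0 : ZMod 2) = 0 by decide] at e2
      rw [← e1, ← e2]
      ring
  have H0 : ∀ r c, α (r, 0) + β (c, 0)
      = γ (L r c, 0) + if r = r0 ∧ c = c0 then h else 0 := by
    intro r c
    rw [H' r c 0 0]
    split_ifs
    · rw [show (0 + 0 + 1 : ZMod 2) = 1 by decide, hg]
    · rw [show (0 + 0 + 0 : ZMod 2) = 0 by decide, add_zero]
  have hsum : ∀ x : ZMod 2, ∑ _c : Fin N, x = x := by
    intro x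
    rw [Finset.sum_const, Finset.card_univ, Fintype.card_fin, nsmul_eq_mul, hN1, one_mul]
  have hrow : ∀ r, α (r, 0) + ∑ c, β (c, 0) = ∑ k, γ (k, 0) + if r = r0 then h else 0 := by
    intro r
    have e1 : ∑ c, (α (r, 0) + β (c, 0))
        = ∑ c, (γ (L r c, 0) + if r = r0 ∧ c = c0 then h else 0) :=
      Finset.sum_congr rfl (fun c _ => H0 r c)
    rw [Finset.sum_add_distrib, Finset.sum_add_distrib, hsum] at e1
    rw [e1]
    congr 1
    · exact (Equiv.ofBijective _ (hL.1 r)).sum_comp (fun k => γ (k, 0))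
    · by_cases hr : r = r0
      · simp [hr]
      · simp [hr]
  have hcol : ∑ r, α (r, 0) + β (c1, 0) = ∑ k, γ (k, 0) := by
    have e1 : ∑ r, (α (r, 0) + β (c1, 0))
        = ∑ r, (γ (L r c1, 0) + if r = r0 ∧ c1 = c0 then h else 0) :=
      Finset.sum_congr rfl (fun r _ => H0 r c1)
    rw [Finset.sum_add_distrib, Finset.sum_add_distrib, hsum] at e1
    rw [e1]
    have e2 : ∑ r : Fin N, (if r = r0 ∧ c1 = c0 then h else 0) = 0 :=
      Finset.sum_eq_zero (fun r _ => if_neg (fun h => hc h.2))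
    rw [e2, add_zero]
    exact (Equiv.ofBijective _ (hL.2 c1)).sum_comp (fun k => γ (k, 0))
  have hsym : ∑ r, α (r, 0) + ∑ c, β (c, 0) = γ (L r0 c1, 0) := by
    obtain ⟨g, hg'⟩ : ∃ g : Fin N → Fin N, ∀ r, L r (g r) = L r0 c1 :=
      ⟨fun r => (Equiv.ofBijective _ (hL.1 r)).symm (L r0 c1),
        fun r => (Equiv.ofBijective _ (hL.1 r)).apply_symm_apply _⟩
    have hgi : Function.Injective g := by
      intro r r' hrr
      have e1 := hg' r
      rw [hrr, ← hg' r'] at e1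
      exact (hL.2 (g r')).1 e1
    have hgb : Function.Bijective g := (Finite.injective_iff_bijective).1 hgi
    have hg0 : g r0 = c1 := (hL.1 r0).1 (hg' r0)
    have e1 : ∑ r, (α (r, 0) + β (g r, 0))
        = ∑ r, (γ (L r (g r), 0) + if r = r0 ∧ g r = c0 then h else 0) :=
      Finset.sum_congr rfl (fun r _ => H0 r (g r))
    rw [Finset.sum_add_distrib, Finset.sum_add_distrib] at e1
    have e2 : ∑ r : Fin N, (if r = r0 ∧ g r = c0 then h else 0) = 0 := by
      refine Finset.sum_eq_zero (fun r _ => if_neg ?_)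
      rintro ⟨rfl, h2⟩
      exact hc (hg0.symm.trans h2)
    have e3 : ∑ r, β (g r, 0) = ∑ c, β (c, 0) :=
      (Equiv.ofBijective g hgb).sum_comp (fun c => β (c, 0))
    simp only [hg'] at e1
    rw [e2, e3, hsum, add_zero] at e1
    exact e1
  have h0 : h = 0 := by
    have e1 := hrow r0
    rw [if_pos rfl] at e1
    have e2 := H0 r0 c1
    rw [if_neg (fun h => hc h.2), add_zero] at e2
    have e3 : (α (r0, 0) + ∑ c, β (c, 0)) + (∑ r, α (r, 0) + β (c1, 0))
        = (α (r0, 0) + β (c1, 0)) + (∑ r, α (r, 0) + ∑ c, β (c, 0)) := by ring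
    rw [e1, hcol, e2, hsym, h2] at e3
    have e4 : ∑ k, γ (k, 0) + h + ∑ k, γ (k, 0) = (∑ k, γ (k, 0) + ∑ k, γ (k, 0)) + h := by ring
    rw [e4, h2, zero_add] at e3
    exact e3
  have hconst : ∀ z, α z = ∑ k, γ (k, 0) + ∑ c, β (c, 0) := by
    have e0 : ∀ r, α (r, 0) = ∑ k, γ (k, 0) + ∑ c, β (c, 0) := by
      intro r
      have e1 := hrow r
      rw [h0] at e1
      simp only [ite_self, add_zero] at e1
      rw [← e1, add_assoc, h2, add_zero]
    rintro ⟨r, ε⟩
    rcases hcase ε with rfl | rfl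
    · exact e0 r
    · rw [ha, h0, add_zero]
      exact e0 r
  obtain ⟨z, hz⟩ := hα (∑ k, γ (k, 0) + ∑ c, β (c, 0) + 1)
  rw [hconst z] at hz
  have := add_left_cancel (a := ∑ k, γ (k, 0) + ∑ c, β (c, 0)) (b := 0) (c := 1)
    (by rw [add_zero]; exact hz)
  exact absurd this (by decide)

theorem even_no_hom {N : ℕ} (hN : Even N) (L : Fin N → Fin N → Fin N) (hL : IsLatin L)
    (r0 : Fin N) (s t : ℕ) (ht : Odd t) (hNs : N * 2 = 2 ^ s * t)
    (α β γ : Fin N × ZMod 2 → ZMod (2 ^ s)) (hα : Function.Surjective α)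
    (H : ∀ r c, α r + β c = γ (twist L (fun _ _ => 0) r c)) : False := by
  classical
  have H' : ∀ (r c : Fin N) (ε δ : ZMod 2), α (r, ε) + β (c, δ) = γ (L r c, ε + δ) := by
    intro r c ε δ
    rw [H]
    simp [twist]
  obtain ⟨h, hh⟩ : ∃ h, h = β (r0, 1) - β (r0, 0) := ⟨_, rfl⟩
  have ha : ∀ r, α (r, 1) = α (r, 0) + h := by
    intro r
    have e1 := H' r r0 1 0
    have e2 := H' r r0 0 1
    rw [add_comm (1 : ZMod 2) 0, ← e2] at e1
    rw [hh, ← add_sub_assoc, ← e1, add_sub_cancel_right]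
  have hh2 : h + h = 0 := by
    have e1 := H' r0 r0 1 1
    have e2 := H' r0 r0 0 0
    rw [show (1 + 1 : ZMod 2) = 0 + 0 by decide, ← e2, ha] at e1
    have e3 : β (r0, 1) = β (r0, 0) + h := by rw [hh]; abel
    rw [e3] at e1
    have e4 : α (r0, 0) + h + (β (r0, 0) + h) = (α (r0, 0) + β (r0, 0)) + (h + h) := by abel
    rw [e4] at e1
    simpa using e1
  have hL' : ∀ i j, (α (i, 0) - α (r0, 0)) + (β (j, 0) - β (r0, 0))
      = γ (L i j, 0) - α (r0, 0) - β (r0, 0) := by
    intro i j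
    have := H' i j 0 0
    rw [add_zero] at this
    rw [← this]; abel
  obtain ⟨f, hf1, -, -, hf4⟩ := core L hL (fun i => α (i, 0) - α (r0, 0))
    (fun j => β (j, 0) - β (r0, 0)) (fun k => γ (k, 0) - α (r0, 0) - β (r0, 0)) hL' r0 r0
    (sub_self _) (sub_self _)
  have hr := ranges L hL (fun i => α (i, 0) - α (r0, 0))
    (fun j => β (j, 0) - β (r0, 0)) (fun k => γ (k, 0) - α (r0, 0) - β (r0, 0)) hL' r0 r0
    (sub_self _) (sub_self _)
  rw [Fintype.card_fin] at hf1
  have hkill : ∀ i, N • (α (i, 0) - α (r0, 0)) = 0 := by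
    intro i
    obtain ⟨j, hj⟩ := (hr _).1 ⟨i, rfl⟩
    have e1 := congrArg (fun m : ℕ => m • (β (j, 0) - β (r0, 0))) hf1
    rw [mul_smul, hf4 _ (mem_image.2 ⟨j, mem_univ _, rfl⟩), smul_zero] at e1
    rw [← hj, ← e1]
  have hNh : N • h = 0 := by
    obtain ⟨k, hk⟩ := hN
    rw [hk, add_smul, ← smul_add, hh2, smul_zero]
  have hall : ∀ z, N • (α z - α (r0, 0)) = 0 := by
    have hcase : ∀ x : ZMod 2, x = 0 ∨ x = 1 := by decide
    rintro ⟨r, ε⟩
    rcases hcase ε with rfl | rfl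
    · exact hkill r
    · rw [ha, add_sub_right_comm, smul_add, hkill, hNh, add_zero]
  obtain ⟨z, hz⟩ := hα (α (r0, 0) + 1)
  have h1 := hall z
  rw [hz, add_sub_cancel_left, nsmul_eq_mul, mul_one, ZMod.natCast_eq_zero_iff] at h1
  obtain ⟨u, hu⟩ := h1
  have hpos : 0 < 2 ^ s := by positivity
  have : u * 2 = t := by
    have : 2 ^ s * (u * 2) = 2 ^ s * t := by rw [← hNs, hu]; ring
    exact Nat.eq_of_mul_eq_mul_left hpos this
  rw [← this] at ht
  exact (Nat.not_even_iff_odd.2 ht) (even_two.mul_left u)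

theorem exists_twist {N : ℕ} (hN : 2 ≤ N) (L : Fin N → Fin N → Fin N) (hL : IsLatin L) :
    ∃ f, ¬ Obstructed (N * 2) (twist L f) := by
  classical
  let r0 : Fin N := ⟨0, by omega⟩
  let c1 : Fin N := ⟨1, by omega⟩
  have hc : c1 ≠ r0 := fun h => Nat.one_ne_zero (congrArg Fin.val h)
  rcases Nat.even_or_odd N with he | ho
  · refine ⟨fun _ _ => 0, ?_⟩
    rintro ⟨s, t, hs, ht, hn, α, β, γ, hα, hh⟩
    exact even_no_hom he L hL r0 s t ht hn α β γ hα hh
  · refine ⟨fun r c => if r = r0 ∧ c = r0 then 1 else 0, ?_⟩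
    rintro ⟨s, t, hs, ht, hn, α, β, γ, hα, hh⟩
    have hs1 : s = 1 := by
      by_contra hne
      obtain ⟨k, rfl⟩ : ∃ k, s = k + 2 := ⟨s - 2, by omega⟩
      have h4 : N = 2 * (2 ^ k * t) := by
        have : N * 2 = 2 * (2 ^ k * t) * 2 := by rw [hn]; ring
        omega
      rw [h4] at ho
      exact (Nat.not_even_iff_odd.2 ho) (even_two_mul _)
    subst hs1
    exact odd_no_hom ho L hL α β γ hα r0 r0 c1 hc hh

end TH964.FP
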