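import Pool.Agent.TH964.FP.Cells
import Pool.Agent.TH964.HP.Main

set_option autoImplicit false

/-! Enumerations from integral weights. -/

namespace TH964.FP

open Finset TH964.HP

theorem card_sigma_fibre {X : Type} [Fintype X] [DecidableEq X] (N : X → ℕ) {K : Type}
    [DecidableEq K] (κ : X → K) (k : K) :
    Fintype.card {x : Σ c, Fin (N c) // κ x.1 = k} = ∑ c, if κ c = k then N c else 0 := by
  rw [Fintype.card_congr (Equiv.subtypeSigmaEquiv (fun c => Fin (N c)) (fun c => κ c = k)),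
    Fintype.card_sigma]
  simp only [Fintype.card_fin]
  rw [← Finset.sum_filter]
  symm
  exact Finset.sum_subtype (univ.filter (fun c => κ c = k)) (by simp) N

theorem equiv_over {n : ℕ} (pc nc : Fin n × Fin n → ℕ) (κ : Fin n × Fin n → Fin n)
    (h : ∀ k, ∑ c, (if κ c = k then pc c else 0) = 1 + ∑ c, (if κ c = k then nc c else 0)) :
    ∃ φ : (Σ c, Fin (pc c)) ≃ Fin n ⊕ (Σ c, Fin (nc c)),
      ∀ x, κ x.1 = Sum.elim id (fun y => κ y.1) (φ x) := by
  have hc : ∀ k, Nonempty ({x : Σ c, Fin (pc c) // κ x.1 = k}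
      ≃ {y : Fin n ⊕ (Σ c, Fin (nc c)) // Sum.elim id (fun y => κ y.1) y = k}) := by
    intro k
    refine ⟨Fintype.equivOfCardEq ?_⟩
    rw [card_sigma_fibre, h k, Fintype.card_congr (Equiv.subtypeSum), Fintype.card_sum]
    congr 1
    · exact (Fintype.card_eq_one_iff.2 ⟨⟨k, rfl⟩, fun y => Subtype.ext y.2⟩).symm
    · exact (card_sigma_fibre nc κ k).symm
  refine ⟨Equiv.ofFiberEquiv (f := fun x : (Σ c, Fin (pc c)) => κ x.1)
    (g := Sum.elim id (fun y : (Σ c, Fin (nc c)) => κ y.1)) (fun k => (hc k).some),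
    fun x => ?_⟩
  exact (Equiv.ofFiberEquiv_map (f := fun x : (Σ c, Fin (pc c)) => κ x.1)
    (g := Sum.elim id (fun y : (Σ c, Fin (nc c)) => κ y.1)) (fun k => (hc k).some) x).symm

theorem enum_with {X : Type} [Fintype X] (x : X) (m : ℕ) (hm : m < Fintype.card X) :
    ∃ e : X ≃ Fin (Fintype.card X), (e x : ℕ) = m := by
  classical
  let e0 := Fintype.equivFin X
  exact ⟨e0.trans (Equiv.swap (e0 x) ⟨m, hm⟩), by simp⟩

theorem exists_structure {n : ℕ} (hn : 0 < n) (L : Fin n → Fin n → Fin n)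
    (w : Fin n × Fin n → ℤ) (hw : ∀ s k, ∑ c, (if kap L s c = k then w c else 0) = 1) :
    ∃ (P Q : ℕ) (cp : Fin P → Fin n × Fin n) (cn : Fin Q → Fin n × Fin n)
      (ρ : Fin 3 → (Fin P ≃ Fin n ⊕ Fin Q)), 3 ≤ P + Q ∧
      (∀ s a, kap L s (cp a) = Sum.elim id (fun f => kap L s (cn f)) (ρ s a)) ∧
      (∀ a : Fin P, (a : ℕ) = 0 → ∃ z, ρ 2 a = Sum.inl z) ∧
      (∀ (a : Fin P) (f : Fin Q), (a : ℕ) = 0 → (f : ℕ) + 1 = Q → ρ 1 a ≠ Sum.inr f) := by
  classical
  obtain ⟨nc, hnc⟩ : ∃ nc : Fin n × Fin n → ℕ, nc = fun c => (w c).natAbs + 2 := ⟨_, rfl⟩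
  obtain ⟨pc, hpc⟩ : ∃ pc : Fin n × Fin n → ℕ, pc = fun c => ((nc c : ℤ) + w c).toNat := ⟨_, rfl⟩
  have hp : ∀ c, (pc c : ℤ) = nc c + w c := by
    intro c
    rw [hpc]
    refine Int.toNat_of_nonneg ?_
    rw [hnc]
    have := neg_abs_le (w c)
    rw [Int.abs_eq_natAbs] at this
    push_cast at this ⊢
    omega
  have hcount : ∀ s k, ∑ c, (if kap L s c = k then pc c else 0)
      = 1 + ∑ c, (if kap L s c = k then nc c else 0) := by
    intro s k
    zify
    rw [← hw s k, ← Finset.sum_add_distrib]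
    refine Finset.sum_congr rfl (fun c _ => ?_)
    split_ifs
    · rw [hp]; ring
    · ring
  have hφ := fun s => equiv_over pc nc (kap L s) (hcount s)
  choose φ hφ using hφ
  let POS := Σ c, Fin (pc c)
  let NEG := Σ c, Fin (nc c)
  let c₀ : Fin n × Fin n := (⟨0, hn⟩, ⟨0, hn⟩)
  let a₀ : POS := (φ 2).symm (Sum.inl ⟨0, hn⟩)
  have hn2 : 1 < nc c₀ := by rw [hnc]; simp only; omega
  let n0 : NEG := ⟨c₀, ⟨0, by omega⟩⟩
  let n1 : NEG := ⟨c₀, ⟨1, hn2⟩⟩
  have hn01 : n0 ≠ n1 := by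
    intro h
    have := Sigma.mk.inj_iff.1 h
    have h2 := eq_of_heq this.2
    have h3 := congrArg Fin.val h2
    simp at h3
  obtain ⟨f₁, hf₁⟩ : ∃ f₁ : NEG, φ 1 a₀ ≠ Sum.inr f₁ := by
    by_contra hno
    push Not at hno
    have h1 := hno n0
    rw [hno n1] at h1
    exact hn01 (Sum.inr_injective h1).symm
  have hP0 : 0 < Fintype.card POS := Fintype.card_pos_iff.2 ⟨a₀⟩
  have hQ2 : 2 ≤ Fintype.card NEG := by
    have : Nontrivial NEG := ⟨⟨n0, n1, hn01⟩⟩
    exact Fintype.one_lt_card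
  obtain ⟨eP, heP⟩ := enum_with a₀ 0 hP0
  obtain ⟨eQ, heQ⟩ := enum_with f₁ (Fintype.card NEG - 1) (by omega)
  refine ⟨Fintype.card POS, Fintype.card NEG, fun a => (eP.symm a).1, fun f => (eQ.symm f).1,
    fun s => eP.symm.trans ((φ s).trans (Equiv.sumCongr (Equiv.refl _) eQ)), by omega, ?_, ?_, ?_⟩
  · intro s a
    rw [hφ]
    simp only [Equiv.trans_apply]
    rcases (φ s) (eP.symm a) with z | f
    · simp
    · simp
  · intro a ha
    have : eP.symm a = a₀ := by
      rw [Equiv.symm_apply_eq]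
      exact Fin.ext (by rw [ha, heP])
    refine ⟨⟨0, hn⟩, ?_⟩
    simp only [Equiv.trans_apply, this]
    have h2 : φ 2 a₀ = Sum.inl ⟨0, hn⟩ := (φ 2).apply_symm_apply _
    rw [h2]
    rfl
  · intro a f ha hf h
    have h1 : eP.symm a = a₀ := by
      rw [Equiv.symm_apply_eq]
      exact Fin.ext (by rw [ha, heP])
    have h2 : eQ f₁ = f := Fin.ext (by rw [heQ]; omega)
    simp only [Equiv.trans_apply, h1] at h
    apply hf₁
    rcases hh : φ 1 a₀ with z | g
    · rw [hh] at h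
      simp at h
    · rw [hh] at h
      simp only [Equiv.sumCongr_apply, Sum.map_inr, Sum.inr.injEq] at h
      rw [← h2] at h
      rw [eQ.injective h]

theorem kap_one {n : ℕ} (L : Fin n → Fin n → Fin n) (hL : IsLatin L) (s : Fin 3) (k : Fin n)
    (x : ℤ) : ∑ c, (if kap L s c = k then x else 0) = n * x := by
  classical
  match s with
  | 0 =>
    rw [Fintype.sum_prod_type]
    show ∑ i, ∑ j : Fin n, (if i = k then x else 0) = n * x
    simp [Finset.sum_ite_eq']
  | 1 =>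
    rw [Fintype.sum_prod_type]
    show ∑ i : Fin n, ∑ j : Fin n, (if j = k then x else 0) = n * x
    simp
  | 2 =>
    rw [Fintype.sum_prod_type]
    exact cells_symbol L hL k x

theorem kap_weights {n : ℕ} (L : Fin n → Fin n → Fin n) (w : Fin n → Fin n → ℤ)
    (hw : lineSums L w = (1, 1, 1)) (s : Fin 3) (k : Fin n) :
    ∑ c : Fin n × Fin n, (if kap L s c = k then w c.1 c.2 else 0) = 1 := by
  classical
  match s with
  | 0 =>
    rw [Fintype.sum_prod_type, ← show ∑ j, w k j = 1 from congrFun (congrArg Prod.fst hw) k]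
    show ∑ i, ∑ j : Fin n, (if i = k then w i j else 0) = _
    rw [Finset.sum_eq_single k]
    · simp
    · intro b _ hb; simp [hb]
    · simp
  | 1 =>
    rw [Fintype.sum_prod_type, ← show ∑ i, w i k = 1 from congrFun (congrArg (fun x => x.2.1) hw) k]
    show ∑ i, ∑ j : Fin n, (if j = k then w i j else 0) = _
    simp
  | 2 =>
    rw [Fintype.sum_prod_type]
    exact congrFun (congrArg (fun x => x.2.2) hw) k

theorem big_weights {n : ℕ} (hn : 0 < n) (L : Fin n → Fin n → Fin n) (hL : IsLatin L)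
    (w : Fin n × Fin n → ℤ) (hw : ∀ s k, ∑ c, (if kap L s c = k then w c else 0) = 1) (B : ℕ) :
    ∃ m₀ : ℕ, ∀ e ≥ m₀, ∃ W : Fin n × Fin n → ℕ, (∀ c, B ≤ W c) ∧
      ∀ s k, ∑ c, (if kap L s c = k then W c else 0) = e := by
  classical
  obtain ⟨K, hK⟩ : ∃ K : ℕ, ∀ c, |w c| ≤ K := by
    refine ⟨∑ c, (w c).natAbs, fun c => ?_⟩
    have h1 : (w c).natAbs ≤ ∑ c, (w c).natAbs :=
      Finset.single_le_sum (f := fun c => (w c).natAbs) (fun _ _ => Nat.zero_le _) (mem_univ c)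
    rw [Int.abs_eq_natAbs]
    exact_mod_cast h1
  refine ⟨n * (n * K + B) + n, fun e he => ?_⟩
  obtain ⟨t, r, hr, het⟩ : ∃ t r : ℕ, r < n ∧ e = n * t + r :=
    ⟨e / n, e % n, Nat.mod_lt _ hn, (Nat.div_add_mod e n).symm⟩
  have ht : n * K + B ≤ t := by
    by_contra hlt
    push Not at hlt
    have h1 : n * t + r < n * (t + 1) := by rw [mul_add, mul_one]; omega
    have h2 : n * (t + 1) ≤ n * (n * K + B) := Nat.mul_le_mul_left _ hlt
    omega
  obtain ⟨v, hv⟩ : ∃ v : Fin n × Fin n → ℤ, v = fun c => (t : ℤ) + r * w c := ⟨_, rfl⟩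
  have hvB : ∀ c, (B : ℤ) ≤ v c := by
    intro c
    have h1 : |(r : ℤ) * w c| ≤ n * K := by
      rw [abs_mul]
      have h1 : |(r : ℤ)| ≤ n := by
        rw [abs_of_nonneg (by positivity)]
        exact_mod_cast hr.le
      exact mul_le_mul h1 (hK c) (abs_nonneg _) (by positivity)
    have h2 := (abs_le.1 h1).1
    have h3 : (n : ℤ) * K + B ≤ t := by exact_mod_cast ht
    rw [hv]; simp only; linarith
  have hvs : ∀ s k, ∑ c, (if kap L s c = k then v c else 0) = e := by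
    intro s k
    have : ∀ c, (if kap L s c = k then v c else 0)
        = (if kap L s c = k then (t : ℤ) else 0) + r * (if kap L s c = k then w c else 0) := by
      intro c
      rw [hv]
      split_ifs <;> simp
    simp_rw [this, Finset.sum_add_distrib, ← Finset.mul_sum]
    rw [kap_one L hL, hw, het]
    push_cast
    ring
  have hto : ∀ c, ((v c).toNat : ℤ) = v c := fun c =>
    Int.toNat_of_nonneg ((Int.natCast_nonneg B).trans (hvB c))
  refine ⟨fun c => (v c).toNat, fun c => ?_, fun s k => ?_⟩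
  · zify
    rw [hto]
    exact hvB c
  · zify
    simp_rw [hto]
    exact hvs s k

end TH964.FP
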