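import Pool.Agent.TH964.FP.Almost

set_option autoImplicit false

/-! All orders. -/

namespace TH964.FP

open Finset TH964.HP

/-- The delta lemma for a Latin square. -/
theorem transversal_unobstructed {R C S : Type} [Finite R] [Finite C] [Finite S] (P : R → C → S)
    (hP : IsLatin P) (h : HasTransversal P) : ¬ Obstructed (Nat.card C) P := by
  classical
  rintro ⟨s, t, hs, ht, hn, α, β, γ, hα, hh⟩
  have := Fintype.ofFinite R
  have := Fintype.ofFinite C
  have := Fintype.ofFinite S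
  rw [Nat.card_eq_fintype_card] at hn
  have hC : 0 < Fintype.card C := by
    rw [hn]
    have := ht.pos
    positivity
  obtain ⟨j0⟩ := Fintype.card_pos_iff.1 hC
  obtain ⟨σ, hσ⟩ := h
  refine obstructed_total P hP (σ.symm j0) j0 s t hs ht hn α β γ hα hh 1 odd_one ?_
  have e2 : ∑ r : R, β (σ r) = ∑ j, β j := σ.sum_comp β
  have e3 : ∑ r : R, γ (P r (σ r)) = ∑ k, γ k := by
    have := (Equiv.ofBijective _ hσ).sum_comp γ
    simp only [Equiv.ofBijective_apply] at this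
    exact this
  rw [one_smul, ← e2, ← e3, ← Finset.sum_add_distrib, ← Finset.sum_sub_distrib]
  refine Finset.sum_eq_zero (fun r _ => ?_)
  rw [hh]
  exact sub_self _

theorem prod_isLatin {n : ℕ} (L : Fin n → Fin n → Fin n) (hL : IsLatin L) (G : Type) [Group G] :
    IsLatin (fun r c : Fin n × G => (L r.1 c.1, r.2 * c.2)) := by
  constructor
  · intro r
    exact ((Equiv.ofBijective _ (hL.1 r.1)).prodCongr (Equiv.mulLeft r.2)).bijective
  · intro c
    exact ((Equiv.ofBijective _ (hL.2 c.1)).prodCongr (Equiv.mulRight c.2)).bijective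

/-- Splitting off the Sylow 2-subgroup. -/
theorem split_two (G : Type) [Group G] [Finite G] [Group.IsNilpotent G] :
    ∃ (K B : Type) (_ : Group K) (_ : Group B) (_ : Finite K) (_ : Finite B),
      Nonempty (G ≃* K × B) ∧ (∃ a, Nat.card K = 2 ^ a) ∧ Odd (Nat.card B) ∧
      Group.IsNilpotent B := by
  classical
  obtain ⟨e⟩ := ((Group.isNilpotent_of_finite_tfae (G := G)).out 0 4 rfl rfl).1 inferInstance
  let β : (Nat.card G).primeFactors → Type := fun p => ∀ P : Sylow p G, (↑P : Subgroup G)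
  let K := ∀ p : {p : (Nat.card G).primeFactors // (p : ℕ) = 2}, β p
  let B := ∀ p : {p : (Nat.card G).primeFactors // ¬ (p : ℕ) = 2}, β p
  let f : (∀ p, β p) ≃* K × B :=
    { Equiv.piEquivPiSubtypeProd (fun p : (Nat.card G).primeFactors => (p : ℕ) = 2) β with
      map_mul' := fun _ _ => rfl }
  have hpow : ∀ p : (Nat.card G).primeFactors, ∀ P : Sylow p G, ∃ k, Nat.card P = (p : ℕ) ^ k := by
    intro p P
    have : Fact (Nat.Prime ↑p) := Fact.mk <| Nat.prime_of_mem_primeFactors p.2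
    exact IsPGroup.iff_card.1 P.isPGroup'
  have hfin : ∀ p : (Nat.card G).primeFactors, Fintype (Sylow p G) := fun p => Fintype.ofFinite _
  have hf : G ≃* K × B := e.symm.trans f
  refine ⟨K, B, inferInstance, inferInstance, inferInstance, inferInstance, ⟨hf⟩, ?_, ?_, ?_⟩
  · have h1 : ∀ p : {p : (Nat.card G).primeFactors // (p : ℕ) = 2}, ∃ k, Nat.card (β p) = 2 ^ k := by
      rintro ⟨p, hp⟩
      have h2 : ∀ P : Sylow p G, ∃ k, Nat.card P = 2 ^ k := by
        intro P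
        obtain ⟨k, hk⟩ := hpow p P
        exact ⟨k, by rw [hk]; congr 1⟩
      choose k hk using h2
      refine ⟨∑ P, k P, ?_⟩
      rw [← Finset.prod_pow_eq_pow_sum]
      show Nat.card (∀ P : Sylow p G, (↑P : Subgroup G)) = _
      rw [Nat.card_pi]
      exact Finset.prod_congr rfl (fun P _ => hk P)
    choose k hk using h1
    refine ⟨∑ p, k p, ?_⟩
    rw [← Finset.prod_pow_eq_pow_sum]
    show Nat.card (∀ p : {p : (Nat.card G).primeFactors // (p : ℕ) = 2}, β p) = _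
    rw [Nat.card_pi]
    exact Finset.prod_congr rfl (fun P _ => hk P)
  · show Odd (Nat.card (∀ p : {p : (Nat.card G).primeFactors // ¬ (p : ℕ) = 2}, β p))
    rw [Nat.card_pi]
    refine Finset.prod_induction _ Odd (fun _ _ => Odd.mul) odd_one ?_
    rintro ⟨p, hp⟩ -
    show Odd (Nat.card (∀ P : Sylow p G, (↑P : Subgroup G)))
    rw [Nat.card_pi]
    refine Finset.prod_induction _ Odd (fun _ _ => Odd.mul) odd_one ?_
    intro P _
    obtain ⟨k, hk⟩ := hpow p P
    rw [hk]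
    exact Odd.pow ((Nat.prime_of_mem_primeFactors p.2).odd_of_ne_two hp)
  · exact Group.nilpotent_of_surjective ((MonoidHom.snd K B).comp hf.toMonoidHom)
      (Prod.snd_surjective.comp hf.surjective)

/-- The theorem in the case of fields, for one order. -/
def FC (n e₀ : ℕ) : Prop := ∀ L : Fin n → Fin n → Fin n, IsLatin L →
  ¬ Obstructed n L → ∀ e ≥ e₀, ∀ (F : Type) [Field F] [Finite F], e ∣ Nat.card F - 1 →
    64 * e ^ 6 < Nat.card F → HasTransversal (fun r c : Fin n × F => (L r.1 c.1, r.2 + c.2))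

theorem FC_mono {n e₀ e₁ : ℕ} (h : e₀ ≤ e₁) (h0 : FC n e₀) : FC n e₁ :=
  fun L hL hO e he F _ _ h1 h2 => h0 L hL hO e (h.trans he) F h1 h2

theorem nil_iff {n : ℕ} (L : Fin n → Fin n → Fin n) (hL : IsLatin L) (A e₀ : ℕ)
    (he₀ : ∀ a ≤ A, FC (n * 2 ^ a) e₀) (G : Type) [Group G] [Finite G] [Group.IsNilpotent G]
    (p e : ℕ) (h2 : ¬ 2 ^ (A + 1) ∣ Nat.card G) (hp : p.Prime) (hp2 : p ≠ 2)
    (hpG : p ∣ Nat.card G) (he : e₀ ≤ e) (h1 : e ∣ p - 1) (h3 : 64 * e ^ 6 < p) :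
    HasTransversal (fun r c : Fin n × G => (L r.1 c.1, r.2 * c.2)) ↔
      ¬ Obstructed (n * Nat.card G) (fun r c : Fin n × G => (L r.1 c.1, r.2 * c.2)) := by
  classical
  obtain ⟨K, B, _, _, _, _, ⟨φ⟩, ⟨a, ha⟩, hB, hnil⟩ := split_two G
  have hcard : Nat.card G = 2 ^ a * Nat.card B := by
    rw [Nat.card_congr φ.toEquiv, Nat.card_prod, ha]
  have haA : a ≤ A := by
    by_contra hlt
    apply h2
    rw [hcard]
    exact Dvd.dvd.mul_right (pow_dvd_pow 2 (by omega)) _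
  have hpB : p ∣ Nat.card B := by
    rw [hcard] at hpG
    rcases hp.dvd_mul.1 hpG with h | h
    · exact absurd ((Nat.prime_dvd_prime_iff_eq hp Nat.prime_two).1 (hp.dvd_of_dvd_pow h)) hp2
    · exact h
  let ν : Fin n × K ≃ Fin (n * 2 ^ a) := Finite.equivFinOfCardEq (by
    rw [Nat.card_prod, ha, Nat.card_eq_fintype_card, Fintype.card_fin])
  let L' : Fin (n * 2 ^ a) → Fin (n * 2 ^ a) → Fin (n * 2 ^ a) := fun i j =>
    ν (L (ν.symm i).1 (ν.symm j).1, (ν.symm i).2 * (ν.symm j).2)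
  have hL' : IsLatin L' := by
    have h := prod_isLatin L hL K
    exact ⟨fun i => ν.bijective.comp ((h.1 (ν.symm i)).comp ν.symm.bijective),
      fun j => ν.bijective.comp ((h.2 (ν.symm j)).comp ν.symm.bijective)⟩
  have key := nilpotent_case L' hL' e₀ (he₀ a haA L' hL') B p e hB hp hpB he h1 h3
  constructor
  · intro h
    have := transversal_unobstructed _ (prod_isLatin L hL G) h
    rwa [Nat.card_prod, Nat.card_eq_fintype_card (α := Fin n), Fintype.card_fin] at this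
  · intro hO
    have hO' : ¬ Obstructed (n * 2 ^ a) L' := by
      rintro ⟨s, t, hs, ht, hn, α, β, γ, hα, hh⟩
      apply hO
      refine ⟨s, t * Nat.card B, hs, ht.mul hB, by rw [hcard, ← mul_assoc, hn]; ring,
        fun r => α (ν (r.1, (φ r.2).1)), fun r => β (ν (r.1, (φ r.2).1)),
        fun r => γ (ν (r.1, (φ r.2).1)), ?_, ?_⟩
      · intro z
        obtain ⟨r, hr⟩ := hα z
        refine ⟨((ν.symm r).1, φ.symm ((ν.symm r).2, 1)), ?_⟩
        simp only [MulEquiv.apply_symm_apply, Prod.mk.eta, Equiv.apply_symm_apply]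
        exact hr
      · rintro ⟨i, g⟩ ⟨j, g'⟩
        have := hh (ν (i, (φ g).1)) (ν (j, (φ g').1))
        simp only [L', Equiv.symm_apply_apply] at this
        simp only [map_mul, Prod.fst_mul]
        exact this
    have hT := key.2 hO'
    let E : Fin n × G ≃ Fin (n * 2 ^ a) × B :=
      ((Equiv.refl (Fin n)).prodCongr φ.toEquiv).trans
        ((Equiv.prodAssoc (Fin n) K B).symm.trans (ν.prodCongr (Equiv.refl B)))
    refine hasTransversal_iso _ _ E E E ?_ hT
    rintro ⟨i, g⟩ ⟨j, g'⟩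
    refine Prod.ext ?_ ?_
    · show ν (L i j, (φ (g * g')).1) = ν (L (ν.symm (ν (i, (φ g).1))).1 (ν.symm (ν (j, (φ g').1))).1,
        (ν.symm (ν (i, (φ g).1))).2 * (ν.symm (ν (j, (φ g').1))).2)
      rw [Equiv.symm_apply_apply, Equiv.symm_apply_apply, map_mul]
      rfl
    · show (φ (g * g')).2 = (φ g).2 * (φ g').2
      rw [map_mul]
      rfl

theorem multiples (d X : ℕ) : ((range X).filter (fun m => d ∣ m)).card ≤ X / d + 1 := by
  rw [← Finset.card_range (X / d + 1)]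
  refine Finset.card_le_card_of_injOn (fun m => m / d) ?_ ?_
  · intro m hm
    rw [Finset.mem_coe, mem_filter, mem_range] at hm
    rw [Finset.mem_coe, mem_range]
    exact Nat.lt_succ_of_le (Nat.div_le_div_right hm.1.le)
  · intro m hm m' hm' h
    rw [Finset.mem_coe, mem_filter] at hm hm'
    simp only at h
    rw [← Nat.div_mul_cancel hm.2, ← Nat.div_mul_cancel hm'.2, h]

theorem almost_all_orders (n : ℕ) (ε : ℝ) (hε : 0 < ε) : ∃ X₀ : ℕ, ∀ X ≥ X₀,
      ({m : ℕ | m < X ∧ ∃ (G : Type) (_ : Group G) (_ : Finite G) (L : Fin n → Fin n → Fin n),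
        Group.IsNilpotent G ∧ Nat.card G = m ∧ IsLatin L ∧
        ¬ (HasTransversal (fun r c : Fin n × G => (L r.1 c.1, r.2 * c.2)) ↔
          ¬ Obstructed (n * m) (fun r c : Fin n × G => (L r.1 c.1, r.2 * c.2)))}.ncard : ℝ)
        ≤ ε * X := by
  classical
  obtain ⟨A, hA⟩ : ∃ A : ℕ, (1 / 2 : ℝ) ^ A < ε / 3 :=
    exists_pow_lt_of_lt_one (by positivity) (by norm_num)
  have hF : ∀ a, ∃ e₀, FC (n * 2 ^ a) e₀ := fun a => field_case (n * 2 ^ a)
  choose e hE using hF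
  obtain ⟨e₀, he₀⟩ : ∃ e₀, ∀ a ≤ A, FC (n * 2 ^ a) e₀ := by
    refine ⟨(range (A + 1)).sup e, fun a ha => FC_mono ?_ (hE a)⟩
    exact Finset.le_sup (f := e) (mem_range.2 (by omega))
  obtain ⟨S, hS, hK⟩ := exists_set (e₀ + 1) (64 * (e₀ + 1) ^ 6) (- Real.log (ε / 3))
  obtain ⟨M, hM⟩ : ∃ M : ℕ, M = ∏ p ∈ S, p := ⟨_, rfl⟩
  obtain ⟨X₀, hX₀⟩ := exists_nat_ge (3 * ((M : ℝ) + 1) / ε)
  refine ⟨X₀, fun X hX => ?_⟩
  have hsub : {m : ℕ | m < X ∧ ∃ (G : Type) (_ : Group G) (_ : Finite G)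
        (L : Fin n → Fin n → Fin n), Group.IsNilpotent G ∧ Nat.card G = m ∧ IsLatin L ∧
        ¬ (HasTransversal (fun r c : Fin n × G => (L r.1 c.1, r.2 * c.2)) ↔
          ¬ Obstructed (n * m) (fun r c : Fin n × G => (L r.1 c.1, r.2 * c.2)))} ⊆
      ((range X).filter (fun m => ∀ p ∈ S, ¬ p ∣ m) ∪
        (range X).filter (fun m => 2 ^ (A + 1) ∣ m) : Finset ℕ) := by
    rintro m ⟨hmX, G, _, _, L, hnil, hcard, hL, hnot⟩
    rw [Finset.coe_union, Set.mem_union, Finset.mem_coe, Finset.mem_coe, mem_filter, mem_filter]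
    by_cases h2 : 2 ^ (A + 1) ∣ m
    · exact Or.inr ⟨mem_range.2 hmX, h2⟩
    · refine Or.inl ⟨mem_range.2 hmX, fun p hp hpm => hnot ?_⟩
      obtain ⟨hpp, hpB, hpq⟩ := hS p hp
      subst hcard
      refine nil_iff L hL A e₀ he₀ G p (e₀ + 1) h2 hpp ?_ hpm (Nat.le_succ _) hpq hpB
      have : 64 * 1 ^ 6 ≤ 64 * (e₀ + 1) ^ 6 :=
        Nat.mul_le_mul_left _ (Nat.pow_le_pow_left (by omega) 6)
      omega
  have h1 := Set.ncard_le_ncard hsub (Finset.finite_toSet _)
  rw [Set.ncard_coe_finset] at h1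
  have h1' := h1.trans (Finset.card_union_le _ _)
  have h2 := sieve S (fun p hp => (hS p hp).1) X
  rw [← hM] at h2
  have h3 : Real.exp (- ∑ p ∈ S, (p : ℝ)⁻¹) ≤ ε / 3 := by
    rw [← Real.exp_log (show (0 : ℝ) < ε / 3 by positivity)]
    exact Real.exp_le_exp.2 (by linarith)
  have h4 : (M : ℝ) + 1 ≤ ε / 3 * X := by
    have h5 : 3 * ((M : ℝ) + 1) / ε ≤ X := hX₀.trans (by exact_mod_cast hX)
    rw [div_le_iff₀ hε] at h5
    linarith
  have h6 : (X : ℝ) * Real.exp (- ∑ p ∈ S, (p : ℝ)⁻¹) ≤ X * (ε / 3) :=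
    mul_le_mul_of_nonneg_left h3 (by positivity)
  have h8 : (((range X).filter (fun m => 2 ^ (A + 1) ∣ m)).card : ℝ) ≤ X * (ε / 3) + 1 := by
    have h9 := multiples (2 ^ (A + 1)) X
    have h10 : (((range X).filter (fun m => 2 ^ (A + 1) ∣ m)).card : ℝ)
        ≤ ((X / 2 ^ (A + 1) : ℕ) : ℝ) + 1 := by exact_mod_cast h9
    have h11 : ((X / 2 ^ (A + 1) : ℕ) : ℝ) ≤ (X : ℝ) / ((2 ^ (A + 1) : ℕ) : ℝ) := Nat.cast_div_le
    have h12 : (X : ℝ) / ((2 ^ (A + 1) : ℕ) : ℝ) ≤ X * (ε / 3) := by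
      rw [div_eq_mul_inv]
      refine mul_le_mul_of_nonneg_left ?_ (by positivity)
      have h13 : (((2 ^ (A + 1) : ℕ) : ℝ))⁻¹ ≤ (1 / 2 : ℝ) ^ A := by
        push_cast
        rw [one_div, inv_pow]
        refine inv_anti₀ (by positivity) ?_
        exact pow_le_pow_right₀ (by norm_num) (Nat.le_succ A)
      linarith
    linarith
  have h7 := (Nat.cast_le (α := ℝ)).2 h1'
  push_cast at h7
  refine h7.trans ?_
  linarith

theorem odd_unobstructed' (R C S : Type) (N : ℕ) (P : R → C → S) (hN : Odd N) :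
    ¬ Obstructed N P := by
  rintro ⟨s, t, hs, -, hst, -⟩
  rw [hst] at hN
  have : Even (2 ^ s * t) := by
    rw [Nat.even_mul, Nat.even_pow]
    left
    exact ⟨even_two, by omega⟩
  exact (Nat.not_even_iff_odd.2 hN) this

theorem main'' (n : ℕ) :
    (∀ (R C S : Type) (N : ℕ) (P : R → C → S), Odd N → ¬ Obstructed N P) ∧
    (∀ ε : ℝ, 0 < ε → ∃ X₀ : ℕ, ∀ X ≥ X₀,
      ({m : ℕ | m < X ∧ ∃ (G : Type) (_ : Group G) (_ : Finite G) (L : Fin n → Fin n → Fin n),
        Group.IsNilpotent G ∧ Nat.card G = m ∧ IsLatin L ∧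
        ¬ (HasTransversal (fun r c : Fin n × G => (L r.1 c.1, r.2 * c.2)) ↔
          ¬ Obstructed (n * m) (fun r c : Fin n × G => (L r.1 c.1, r.2 * c.2)))}.ncard : ℝ)
        ≤ ε * X) ∧
    ∃ e₀ : ℕ, ∀ L : Fin n → Fin n → Fin n, IsLatin L →
      ∀ (F G : Type) [Field F] [Finite F] [Group G] [Finite G] (N : Subgroup G) [N.Normal] (e : ℕ),
        Nonempty (N ≃* Multiplicative F) → e₀ ≤ e → e ∣ Nat.card F - 1 →
        64 * e ^ 6 < Nat.card F →
        (HasTransversal (fun x y : G ⧸ N => x * y) → ¬ Obstructed n L →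
          HasTransversal (fun r c : Fin n × G => (L r.1 c.1, r.2 * c.2))) ∧
        (Odd (Nat.card G) →
          (HasTransversal (fun r c : Fin n × G => (L r.1 c.1, r.2 * c.2)) ↔
            ¬ Obstructed n L)) := by
  obtain ⟨e₀, he₀⟩ := (main' n).2
  exact ⟨odd_unobstructed', almost_all_orders n, e₀, fun L hL => (he₀ L hL).2⟩

end TH964.FP
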