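import Pool.Agent.TH964.FP.Body
import Mathlib.NumberTheory.PrimesCongruentOne

set_option autoImplicit false

/-! Products with groups. -/

namespace TH964.FP

open Finset TH964.HP

theorem field_case (n : ℕ) : ∃ e₀ : ℕ, ∀ L : Fin n → Fin n → Fin n, IsLatin L →
    ¬ Obstructed n L → ∀ e ≥ e₀, ∀ (F : Type) [Field F] [Finite F], e ∣ Nat.card F - 1 →
      64 * e ^ 6 < Nat.card F →
      HasTransversal (fun r c : Fin n × F => (L r.1 c.1, r.2 + c.2)) := by
  classical
  rcases Nat.eq_zero_or_pos n with h0 | h0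
  · subst h0
    refine ⟨0, fun L _ _ e _ F _ _ _ _ => ⟨Equiv.refl _, ?_, ?_⟩⟩
    · intro a; exact a.1.elim0
    · intro a; exact a.1.elim0
  · have h : ∀ L : Fin n → Fin n → Fin n, ∃ m : ℕ, IsLatin L → ¬ Obstructed n L → ∀ e ≥ m,
        ∀ (F : Type) [Field F] [Fintype F], e ∣ Fintype.card F - 1 →
        64 * e ^ 6 < Fintype.card F →
        HasTransversal (fun r c : Fin n × F => (L r.1 c.1, r.2 + c.2)) := by
      intro L
      by_cases hL : IsLatin L ∧ ¬ Obstructed n L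
      · obtain ⟨w, hw⟩ := weights_of_unobstructed L hL.1 hL.2
        obtain ⟨m, hm⟩ := transversal h0 L hL.1 (fun c => w c.1 c.2) (kap_weights L w hw)
        exact ⟨m, fun _ _ => hm⟩
      · exact ⟨0, fun h1 h2 => absurd ⟨h1, h2⟩ hL⟩
    choose m hm using h
    refine ⟨univ.sup m, fun L hL hO e he F _ _ h1 h2 => ?_⟩
    have := Fintype.ofFinite F
    rw [Nat.card_eq_fintype_card] at h1 h2
    exact hm L hL hO e (le_trans (Finset.le_sup (f := m) (mem_univ L)) he) F h1 h2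

/-- A transversal from parametrisations. -/
theorem hasTransversal_of_param {X R C S : Type} [Finite X] [Finite R] [Finite C] [Finite S]
    (P : R → C → S) (r : X → R) (c : X → C) (s : X → S) (hr : Function.Surjective r)
    (hc : Function.Surjective c) (hs : Function.Surjective s) (h : ∀ x, P (r x) (c x) = s x)
    (h1 : Nat.card X ≤ Nat.card R) (h2 : Nat.card X ≤ Nat.card C) (h3 : Nat.card X ≤ Nat.card S) :
    HasTransversal P := by
  let er := Equiv.ofBijective r (hr.bijective_of_nat_card_le h1)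
  let ec := Equiv.ofBijective c (hc.bijective_of_nat_card_le h2)
  refine ⟨er.symm.trans ec, ?_⟩
  have : (fun x => P x ((er.symm.trans ec) x)) = s ∘ er.symm := by
    funext x
    have e1 : r (er.symm x) = x := er.apply_symm_apply x
    simp only [Function.comp_apply]
    rw [← h, e1]
    rfl
  rw [this]
  exact (hs.bijective_of_nat_card_le h3).comp er.symm.bijective

theorem hasTransversal_iso {R C S R' C' S' : Type} (P : R → C → S) (P' : R' → C' → S')
    (eR : R' ≃ R) (eC : C' ≃ C) (eS : S' ≃ S) (h : ∀ r c, eS (P' r c) = P (eR r) (eC c))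
    (hP : HasTransversal P) : HasTransversal P' := by
  obtain ⟨σ, hσ⟩ := hP
  refine ⟨eR.trans (σ.trans eC.symm), ?_⟩
  have : (fun r => P' r ((eR.trans (σ.trans eC.symm)) r))
      = eS.symm ∘ (fun r => P r (σ r)) ∘ eR := by
    funext r
    simp only [Equiv.trans_apply, Function.comp_apply]
    rw [Equiv.eq_symm_apply, h, Equiv.apply_symm_apply]
  rw [this]
  exact eS.symm.bijective.comp (hσ.comp eR.bijective)

/-- Groups of odd order have complete mappings. -/
theorem odd_complete {Q : Type} [Group Q] [Finite Q] (h : Odd (Nat.card Q)) :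
    HasTransversal (fun x y : Q => x * y) := by
  obtain ⟨k, hk⟩ := h
  have hs : Function.Surjective (fun t : Q => t * t) := by
    intro q
    refine ⟨q ^ (k + 1), ?_⟩
    simp only
    rw [← pow_add, show k + 1 + (k + 1) = Nat.card Q + 1 by omega, pow_succ, pow_card_eq_one',
      one_mul]
  exact ⟨Equiv.refl _, hs.bijective_of_nat_card_le le_rfl⟩

/-- From a normal subgroup to the group. -/
theorem ext_transversal {n : ℕ} (L : Fin n → Fin n → Fin n) {G : Type} [Group G] [Finite G]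
    (N : Subgroup G) [hNn : N.Normal] (hN : HasTransversal (fun x y : G ⧸ N => x * y))
    (h : HasTransversal (fun r c : Fin n × N => (L r.1 c.1, r.2 * c.2))) :
    HasTransversal (fun r c : Fin n × G => (L r.1 c.1, r.2 * c.2)) := by
  classical
  obtain ⟨σ, hσ⟩ := h
  obtain ⟨θ, hθ⟩ := hN
  let s : G ⧸ N → G := Quotient.out
  have hs : ∀ t : G ⧸ N, ((s t : G) : G ⧸ N) = t := fun t => QuotientGroup.out_eq' t
  have hcard : Nat.card ((G ⧸ N) × (Fin n × N)) ≤ Nat.card (Fin n × G) := by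
    rw [Nat.card_prod, Nat.card_prod, Nat.card_prod,
      Subgroup.card_eq_card_quotient_mul_card_subgroup N]
    exact le_of_eq (by ring)
  refine hasTransversal_of_param (X := (G ⧸ N) × (Fin n × N)) _
    (fun q => (q.2.1, s q.1 * s (θ q.1) * (q.2.2 : G) * (s (θ q.1))⁻¹))
    (fun q => ((σ q.2).1, s (θ q.1) * ((σ q.2).2 : G)))
    (fun q => (L q.2.1 (σ q.2).1, s q.1 * s (θ q.1) * ((q.2.2 : G) * ((σ q.2).2 : G)))) ?_ ?_ ?_ ?_
    hcard hcard hcard
  · rintro ⟨i, g⟩
    have hmem : (s (g : G ⧸ N))⁻¹ * g ∈ N := QuotientGroup.eq.1 (hs _)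
    have hmem' : (s (θ (g : G ⧸ N)))⁻¹ * ((s (g : G ⧸ N))⁻¹ * g) * s (θ (g : G ⧸ N)) ∈ N := by
      have := hNn.conj_mem _ hmem (s (θ (g : G ⧸ N)))⁻¹
      rwa [inv_inv] at this
    refine ⟨((g : G ⧸ N), (i, ⟨_, hmem'⟩)), ?_⟩
    refine Prod.ext rfl ?_
    simp only
    group
  · rintro ⟨j, g⟩
    have hmem : (s (g : G ⧸ N))⁻¹ * g ∈ N := QuotientGroup.eq.1 (hs _)
    refine ⟨(θ.symm (g : G ⧸ N), σ.symm (j, ⟨_, hmem⟩)), ?_⟩
    simp only [Equiv.apply_symm_apply]
    refine Prod.ext rfl ?_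
    simp only
    group
  · rintro ⟨k, g⟩
    obtain ⟨t, ht⟩ := hθ.2 (g : G ⧸ N)
    simp only at ht
    have hmem : (s t * s (θ t))⁻¹ * g ∈ N := by
      refine QuotientGroup.eq.1 ?_
      rw [QuotientGroup.mk_mul, hs, hs, ht]
    obtain ⟨⟨i, x⟩, hix⟩ := hσ.2 (k, ⟨_, hmem⟩)
    refine ⟨(t, (i, x)), ?_⟩
    have h1 : L i (σ (i, x)).1 = k := congrArg Prod.fst hix
    refine Prod.ext h1 ?_
    have h2 : ((x : G) * ((σ (i, x)).2 : G)) = (s t * s (θ t))⁻¹ * g :=
      congrArg Subtype.val (congrArg Prod.snd hix)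
    simp only
    rw [h2, mul_inv_cancel_left]
  · rintro ⟨t, i, x⟩
    refine Prod.ext rfl ?_
    simp only
    group

theorem group_case {n : ℕ} (L : Fin n → Fin n → Fin n) {F : Type} [Field F] {G : Type} [Group G]
    [Finite G] (N : Subgroup G) [N.Normal] (hN : HasTransversal (fun x y : G ⧸ N => x * y))
    (φ : N ≃* Multiplicative F)
    (h : HasTransversal (fun r c : Fin n × F => (L r.1 c.1, r.2 + c.2))) :
    HasTransversal (fun r c : Fin n × G => (L r.1 c.1, r.2 * c.2)) := by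
  refine ext_transversal L N hN ?_
  let ψ : N ≃ F := φ.toEquiv.trans Multiplicative.toAdd
  have hψ : ∀ x y, ψ (x * y) = ψ x + ψ y := by
    intro x y
    show Multiplicative.toAdd (φ (x * y)) = Multiplicative.toAdd (φ x) + Multiplicative.toAdd (φ y)
    rw [map_mul]
    rfl
  refine hasTransversal_iso _ _ ((Equiv.refl (Fin n)).prodCongr ψ)
    ((Equiv.refl (Fin n)).prodCongr ψ) ((Equiv.refl (Fin n)).prodCongr ψ) ?_ h
  rintro ⟨i, x⟩ ⟨j, y⟩
  exact Prod.ext rfl (hψ x y)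

theorem converse {n : ℕ} (L : Fin n → Fin n → Fin n) (hL : IsLatin L) {G : Type} [Group G]
    [Finite G] (hG : Odd (Nat.card G))
    (h : HasTransversal (fun r c : Fin n × G => (L r.1 c.1, r.2 * c.2))) : ¬ Obstructed n L := by
  have hc : ∀ i : Fin n, Nat.card {x : Fin n × G // x.1 = i} = Nat.card G := by
    intro i
    refine Nat.card_congr ⟨fun x => x.1.2, fun g => ⟨(i, g), rfl⟩, ?_, fun g => rfl⟩
    rintro ⟨⟨j, g⟩, rfl⟩
    rfl
  exact not_obstructed_of_cover L hL _ (Nat.card G) hG Prod.fst Prod.fst Prod.fst hc hc hc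
    (fun r c => rfl) h

theorem odd_unobstructed {n : ℕ} (hn : Odd n) (L : Fin n → Fin n → Fin n) : ¬ Obstructed n L := by
  rintro ⟨s, t, hs, -, hst, -⟩
  rw [hst] at hn
  have : Even (2 ^ s * t) := by
    rw [Nat.even_mul, Nat.even_pow]
    left
    exact ⟨even_two, by omega⟩
  exact (Nat.not_even_iff_odd.2 hn) this

theorem good_primes (e₀ M : ℕ) : ∃ p e : ℕ, M < p ∧ p.Prime ∧ e₀ ≤ e ∧ e ∣ p - 1 ∧
    64 * e ^ 6 < p := by
  obtain ⟨p, hp, hlt, hmod⟩ := Nat.exists_prime_gt_modEq_one (k := e₀ + 1)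
    (M + 64 * (e₀ + 1) ^ 6) (Nat.succ_ne_zero _)
  refine ⟨p, e₀ + 1, by omega, hp, by omega, ?_, by omega⟩
  exact (Nat.modEq_iff_dvd' hp.one_le).1 hmod.symm

theorem main (n : ℕ) : ∃ e₀ : ℕ, (∀ M : ℕ, ∃ p e : ℕ, M < p ∧ p.Prime ∧ e₀ ≤ e ∧ e ∣ p - 1 ∧
      64 * e ^ 6 < p) ∧
    ∀ L : Fin n → Fin n → Fin n, IsLatin L →
    (Odd n → ¬ Obstructed n L) ∧
    (∀ (F G : Type) [Field F] [Finite F] [Group G] [Finite G] (N : Subgroup G) [N.Normal] (e : ℕ),
      Nonempty (N ≃* Multiplicative F) → HasTransversal (fun x y : G ⧸ N => x * y) → e₀ ≤ e →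
      e ∣ Nat.card F - 1 → 64 * e ^ 6 < Nat.card F → ¬ Obstructed n L →
      HasTransversal (fun r c : Fin n × G => (L r.1 c.1, r.2 * c.2))) ∧
    (∀ (F G : Type) [Field F] [Finite F] [Group G] [Finite G] (N : Subgroup G) [N.Normal] (e : ℕ),
      Nonempty (N ≃* Multiplicative F) → Odd (Nat.card G) → e₀ ≤ e →
      e ∣ Nat.card F - 1 → 64 * e ^ 6 < Nat.card F →
      (HasTransversal (fun r c : Fin n × G => (L r.1 c.1, r.2 * c.2)) ↔ ¬ Obstructed n L)) ∧
    (∀ (G : Type) [CommGroup G] [Finite G] (p e : ℕ), Odd (Nat.card G) → p.Prime →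
      p ∣ Nat.card G → e₀ ≤ e → e ∣ p - 1 → 64 * e ^ 6 < p →
      (HasTransversal (fun r c : Fin n × G => (L r.1 c.1, r.2 * c.2)) ↔ ¬ Obstructed n L)) := by
  obtain ⟨e₀, he₀⟩ := field_case n
  have key : ∀ L : Fin n → Fin n → Fin n, IsLatin L → ∀ (F G : Type) [Field F] [Finite F]
      [Group G] [Finite G] (N : Subgroup G) [N.Normal] (e : ℕ),
      Nonempty (N ≃* Multiplicative F) → HasTransversal (fun x y : G ⧸ N => x * y) → e₀ ≤ e →
      e ∣ Nat.card F - 1 → 64 * e ^ 6 < Nat.card F → ¬ Obstructed n L →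
      HasTransversal (fun r c : Fin n × G => (L r.1 c.1, r.2 * c.2)) := by
    intro L hL F G _ _ _ _ N _ e ⟨φ⟩ hN he h1 h2 hO
    exact group_case L N hN φ (he₀ L hL hO e he F h1 h2)
  have key2 : ∀ L : Fin n → Fin n → Fin n, IsLatin L → ∀ (F G : Type) [Field F] [Finite F]
      [Group G] [Finite G] (N : Subgroup G) [N.Normal] (e : ℕ),
      Nonempty (N ≃* Multiplicative F) → Odd (Nat.card G) → e₀ ≤ e →
      e ∣ Nat.card F - 1 → 64 * e ^ 6 < Nat.card F →
      (HasTransversal (fun r c : Fin n × G => (L r.1 c.1, r.2 * c.2)) ↔ ¬ Obstructed n L) := by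
    intro L hL F G _ _ _ _ N _ e hφ hG he h1 h2
    refine ⟨converse L hL hG, key L hL F G N e hφ (odd_complete ?_) he h1 h2⟩
    exact Nat.Odd.of_mul_left (n := Nat.card N) (by
      show Odd (N.index * Nat.card N)
      rw [Subgroup.index_mul_card]; exact hG)
  refine ⟨e₀, good_primes e₀, fun L hL => ⟨fun hn => odd_unobstructed hn L, key L hL, key2 L hL,
    ?_⟩⟩
  intro G _ _ p e hG hp hpG he h1 h2
  have : Fact p.Prime := ⟨hp⟩
  obtain ⟨x, hx⟩ := exists_prime_orderOf_dvd_card' p hpG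
  have hcN : Nat.card (Subgroup.zpowers x) = p := by rw [Nat.card_zpowers, hx]
  have hcF : Nat.card (ZMod p) = p := Nat.card_zmod p
  have φ : Subgroup.zpowers x ≃* Multiplicative (ZMod p) :=
    mulEquivOfCyclicCardEq (by rw [hcN]; exact hcF.symm)
  refine key2 L hL (ZMod p) G (Subgroup.zpowers x) e ⟨φ⟩ hG he ?_ ?_
  · rw [hcF]; exact h1
  · rw [hcF]; exact h2

end TH964.FP
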