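import Mathlib.Algebra.Module.LinearMap.Basic
import Mathlib.Algebra.Module.Submodule.LinearMap
import Mathlib.Algebra.Order.BigOperators.Group.Finset
import Mathlib.Data.Fintype.Sum
import Mathlib.Data.Fintype.BigOperators
import Mathlib.GroupTheory.Index
import Mathlib.LinearAlgebra.Pi
import Mathlib.SetTheory.Cardinal.Finite
import Mathlib.Tactic

set_option autoImplicit false

/-! A vector avoiding few hyperplanes. -/

namespace TH964.FP

open Finset

variable {F : Type} [Field F] [Fintype F] [DecidableEq F]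

theorem card_ker (V : Type) [AddCommGroup V] [Module F V] [Fintype V] [DecidableEq V]
    (D : V →ₗ[F] F) (w : V) (hw : D w ≠ 0) :
    (univ.filter (fun v => D v = 0)).card * Fintype.card F ≤ Fintype.card V := by
  have h : Function.Injective (fun p : {v // D v = 0} × F => p.1.1 + p.2 • w) := by
    rintro ⟨⟨v, hv⟩, a⟩ ⟨⟨v', hv'⟩, a'⟩ h
    simp only at h
    have h1 := congrArg D h
    rw [map_add, map_add, map_smul, map_smul, hv, hv', zero_add, zero_add, smul_eq_mul,
      smul_eq_mul] at h1
    have h2 := mul_right_cancel₀ hw h1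
    subst h2
    have h3 := add_right_cancel h
    subst h3
    rfl
  have := Fintype.card_le_of_injective _ h
  rwa [Fintype.card_prod, Fintype.card_subtype] at this

theorem exists_avoid (V : Type) [AddCommGroup V] [Module F V] [Fintype V] (I : Type) [Fintype I]
    (D : I → V →ₗ[F] F) (hD : ∀ i, ∃ w, D i w ≠ 0) (hI : Fintype.card I < Fintype.card F) :
    ∃ v, ∀ i, D i v ≠ 0 := by
  classical
  by_contra hno
  push Not at hno
  have h1 : (univ : Finset V) ⊆ univ.biUnion (fun i => univ.filter (fun v => D i v = 0)) := by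
    intro v _
    obtain ⟨i, hi⟩ := hno v
    exact mem_biUnion.2 ⟨i, mem_univ _, by simpa using hi⟩
  have h2 := (Finset.card_le_card h1).trans Finset.card_biUnion_le
  have h3 : Fintype.card V * Fintype.card F ≤ Fintype.card I * Fintype.card V := by
    calc Fintype.card V * Fintype.card F
        ≤ (∑ i, (univ.filter (fun v => D i v = 0)).card) * Fintype.card F :=
          Nat.mul_le_mul_right _ h2
      _ = ∑ i, (univ.filter (fun v => D i v = 0)).card * Fintype.card F := by rw [Finset.sum_mul]
      _ ≤ ∑ i : I, Fintype.card V := by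
          refine Finset.sum_le_sum (fun i _ => ?_)
          obtain ⟨w, hw⟩ := hD i
          exact card_ker V (D i) w hw
      _ = Fintype.card I * Fintype.card V := by
          rw [Finset.sum_const, Finset.card_univ, smul_eq_mul]
  have hV : 0 < Fintype.card V := Fintype.card_pos
  have h4 : Fintype.card I * Fintype.card V < Fintype.card V * Fintype.card F := by
    rw [mul_comm]
    exact Nat.mul_lt_mul_of_pos_left hI hV
  omega

/-- Two functionals are separated if one vanishes at a vector where the other does not. -/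
def Sep {V : Type} [AddCommGroup V] [Module F V] (D D' : V →ₗ[F] F) : Prop :=
  ∃ w, (D w = 0 ∧ D' w ≠ 0) ∨ (D w ≠ 0 ∧ D' w = 0)

/-- Simultaneous choice for three families of functionals: all values are nonzero and in each family
pairwise in different cosets of `G`. -/
theorem exists_generic (V : Type) [AddCommGroup V] [Module F V] [Fintype V] (O : Type) [Fintype O]
    (D : Fin 3 → O → V →ₗ[F] F) (h0 : ∀ k o, ∃ w, D k o w ≠ 0)
    (hsep : ∀ k o o', o ≠ o' → Sep (D k o) (D k o')) (G : Subgroup Fˣ) (e : ℕ)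
    (hG : Nat.card G * e = Fintype.card F - 1) (he : 6 * Fintype.card O ^ 2 ≤ e)
    (hq : 6 * Fintype.card O ^ 2 + 1 < Fintype.card F) :
    ∃ v, (∀ k o, D k o v ≠ 0) ∧
      ∀ k o o', o ≠ o' → ∀ g ∈ G, D k o v ≠ (g : F) * D k o' v := by
  classical
  let I := (Fin 3 × O) ⊕ (Fin 3 × {p : O × O // p.1 ≠ p.2} × G)
  let E : I → V →ₗ[F] F := Sum.elim (fun p => D p.1 p.2)
    (fun p => D p.1 p.2.1.1.1 - ((p.2.2 : Fˣ) : F) • D p.1 p.2.1.1.2)
  have hE : ∀ i, ∃ w, E i w ≠ 0 := by
    rintro (⟨k, o⟩ | ⟨k, ⟨⟨o, o'⟩, hne⟩, g⟩)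
    · exact h0 k o
    · obtain ⟨w, hw⟩ := hsep k o o' hne
      refine ⟨w, ?_⟩
      simp only [E, Sum.elim_inr, LinearMap.sub_apply, LinearMap.smul_apply, smul_eq_mul]
      rcases hw with ⟨h1, h2⟩ | ⟨h1, h2⟩
      · rw [h1, zero_sub]
        exact neg_ne_zero.2 (mul_ne_zero (Units.ne_zero _) h2)
      · rw [h2, mul_zero, sub_zero]
        exact h1
  have hcard : Fintype.card I < Fintype.card F := by
    have c1 : Fintype.card {p : O × O // p.1 ≠ p.2} ≤ Fintype.card O ^ 2 := by
      rw [sq, ← Fintype.card_prod]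
      exact Fintype.card_subtype_le _
    have c2 : Fintype.card I = 3 * Fintype.card O
        + 3 * (Fintype.card {p : O × O // p.1 ≠ p.2} * Fintype.card G) := by
      simp [I]
    rw [c2]
    have c3 : Fintype.card G = Nat.card G := (Nat.card_eq_fintype_card).symm
    rw [c3]
    have c4 : 3 * (Fintype.card {p : O × O // p.1 ≠ p.2} * Nat.card G)
        ≤ 3 * (Fintype.card O ^ 2 * Nat.card G) :=
      Nat.mul_le_mul_left _ (Nat.mul_le_mul_right _ c1)
    have c5 : 6 * (Fintype.card O ^ 2 * Nat.card G) ≤ Fintype.card F - 1 := by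
      rw [← hG]
      calc 6 * (Fintype.card O ^ 2 * Nat.card G) = Nat.card G * (6 * Fintype.card O ^ 2) := by ring
        _ ≤ Nat.card G * e := Nat.mul_le_mul_left _ he
    have c6 : Fintype.card O ≤ Fintype.card O ^ 2 := Nat.le_self_pow (by norm_num) _
    omega
  obtain ⟨v, hv⟩ := exists_avoid V I E hE hcard
  refine ⟨v, fun k o => hv (Sum.inl (k, o)), fun k o o' hne g hg h => ?_⟩
  have := hv (Sum.inr (k, ⟨(o, o'), hne⟩, ⟨g, hg⟩))
  apply this
  simp only [E, Sum.elim_inr, LinearMap.sub_apply, LinearMap.smul_apply, smul_eq_mul]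
  rw [h, sub_self]

end TH964.FP
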