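import Pool.Agent.TH964.FP.Final
import Pool.Agent.TH964.FP.Density
import Mathlib.GroupTheory.Nilpotent

set_option autoImplicit false

/-! Nilpotent groups and almost all orders. -/

namespace TH964.FP

open Finset TH964.HP

/-- A finite nilpotent group has central elements of every prime order dividing its order. -/
theorem exists_central (p : ℕ) (hp : p.Prime) (G : Type) [Group G] [Group.IsNilpotent G] :
    Finite G → p ∣ Nat.card G → ∃ x ∈ Subgroup.center G, orderOf x = p := by
  have : Fact p.Prime := ⟨hp⟩
  refine Group.nilpotent_center_quotient_ind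
    (P := fun G _ _ => Finite G → p ∣ Nat.card G → ∃ x ∈ Subgroup.center G, orderOf x = p) G ?_ ?_
  · intro G _ _ _ h
    rw [Nat.card_of_subsingleton (1 : G)] at h
    exact absurd (Nat.dvd_one.1 h) hp.one_lt.ne'
  · intro G _ _ ih hf h
    by_cases hZ : p ∣ Nat.card (Subgroup.center G)
    · obtain ⟨x, hx⟩ := exists_prime_orderOf_dvd_card' p hZ
      exact ⟨x.1, x.2, by rw [← hx, Subgroup.orderOf_coe]⟩
    · rw [Subgroup.card_eq_card_quotient_mul_card_subgroup (Subgroup.center G)] at h
      obtain ⟨y, hy, hyo⟩ := ih inferInstance ((hp.dvd_mul.1 h).resolve_right hZ)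
      obtain ⟨x, rfl⟩ := QuotientGroup.mk_surjective y
      exfalso
      have hxp : x ^ p ∈ Subgroup.center G := by
        rw [← QuotientGroup.eq_one_iff, QuotientGroup.mk_pow, ← hyo, pow_orderOf_eq_one]
      have hcomm : ∀ g : G, ∃ z ∈ Subgroup.center G, x * g = g * x * z := by
        intro g
        have h1 : (x : G ⧸ Subgroup.center G) * g = g * x :=
          ((Subgroup.mem_center_iff.1 hy) _).symm
        have h2 : (g * x)⁻¹ * (x * g) ∈ Subgroup.center G := QuotientGroup.eq.1 h1.symm
        exact ⟨_, h2, by group⟩
      have hx : x ∈ Subgroup.center G := by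
        rw [Subgroup.mem_center_iff]
        intro g
        obtain ⟨z, hz, hzx⟩ := hcomm g
        have hz' := Subgroup.mem_center_iff.1 hz
        have hpow : ∀ k : ℕ, x ^ k * g = g * x ^ k * z ^ k := by
          intro k
          induction k with
          | zero => simp
          | succ k ihk =>
            have e1 : z ^ k * x = x * z ^ k := by
              have : Commute z x := (hz' x).symm
              exact (this.pow_left k).eq
            calc x ^ (k + 1) * g = x ^ k * (x * g) := by rw [pow_succ, mul_assoc]
              _ = x ^ k * (g * x * z) := by rw [hzx]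
              _ = (x ^ k * g) * x * z := by group
              _ = g * x ^ k * (z ^ k * x) * z := by rw [ihk]; group
              _ = g * x ^ k * (x * z ^ k) * z := by rw [e1]
              _ = g * x ^ (k + 1) * z ^ (k + 1) := by rw [pow_succ, pow_succ]; group
        have h3 : g * x ^ p = g * x ^ p * z ^ p := by
          rw [← hpow p]
          exact Subgroup.mem_center_iff.1 hxp g
        have h4 : z ^ p = 1 := by
          have := mul_left_cancel (a := g * x ^ p) (b := z ^ p) (c := 1) (by rw [← h3, mul_one])
          exact this
        have h5 : z = 1 := by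
          have h6 : orderOf z ∣ p := orderOf_dvd_of_pow_eq_one h4
          rcases (Nat.dvd_prime hp).1 h6 with h7 | h7
          · exact orderOf_eq_one_iff.1 h7
          · exfalso
            apply hZ
            have h8 : orderOf (⟨z, hz⟩ : Subgroup.center G) = p := by
              rw [← h7, ← Subgroup.orderOf_coe]
            rw [← h8]
            exact orderOf_dvd_natCard _
        rw [hzx, h5, mul_one]
      have : (x : G ⧸ Subgroup.center G) = 1 := (QuotientGroup.eq_one_iff x).2 hx
      rw [this, orderOf_one] at hyo
      exact hp.one_lt.ne hyo

end TH964.FP
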