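import Pool.Agent.TH964.FP.Tok

set_option autoImplicit false

/-! Separation of the tokens of the absorber. -/

namespace TH964.FP

open Finset

section

variable {F : Type} [Field F] {P Q : ℕ}
variable {ZR ZC ZS : Type} {ρR : Fin P ≃ ZR ⊕ Fin Q} {ρC : Fin P ≃ ZC ⊕ Fin Q}
  {ρS : Fin P ≃ ZS ⊕ Fin Q}

theorem Sep.symm' {V : Type} [AddCommGroup V] [Module F V] {D D' : V →ₗ[F] F} (h : Sep D D') :
    Sep D' D := by
  obtain ⟨w, hw⟩ := h
  exact ⟨w, hw.elim (fun h => Or.inr ⟨h.2, h.1⟩) (fun h => Or.inl ⟨h.2, h.1⟩)⟩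

theorem sep_left {V : Type} [AddCommGroup V] [Module F V] {D D' : V →ₗ[F] F} (w : V)
    (h : D w ≠ 0) (h' : D' w = 0) : Sep D D' := ⟨w, Or.inr ⟨h, h'⟩⟩

theorem sep_right {V : Type} [AddCommGroup V] [Module F V] {D D' : V →ₗ[F] F} (w : V)
    (h : D w = 0) (h' : D' w ≠ 0) : Sep D D' := ⟨w, Or.inl ⟨h, h'⟩⟩

variable (F ρR ρC ρS)

def rowO : Fin Q ⊕ (Fin P ⊕ Fin Q) ⊕ (Fin P ⊕ Fin Q) → (Pm P Q → F) →ₗ[F] F :=
  Sum.elim (fun f => tx F ρR (Sum.inr f))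
    (Sum.elim (fun e => tT F (sc P Q e)) (fun e => tm F ρR ρC ρS e))

def yr : (Fin P ⊕ Fin Q) → (Pm P Q → F) →ₗ[F] F :=
  Sum.elim (fun a => tr F ρC (Sum.inl a)) (fun f => ty F ρC (Sum.inr f))

def colO : Fin Q ⊕ (Fin P ⊕ Fin Q) ⊕ (Fin P ⊕ Fin Q) → (Pm P Q → F) →ₗ[F] F :=
  Sum.elim (fun f => tr F ρC (Sum.inr f))
    (Sum.elim (fun e => yr F ρC e) (fun e => tV F ρR ρC ρS (sc P Q e)))

def az : (Fin P ⊕ Fin Q) → (Pm P Q → F) →ₗ[F] F :=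
  Sum.elim (fun a => tA F ρR ρC (Sum.inl a)) (fun f => tz F ρS (Sum.inr f))

def symO : Fin Q ⊕ (Fin P ⊕ Fin Q) ⊕ (Fin P ⊕ Fin Q) → (Pm P Q → F) →ₗ[F] F :=
  Sum.elim (fun f => tA F ρR ρC (Sum.inr f))
    (Sum.elim (fun e => tB F ρC e) (fun e => az F ρR ρC ρS e))

theorem row_add_col [Fintype ZR] [Fintype ZC] [Fintype ZS]
    (o : Fin Q ⊕ (Fin P ⊕ Fin Q) ⊕ (Fin P ⊕ Fin Q)) :
    rowO F ρR ρC ρS o + colO F ρR ρC ρS o = symO F ρR ρC ρS o := by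
  rcases o with f | (a | f) | (a | f)
  · rfl
  · exact B_pos' F ρC a
  · exact B_neg' F ρC f
  · exact m_pos' F ρR ρC ρS a
  · exact m_neg F ρR ρC ρS f

variable {F ρR ρC ρS}

theorem rr_ne (h3 : 3 ≤ P + Q) (e : Fin P ⊕ Fin Q) : tr F ρC e (dl F (pT e)) ≠ 0 := by
  rw [tr_T, if_neg (sc_ne (by omega) e), if_pos rfl]
  simpa using sg_ne F e

theorem aa_ne (h3 : 3 ≤ P + Q) (e : Fin P ⊕ Fin Q) : tA F ρR ρC e (dl F (pT e)) ≠ 0 := by
  rw [tA_T, if_neg (sc_ne (by omega) e), if_pos rfl]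
  simpa using sg_ne F e

theorem sep_rr (h3 : 3 ≤ P + Q) {e e' : Fin P ⊕ Fin Q} (hne : e ≠ e') :
    Sep (tr F ρC e) (tr F ρC e') := by
  by_cases h : sc P Q e = e'
  · refine sep_left (dl F (pT e)) (rr_ne h3 e) ?_
    rw [tr_T, if_neg, if_neg hne.symm]
    · simp
    · rw [← h]; exact sc_sc_ne h3 e
  · refine sep_left (dl F (pT (sc P Q e))) ?_ ?_
    · rw [tr_T, if_pos rfl, if_neg (sc_ne (by omega) e).symm]
      simpa using sg_ne F e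
    · rw [tr_T, if_neg, if_neg (fun h' => h h'.symm)]
      · simp
      · intro h'; exact hne ((sc P Q).injective h').symm

theorem sep_AA (h3 : 3 ≤ P + Q) {e e' : Fin P ⊕ Fin Q} (hne : e ≠ e') :
    Sep (tA F ρR ρC e) (tA F ρR ρC e') := by
  by_cases h : sc P Q e = e'
  · refine sep_left (dl F (pT e)) (aa_ne h3 e) ?_
    rw [tA_T, if_neg, if_neg hne.symm]
    · simp
    · rw [← h]; exact sc_sc_ne h3 e
  · refine sep_left (dl F (pT (sc P Q e))) ?_ ?_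
    · rw [tA_T, if_pos rfl, if_neg (sc_ne (by omega) e).symm]
      simpa using sg_ne F e
    · rw [tA_T, if_neg, if_neg (fun h' => h h'.symm)]
      · simp
      · intro h'; exact hne ((sc P Q).injective h').symm

theorem sep_ry (h3 : 3 ≤ P + Q) (e : Fin P ⊕ Fin Q) (f : Fin Q) :
    Sep (tr F ρC e) (ty F ρC (Sum.inr f)) :=
  sep_left (dl F (pT e)) (rr_ne h3 e) (ty_T _ _)

theorem sep_rV (e e' : Fin P ⊕ Fin Q) : Sep (tr F ρC e) (tV F ρR ρC ρS e') :=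
  sep_right (dl F pV) (tr_V _) (by rw [tV_V]; exact one_ne_zero)

theorem sep_yy {f f' : Fin Q} (h : f ≠ f') :
    Sep (ty F ρC (Sum.inr f : Fin P ⊕ Fin Q)) (ty F ρC (Sum.inr f')) := by
  refine sep_left (dl F (pY f)) ?_ ?_
  · show co F (pY f) (dl F (pY f)) ≠ 0
    rw [co_dl, if_pos rfl]; exact one_ne_zero
  · show co F (pY f') (dl F (pY f)) = 0
    rw [co_dl, if_neg]
    simpa using h.symm

theorem sep_zz {f f' : Fin Q} (h : f ≠ f') :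
    Sep (tz F ρS (Sum.inr f : Fin P ⊕ Fin Q)) (tz F ρS (Sum.inr f')) := by
  refine sep_left (dl F (pZ f)) ?_ ?_
  · show co F (pZ f) (dl F (pZ f)) ≠ 0
    rw [co_dl, if_pos rfl]; exact one_ne_zero
  · show co F (pZ f') (dl F (pZ f)) = 0
    rw [co_dl, if_neg]
    simpa using h.symm

theorem sep_xx {f f' : Fin Q} (h : f ≠ f') :
    Sep (tx F ρR (Sum.inr f : Fin P ⊕ Fin Q)) (tx F ρR (Sum.inr f')) := by
  refine sep_left (dl F (pX f)) ?_ ?_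
  · show co F (pX f) (dl F (pX f)) ≠ 0
    rw [co_dl, if_pos rfl]; exact one_ne_zero
  · show co F (pX f') (dl F (pX f)) = 0
    rw [co_dl, if_neg]
    simpa using h.symm

theorem sep_yV (f : Fin Q) (e' : Fin P ⊕ Fin Q) : Sep (ty F ρC (Sum.inr f)) (tV F ρR ρC ρS e') :=
  sep_right (dl F pV) (ty_V _) (by rw [tV_V]; exact one_ne_zero)

theorem sep_VV {e e' : Fin P ⊕ Fin Q} (h : e ≠ e') : Sep (tV F ρR ρC ρS e) (tV F ρR ρC ρS e') :=
  sep_left (dl F (pT e)) (by rw [tV_T, if_pos rfl]; exact neg_ne_zero.2 one_ne_zero)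
    (by rw [tV_T, if_neg h.symm])

theorem sep_TT {e e' : Fin P ⊕ Fin Q} (h : e ≠ e') : Sep (tT F e) (tT F e') :=
  sep_left (dl F (pT e)) (by rw [tT_T, if_pos rfl]; exact one_ne_zero)
    (by rw [tT_T, if_neg h.symm])

theorem sep_xT (f : Fin Q) (e : Fin P ⊕ Fin Q) : Sep (tx F ρR (Sum.inr f)) (tT F e) :=
  sep_right (dl F (pT e)) (tx_T _ _) (by rw [tT_T, if_pos rfl]; exact one_ne_zero)

theorem sep_xm (f : Fin Q) (e : Fin P ⊕ Fin Q) : Sep (tx F ρR (Sum.inr f)) (tm F ρR ρC ρS e) :=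
  sep_right (dl F pV) (tx_V _) (by rw [tm_V]; exact neg_ne_zero.2 one_ne_zero)

theorem sep_Tm (e e' : Fin P ⊕ Fin Q) : Sep (tT F e) (tm F ρR ρC ρS e') :=
  sep_right (dl F pV) (tT_V _) (by rw [tm_V]; exact neg_ne_zero.2 one_ne_zero)

theorem sep_mm (hS : ∀ a : Fin P, (a : ℕ) = 0 → ∃ z, ρS a = Sum.inl z)
    {e e' : Fin P ⊕ Fin Q} (hne : e ≠ e') : Sep (tm F ρR ρC ρS e) (tm F ρR ρC ρS e') := by
  by_cases h : lam P Q e = lam P Q e'
  · obtain ⟨a, f, ha, hf, hsc, hor⟩ := lam_eq hne h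
    have key : Sep (tm F ρR ρC ρS (Sum.inr f)) (tm F ρR ρC ρS (Sum.inl a)) := by
      obtain ⟨z, hz⟩ := hS a ha
      have hV : tV F ρR ρC ρS (Sum.inl a) (dl F (pZ f)) = 0 := by
        rw [tV, DD_zero (Sum.inl a) (by simpa using ha)]
        simp only [LinearMap.sub_apply, LinearMap.add_apply, LinearMap.zero_apply, tT_Z, co_dl]
        simp
      refine sep_left (dl F (pZ f)) ?_ ?_
      · have h1 : lam P Q (Sum.inr f) = Sum.inl a := hsc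
        rw [tm, h1, LinearMap.sub_apply, hV]
        have h2 : tz F ρS (Sum.inr f : Fin P ⊕ Fin Q) (dl F (pZ f)) = 1 := by
          show co F (pZ f) (dl F (pZ f)) = 1
          rw [co_dl, if_pos rfl]
        rw [h2, sub_zero]
        exact one_ne_zero
      · have h1 : lam P Q (Sum.inl a) = Sum.inl a := rfl
        rw [tm, h1, LinearMap.sub_apply, hV]
        have h2 : tz F ρS (Sum.inl a : Fin P ⊕ Fin Q) = 0 := by
          simp [tz, outer, hz]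
        rw [h2]
        simp
    rcases hor with ⟨h1, h2⟩ | ⟨h1, h2⟩
    · rw [h1, h2]; exact key.symm'
    · rw [h1, h2]; exact key
  · exact sep_left (dl F (pT (lam P Q e))) (by rw [tm_T, if_pos rfl]; exact one_ne_zero)
      (by rw [tm_T, if_neg (fun h' => h h'.symm)])

theorem sep_BB (hC : ∀ (a : Fin P) (f : Fin Q), (a : ℕ) = 0 → (f : ℕ) + 1 = Q → ρC a ≠ Sum.inr f)
    {e e' : Fin P ⊕ Fin Q} (hne : e ≠ e') : Sep (tB F ρC e) (tB F ρC e') := by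
  by_cases h : lam P Q e = lam P Q e'
  · obtain ⟨a, f, ha, hf, hsc, hor⟩ := lam_eq hne h
    have key : Sep (tB F ρC (Sum.inr f)) (tB F ρC (Sum.inl a)) := by
      refine sep_left (dl F (pY f)) ?_ ?_
      · rw [tB, LinearMap.add_apply, tT_Y, add_zero]
        show co F (pY f) (dl F (pY f)) ≠ 0
        rw [co_dl, if_pos rfl]; exact one_ne_zero
      · rw [tB, LinearMap.add_apply, tT_Y, add_zero]
        simp only [ty, outer, Sum.elim_inl]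
        rcases hz : ρC a with z | g
        · simp
        · simp only [Sum.elim_inr]
          rw [co_dl, if_neg]
          intro h'
          have : g = f := by simpa using h'
          subst this
          exact hC a g ha hf hz
    rcases hor with ⟨h1, h2⟩ | ⟨h1, h2⟩
    · rw [h1, h2]; exact key.symm'
    · rw [h1, h2]; exact key
  · exact sep_left (dl F (pT (lam P Q e))) (by rw [tB_T, if_pos rfl]; exact one_ne_zero)
      (by rw [tB_T, if_neg (fun h' => h h'.symm)])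

theorem sep_AB (h3 : 3 ≤ P + Q) (e e' : Fin P ⊕ Fin Q) : Sep (tA F ρR ρC e) (tB F ρC e') := by
  by_cases h : lam P Q e' = e
  · refine sep_left (dl F (pT (sc P Q e))) ?_ ?_
    · rw [tA_T, if_pos rfl, if_neg (sc_ne (by omega) e).symm]
      simpa using sg_ne F e
    · rw [tB_T, if_neg]
      rw [h]
      exact (sc_ne (by omega) e).symm
  · refine sep_left (dl F (pT e)) (aa_ne h3 e) ?_
    rw [tB_T, if_neg h]

theorem sep_AZ (h3 : 3 ≤ P + Q) (e : Fin P ⊕ Fin Q) (f : Fin Q) :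
    Sep (tA F ρR ρC e) (tz F ρS (Sum.inr f)) :=
  sep_left (dl F (pT e)) (aa_ne h3 e) (tz_T _ _)

theorem sep_BZ (e : Fin P ⊕ Fin Q) (f : Fin Q) : Sep (tB F ρC e) (tz F ρS (Sum.inr f)) :=
  sep_left (dl F (pT (lam P Q e))) (by rw [tB_T, if_pos rfl]; exact one_ne_zero) (tz_T _ _)

theorem sepR (hS : ∀ a : Fin P, (a : ℕ) = 0 → ∃ z, ρS a = Sum.inl z)
    (o o' : Fin Q ⊕ (Fin P ⊕ Fin Q) ⊕ (Fin P ⊕ Fin Q)) (hne : o ≠ o') :
    Sep (rowO F ρR ρC ρS o) (rowO F ρR ρC ρS o') := by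
  rcases o with f | e | e <;> rcases o' with f' | e' | e'
  · exact sep_xx (ρR := ρR) (fun h => hne (by rw [h]))
  · exact sep_xT (ρR := ρR) _ _
  · exact sep_xm (ρR := ρR) (ρC := ρC) (ρS := ρS) _ _
  · exact (sep_xT (ρR := ρR) _ _).symm'
  · exact sep_TT (fun h => hne (by rw [(sc P Q).injective h]))
  · exact sep_Tm (ρR := ρR) (ρC := ρC) (ρS := ρS) _ _
  · exact (sep_xm (ρR := ρR) (ρC := ρC) (ρS := ρS) _ _).symm'
  · exact (sep_Tm (ρR := ρR) (ρC := ρC) (ρS := ρS) _ _).symm'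
  · exact sep_mm (ρR := ρR) (ρC := ρC) (ρS := ρS) hS (fun h => hne (by rw [h]))

theorem sepC (h3 : 3 ≤ P + Q)
    (o o' : Fin Q ⊕ (Fin P ⊕ Fin Q) ⊕ (Fin P ⊕ Fin Q)) (hne : o ≠ o') :
    Sep (colO F ρR ρC ρS o) (colO F ρR ρC ρS o') := by
  rcases o with f | (a | f) | e <;> rcases o' with f' | (a' | f') | e'
  · exact sep_rr (ρC := ρC) h3 (fun h => hne (by simpa using h))
  · exact sep_rr (ρC := ρC) h3 (by simp)
  · exact sep_ry (ρC := ρC) h3 _ _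
  · exact sep_rV (ρR := ρR) (ρC := ρC) (ρS := ρS) _ _
  · exact sep_rr (ρC := ρC) h3 (by simp)
  · exact sep_rr (ρC := ρC) h3 (fun h => hne (by simpa using h))
  · exact sep_ry (ρC := ρC) h3 _ _
  · exact sep_rV (ρR := ρR) (ρC := ρC) (ρS := ρS) _ _
  · exact (sep_ry (ρC := ρC) h3 _ _).symm'
  · exact (sep_ry (ρC := ρC) h3 _ _).symm'
  · exact sep_yy (ρC := ρC) (fun h => hne (by rw [h]))
  · exact sep_yV (ρR := ρR) (ρC := ρC) (ρS := ρS) _ _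
  · exact (sep_rV (ρR := ρR) (ρC := ρC) (ρS := ρS) _ _).symm'
  · exact (sep_rV (ρR := ρR) (ρC := ρC) (ρS := ρS) _ _).symm'
  · exact (sep_yV (ρR := ρR) (ρC := ρC) (ρS := ρS) _ _).symm'
  · exact sep_VV (ρR := ρR) (ρC := ρC) (ρS := ρS) (fun h => hne (by rw [(sc P Q).injective h]))

theorem sepS (h3 : 3 ≤ P + Q)
    (hC : ∀ (a : Fin P) (f : Fin Q), (a : ℕ) = 0 → (f : ℕ) + 1 = Q → ρC a ≠ Sum.inr f)
    (o o' : Fin Q ⊕ (Fin P ⊕ Fin Q) ⊕ (Fin P ⊕ Fin Q)) (hne : o ≠ o') :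
    Sep (symO F ρR ρC ρS o) (symO F ρR ρC ρS o') := by
  rcases o with f | e | (a | f) <;> rcases o' with f' | e' | (a' | f')
  · exact sep_AA (ρR := ρR) (ρC := ρC) h3 (fun h => hne (by simpa using h))
  · exact sep_AB (ρR := ρR) (ρC := ρC) h3 _ _
  · exact sep_AA (ρR := ρR) (ρC := ρC) h3 (by simp)
  · exact sep_AZ (ρR := ρR) (ρC := ρC) (ρS := ρS) h3 _ _
  · exact (sep_AB (ρR := ρR) (ρC := ρC) h3 _ _).symm'
  · exact sep_BB (ρC := ρC) hC (fun h => hne (by rw [h]))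
  · exact (sep_AB (ρR := ρR) (ρC := ρC) h3 _ _).symm'
  · exact sep_BZ (ρC := ρC) (ρS := ρS) _ _
  · exact sep_AA (ρR := ρR) (ρC := ρC) h3 (by simp)
  · exact sep_AB (ρR := ρR) (ρC := ρC) h3 _ _
  · exact sep_AA (ρR := ρR) (ρC := ρC) h3 (fun h => hne (by simpa using h))
  · exact sep_AZ (ρR := ρR) (ρC := ρC) (ρS := ρS) h3 _ _
  · exact (sep_AZ (ρR := ρR) (ρC := ρC) (ρS := ρS) h3 _ _).symm'
  · exact (sep_BZ (ρC := ρC) (ρS := ρS) _ _).symm'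
  · exact (sep_AZ (ρR := ρR) (ρC := ρC) (ρS := ρS) h3 _ _).symm'
  · exact sep_zz (ρS := ρS) (fun h => hne (by rw [h]))

theorem neR (o : Fin Q ⊕ (Fin P ⊕ Fin Q) ⊕ (Fin P ⊕ Fin Q)) : ∃ w, rowO F ρR ρC ρS o w ≠ 0 := by
  rcases o with f | e | e
  · refine ⟨dl F (pX f), ?_⟩
    show co F (pX f) (dl F (pX f)) ≠ 0
    rw [co_dl, if_pos rfl]; exact one_ne_zero
  · refine ⟨dl F (pT (sc P Q e)), ?_⟩
    show tT F (sc P Q e) _ ≠ 0
    rw [tT_T, if_pos rfl]; exact one_ne_zero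
  · refine ⟨dl F pV, ?_⟩
    show tm F ρR ρC ρS e _ ≠ 0
    rw [tm_V]; exact neg_ne_zero.2 one_ne_zero

theorem neC (h3 : 3 ≤ P + Q) (o : Fin Q ⊕ (Fin P ⊕ Fin Q) ⊕ (Fin P ⊕ Fin Q)) :
    ∃ w, colO F ρR ρC ρS o w ≠ 0 := by
  rcases o with f | (a | f) | e
  · exact ⟨_, rr_ne h3 _⟩
  · exact ⟨_, rr_ne h3 _⟩
  · refine ⟨dl F (pY f), ?_⟩
    show co F (pY f) (dl F (pY f)) ≠ 0
    rw [co_dl, if_pos rfl]; exact one_ne_zero
  · refine ⟨dl F pV, ?_⟩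
    show tV F ρR ρC ρS _ _ ≠ 0
    rw [tV_V]; exact one_ne_zero

theorem neS (h3 : 3 ≤ P + Q) (o : Fin Q ⊕ (Fin P ⊕ Fin Q) ⊕ (Fin P ⊕ Fin Q)) :
    ∃ w, symO F ρR ρC ρS o w ≠ 0 := by
  rcases o with f | e | (a | f)
  · exact ⟨_, aa_ne h3 _⟩
  · refine ⟨dl F (pT (lam P Q e)), ?_⟩
    show tB F ρC e _ ≠ 0
    rw [tB_T, if_pos rfl]; exact one_ne_zero
  · exact ⟨_, aa_ne h3 _⟩
  · refine ⟨dl F (pZ f), ?_⟩
    show co F (pZ f) (dl F (pZ f)) ≠ 0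
    rw [co_dl, if_pos rfl]; exact one_ne_zero

end

end TH964.FP
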