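import Pool.Agent.TH964.FP.Lin

set_option autoImplicit false

/-! The generic absorber: linear functionals. -/

namespace TH964.FP

open Finset

section tok

variable (F : Type) [Field F]
variable {P Q : ℕ}

/-- Parameters. -/
abbrev Pm (P Q : ℕ) : Type := Fin Q ⊕ Fin Q ⊕ Fin Q ⊕ (Fin P ⊕ Fin Q) ⊕ Unit

abbrev pX (f : Fin Q) : Pm P Q := Sum.inl f
abbrev pY (f : Fin Q) : Pm P Q := Sum.inr (Sum.inl f)
abbrev pZ (f : Fin Q) : Pm P Q := Sum.inr (Sum.inr (Sum.inl f))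
abbrev pT (e : Fin P ⊕ Fin Q) : Pm P Q := Sum.inr (Sum.inr (Sum.inr (Sum.inl e)))
abbrev pV : Pm P Q := Sum.inr (Sum.inr (Sum.inr (Sum.inr ())))

/-- Coordinate functional. -/
def co (π : Pm P Q) : (Pm P Q → F) →ₗ[F] F := LinearMap.proj π

/-- Basis vector. -/
def dl (π : Pm P Q) : Pm P Q → F := Pi.single π 1

theorem co_dl (π π' : Pm P Q) : co F π (dl F π') = if π = π' then 1 else 0 := by
  simp [co, dl, Pi.single_apply]

/-- The cyclic successor. -/
def sc (P Q : ℕ) : (Fin P ⊕ Fin Q) ≃ (Fin P ⊕ Fin Q) :=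
  finSumFinEquiv.trans ((finRotate (P + Q)).trans finSumFinEquiv.symm)

theorem rot_val (M : ℕ) (k : Fin M) :
    ((finRotate M k : Fin M) : ℕ) = if (k : ℕ) + 1 = M then 0 else (k : ℕ) + 1 := by
  cases M with
  | zero => exact k.elim0
  | succ m =>
    rw [coe_finRotate]
    by_cases h : k = Fin.last m
    · subst h; simp
    · rw [if_neg h, if_neg]
      intro h'
      apply h
      ext
      simp only [Fin.val_last]
      omega

theorem sc_val (e : Fin P ⊕ Fin Q) : ((finSumFinEquiv (sc P Q e) : Fin (P + Q)) : ℕ)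
    = if ((finSumFinEquiv e : Fin (P + Q)) : ℕ) + 1 = P + Q then 0
      else ((finSumFinEquiv e : Fin (P + Q)) : ℕ) + 1 := by
  rw [sc]
  simp only [Equiv.trans_apply, Equiv.apply_symm_apply]
  exact rot_val _ _

theorem idx_inj {e e' : Fin P ⊕ Fin Q}
    (h : ((finSumFinEquiv e : Fin (P + Q)) : ℕ) = ((finSumFinEquiv e' : Fin (P + Q)) : ℕ)) :
    e = e' := finSumFinEquiv.injective (Fin.ext h)

theorem sc_ne (h2 : 2 ≤ P + Q) (e : Fin P ⊕ Fin Q) : sc P Q e ≠ e := by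
  intro h
  have h1 := sc_val e
  rw [h] at h1
  split_ifs at h1 <;> omega

theorem sc_sc_ne (h3 : 3 ≤ P + Q) (e : Fin P ⊕ Fin Q) : sc P Q (sc P Q e) ≠ e := by
  intro h
  have h1 := sc_val (sc P Q e)
  rw [h] at h1
  have h2 := sc_val e
  split_ifs at h1 h2 <;> omega

/-- A positive element is the successor of a negative one only at the junction. -/
theorem junction (f : Fin Q) (a : Fin P) (h : sc P Q (Sum.inr f) = Sum.inl a) :
    (a : ℕ) = 0 ∧ (f : ℕ) + 1 = Q := by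
  have h1 := sc_val (P := P) (Q := Q) (Sum.inr f)
  rw [h] at h1
  have e1 : ((finSumFinEquiv (Sum.inr f : Fin P ⊕ Fin Q) : Fin (P + Q)) : ℕ) = P + f := by simp
  have e2 : ((finSumFinEquiv (Sum.inl a : Fin P ⊕ Fin Q) : Fin (P + Q)) : ℕ) = a := by simp
  have h2 := a.isLt
  by_cases h3 : ((finSumFinEquiv (Sum.inr f : Fin P ⊕ Fin Q) : Fin (P + Q)) : ℕ) + 1 = P + Q
  · rw [if_pos h3] at h1
    exact ⟨by omega, by omega⟩
  · rw [if_neg h3] at h1
    omega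

/-- Outer tokens. -/
def outer {Z : Type} (ρ : Fin P ≃ Z ⊕ Fin Q) (X : Fin Q → (Pm P Q → F) →ₗ[F] F) :
    (Fin P ⊕ Fin Q) → (Pm P Q → F) →ₗ[F] F :=
  Sum.elim (fun a => Sum.elim (fun _ => 0) X (ρ a)) X

theorem outer_zero {Z : Type} (ρ : Fin P ≃ Z ⊕ Fin Q) (X : Fin Q → (Pm P Q → F) →ₗ[F] F)
    (w : Pm P Q → F) (h : ∀ f, X f w = 0) (e : Fin P ⊕ Fin Q) : outer F ρ X e w = 0 := by
  rcases e with a | f
  · simp only [outer, Sum.elim_inl]
    rcases ρ a with z | f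
    · simp
    · exact h f
  · exact h f

/-- Signs. -/
def sg : (Fin P ⊕ Fin Q) → F := Sum.elim (fun _ => 1) (fun _ => -1)

theorem sg_ne (e : Fin P ⊕ Fin Q) : (sg F e : F) ≠ 0 := by
  rcases e with a | f <;> simp [sg]

theorem sum_outer {Z : Type} [Fintype Z] (ρ : Fin P ≃ Z ⊕ Fin Q)
    (X : Fin Q → (Pm P Q → F) →ₗ[F] F) :
    ∑ e, sg F e • outer F ρ X e = 0 := by
  refine LinearMap.ext (fun w => ?_)
  rw [Fintype.sum_sum_type]
  simp only [sg, outer, Sum.elim_inl, Sum.elim_inr, LinearMap.add_apply, LinearMap.sum_apply,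
    LinearMap.smul_apply, smul_eq_mul, one_mul, neg_mul, Finset.sum_neg_distrib,
    LinearMap.zero_apply]
  rw [ρ.sum_comp (fun s => (Sum.elim (fun _ => (0 : (Pm P Q → F) →ₗ[F] F)) X s) w),
    Fintype.sum_sum_type]
  simp

variable {ZR ZC ZS : Type} (ρR : Fin P ≃ ZR ⊕ Fin Q) (ρC : Fin P ≃ ZC ⊕ Fin Q)
  (ρS : Fin P ≃ ZS ⊕ Fin Q)

def tx : (Fin P ⊕ Fin Q) → (Pm P Q → F) →ₗ[F] F := outer F ρR (fun f => co F (pX f))
def ty : (Fin P ⊕ Fin Q) → (Pm P Q → F) →ₗ[F] F := outer F ρC (fun f => co F (pY f))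
def tz : (Fin P ⊕ Fin Q) → (Pm P Q → F) →ₗ[F] F := outer F ρS (fun f => co F (pZ f))
def tT : (Fin P ⊕ Fin Q) → (Pm P Q → F) →ₗ[F] F := fun e => co F (pT e)

def dd (e : Fin P ⊕ Fin Q) : (Pm P Q → F) →ₗ[F] F :=
  sg F e • (tx F ρR e + ty F ρC e - tz F ρS e)

def DD (e : Fin P ⊕ Fin Q) : (Pm P Q → F) →ₗ[F] F :=
  ∑ e', if (finSumFinEquiv e' : Fin (P + Q)) < finSumFinEquiv e then dd F ρR ρC ρS e' else 0

theorem sum_dd [Fintype ZR] [Fintype ZC] [Fintype ZS] : ∑ e, dd F ρR ρC ρS e = 0 := by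
  have h1 := sum_outer F ρR (fun f => co F (pX f))
  have h2 := sum_outer F ρC (fun f => co F (pY f))
  have h3 := sum_outer F ρS (fun f => co F (pZ f))
  simp only [dd, smul_sub, smul_add, Finset.sum_sub_distrib, Finset.sum_add_distrib]
  rw [show (∑ e, sg F e • tx F ρR e) = 0 from h1, show (∑ e, sg F e • ty F ρC e) = 0 from h2,
    show (∑ e, sg F e • tz F ρS e) = 0 from h3]
  simp

theorem DD_succ [Fintype ZR] [Fintype ZC] [Fintype ZS] (e : Fin P ⊕ Fin Q) :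
    DD F ρR ρC ρS (sc P Q e) = DD F ρR ρC ρS e + dd F ρR ρC ρS e := by
  classical
  have hv := sc_val e
  have hrhs : DD F ρR ρC ρS e + dd F ρR ρC ρS e
      = ∑ e', if ((finSumFinEquiv e' : Fin (P + Q)) : ℕ) < (finSumFinEquiv e : Fin (P + Q)) + 1
        then dd F ρR ρC ρS e' else 0 := by
    have h1 : dd F ρR ρC ρS e = ∑ e', if e' = e then dd F ρR ρC ρS e' else 0 := by simp
    rw [h1, DD, ← Finset.sum_add_distrib]
    refine Finset.sum_congr rfl (fun e' _ => ?_)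
    by_cases he : e' = e
    · subst he
      simp
    · have hne : ((finSumFinEquiv e' : Fin (P + Q)) : ℕ) ≠ (finSumFinEquiv e : Fin (P + Q)) :=
        fun h => he (idx_inj h)
      rw [if_neg he, add_zero]
      by_cases hlt : (finSumFinEquiv e' : Fin (P + Q)) < finSumFinEquiv e
      · rw [if_pos hlt, if_pos]
        have : ((finSumFinEquiv e' : Fin (P + Q)) : ℕ) < (finSumFinEquiv e : Fin (P + Q)) := hlt
        omega
      · rw [if_neg hlt, if_neg]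
        have : ¬ ((finSumFinEquiv e' : Fin (P + Q)) : ℕ) < (finSumFinEquiv e : Fin (P + Q)) := hlt
        omega
  rw [hrhs]
  by_cases hlast : ((finSumFinEquiv e : Fin (P + Q)) : ℕ) + 1 = P + Q
  · rw [if_pos hlast] at hv
    have h1 : DD F ρR ρC ρS (sc P Q e) = 0 := by
      refine Finset.sum_eq_zero (fun e' _ => ?_)
      rw [if_neg]
      intro hlt
      have : ((finSumFinEquiv e' : Fin (P + Q)) : ℕ) < (finSumFinEquiv (sc P Q e) : Fin (P + Q)) :=
        hlt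
      omega
    rw [h1, hlast, ← sum_dd F ρR ρC ρS]
    refine Finset.sum_congr rfl (fun e' _ => ?_)
    rw [if_pos (finSumFinEquiv e').isLt]
  · rw [if_neg hlast] at hv
    rw [DD]
    refine Finset.sum_congr rfl (fun e' _ => ?_)
    have : ((finSumFinEquiv e' : Fin (P + Q)) < finSumFinEquiv (sc P Q e)) ↔
        ((finSumFinEquiv e' : Fin (P + Q)) : ℕ) < (finSumFinEquiv e : Fin (P + Q)) + 1 := by
      rw [Fin.lt_def, hv]
    simp only [this]

def tV (e : Fin P ⊕ Fin Q) : (Pm P Q → F) →ₗ[F] F :=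
  co F pV + DD F ρR ρC ρS e - tT F e

def tr (e : Fin P ⊕ Fin Q) : (Pm P Q → F) →ₗ[F] F :=
  ty F ρC e - sg F e • (tT F (sc P Q e) - tT F e)

/-- The hub index. -/
def lam (P Q : ℕ) : (Fin P ⊕ Fin Q) → (Fin P ⊕ Fin Q) :=
  Sum.elim (fun a => Sum.inl a) (fun f => sc P Q (Sum.inr f))

def tA (e : Fin P ⊕ Fin Q) : (Pm P Q → F) →ₗ[F] F := tx F ρR e + tr F ρC e
def tB (e : Fin P ⊕ Fin Q) : (Pm P Q → F) →ₗ[F] F := ty F ρC e + tT F (lam P Q e)
def tm (e : Fin P ⊕ Fin Q) : (Pm P Q → F) →ₗ[F] F := tz F ρS e - tV F ρR ρC ρS (lam P Q e)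

theorem m_pos (a : Fin P) : tm F ρR ρC ρS (Sum.inl a) + tV F ρR ρC ρS (Sum.inl a)
    = tz F ρS (Sum.inl a) := by
  simp [tm, lam]

theorem m_neg (f : Fin Q) : tm F ρR ρC ρS (Sum.inr f) + tV F ρR ρC ρS (sc P Q (Sum.inr f))
    = tz F ρS (Sum.inr f) := by
  simp [tm, lam]

theorem m_pos' [Fintype ZR] [Fintype ZC] [Fintype ZS] (a : Fin P) :
    tm F ρR ρC ρS (Sum.inl a) + tV F ρR ρC ρS (sc P Q (Sum.inl a))
    = tA F ρR ρC (Sum.inl a) := by
  refine LinearMap.ext (fun w => ?_)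
  simp only [tm, lam, tV, DD_succ, tA, tr, Sum.elim_inl]
  simp only [dd, sg, Sum.elim_inl, LinearMap.add_apply, LinearMap.sub_apply,
    LinearMap.smul_apply, smul_eq_mul, one_mul]
  ring

theorem m_neg' [Fintype ZR] [Fintype ZC] [Fintype ZS] (f : Fin Q) :
    tm F ρR ρC ρS (Sum.inr f) + tV F ρR ρC ρS (Sum.inr f) = tA F ρR ρC (Sum.inr f) := by
  refine LinearMap.ext (fun w => ?_)
  simp only [tm, lam, tV, DD_succ, tA, tr, Sum.elim_inr]
  simp only [dd, sg, Sum.elim_inr, LinearMap.add_apply, LinearMap.sub_apply,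
    LinearMap.smul_apply, smul_eq_mul, one_mul, neg_mul]
  ring

theorem B_pos (a : Fin P) : tT F (Sum.inl a) + ty F ρC (Sum.inl a) = tB F ρC (Sum.inl a) := by
  simp only [tB, lam, Sum.elim_inl]; abel

theorem B_pos' (a : Fin P) : tT F (sc P Q (Sum.inl a)) + tr F ρC (Sum.inl a)
    = tB F ρC (Sum.inl a) := by
  refine LinearMap.ext (fun w => ?_)
  simp only [tB, lam, tr, sg, Sum.elim_inl, LinearMap.add_apply, LinearMap.sub_apply,
    LinearMap.smul_apply, smul_eq_mul, one_mul]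
  ring

theorem B_neg (f : Fin Q) : tT F (Sum.inr f) + tr F ρC (Sum.inr f) = tB F ρC (Sum.inr f) := by
  refine LinearMap.ext (fun w => ?_)
  simp only [tB, lam, tr, sg, Sum.elim_inr, LinearMap.add_apply, LinearMap.sub_apply,
    LinearMap.smul_apply, smul_eq_mul, one_mul, neg_mul]
  ring

theorem B_neg' (f : Fin Q) : tT F (sc P Q (Sum.inr f)) + ty F ρC (Sum.inr f)
    = tB F ρC (Sum.inr f) := by
  simp only [tB, lam, Sum.elim_inr]; abel

section eval

variable {F} {ρR ρC ρS}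

theorem tx_T (a : Fin P ⊕ Fin Q) (e : Fin P ⊕ Fin Q) : tx F ρR e (dl F (pT a)) = 0 :=
  outer_zero F ρR _ _ (fun f => by rw [co_dl]; simp) e
theorem ty_T (a : Fin P ⊕ Fin Q) (e : Fin P ⊕ Fin Q) : ty F ρC e (dl F (pT a)) = 0 :=
  outer_zero F ρC _ _ (fun f => by rw [co_dl]; simp) e
theorem tz_T (a : Fin P ⊕ Fin Q) (e : Fin P ⊕ Fin Q) : tz F ρS e (dl F (pT a)) = 0 :=
  outer_zero F ρS _ _ (fun f => by rw [co_dl]; simp) e
theorem tx_V (e : Fin P ⊕ Fin Q) : tx F ρR e (dl F pV) = 0 :=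
  outer_zero F ρR _ _ (fun f => by rw [co_dl]; simp) e
theorem ty_V (e : Fin P ⊕ Fin Q) : ty F ρC e (dl F pV) = 0 :=
  outer_zero F ρC _ _ (fun f => by rw [co_dl]; simp) e
theorem tz_V (e : Fin P ⊕ Fin Q) : tz F ρS e (dl F pV) = 0 :=
  outer_zero F ρS _ _ (fun f => by rw [co_dl]; simp) e
theorem tT_T (a : Fin P ⊕ Fin Q) (e : Fin P ⊕ Fin Q) :
    tT F e (dl F (pT a)) = if e = a then 1 else 0 := by
  rw [tT, co_dl]; simp
theorem tT_V (e : Fin P ⊕ Fin Q) : tT F e (dl F pV) = 0 := by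
  rw [tT, co_dl]; simp
theorem tT_Y (f : Fin Q) (e : Fin P ⊕ Fin Q) : tT F e (dl F (pY f)) = 0 := by
  rw [tT, co_dl]; simp
theorem tT_Z (f : Fin Q) (e : Fin P ⊕ Fin Q) : tT F e (dl F (pZ f)) = 0 := by
  rw [tT, co_dl]; simp

theorem DD_T (a : Fin P ⊕ Fin Q) (e : Fin P ⊕ Fin Q) : DD F ρR ρC ρS e (dl F (pT a)) = 0 := by
  rw [DD, LinearMap.sum_apply]
  refine Finset.sum_eq_zero (fun e' _ => ?_)
  split_ifs
  · simp only [dd, LinearMap.smul_apply, LinearMap.sub_apply, LinearMap.add_apply, tx_T, ty_T, tz_T]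
    simp
  · rfl

theorem DD_V (e : Fin P ⊕ Fin Q) : DD F ρR ρC ρS e (dl F pV) = 0 := by
  rw [DD, LinearMap.sum_apply]
  refine Finset.sum_eq_zero (fun e' _ => ?_)
  split_ifs
  · simp only [dd, LinearMap.smul_apply, LinearMap.sub_apply, LinearMap.add_apply, tx_V, ty_V, tz_V]
    simp
  · rfl

theorem DD_zero (e : Fin P ⊕ Fin Q) (h : ((finSumFinEquiv e : Fin (P + Q)) : ℕ) = 0) :
    DD F ρR ρC ρS e = 0 := by
  refine Finset.sum_eq_zero (fun e' _ => ?_)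
  rw [if_neg]
  intro hlt
  have : ((finSumFinEquiv e' : Fin (P + Q)) : ℕ) < (finSumFinEquiv e : Fin (P + Q)) := hlt
  omega

theorem tV_T (a : Fin P ⊕ Fin Q) (e : Fin P ⊕ Fin Q) :
    tV F ρR ρC ρS e (dl F (pT a)) = if e = a then -1 else 0 := by
  simp only [tV, LinearMap.sub_apply, LinearMap.add_apply, DD_T, tT_T, co_dl]
  split_ifs <;> simp_all

theorem tV_V (e : Fin P ⊕ Fin Q) : tV F ρR ρC ρS e (dl F pV) = 1 := by
  simp only [tV, LinearMap.sub_apply, LinearMap.add_apply, DD_V, tT_V, co_dl]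
  simp

theorem tr_T (a : Fin P ⊕ Fin Q) (e : Fin P ⊕ Fin Q) :
    tr F ρC e (dl F (pT a)) = - (sg F e * ((if sc P Q e = a then 1 else 0)
      - (if e = a then 1 else 0))) := by
  simp only [tr, LinearMap.sub_apply, LinearMap.smul_apply, ty_T, tT_T, smul_eq_mul, zero_sub]

theorem tr_V (e : Fin P ⊕ Fin Q) : tr F ρC e (dl F pV) = 0 := by
  simp only [tr, LinearMap.sub_apply, LinearMap.smul_apply, ty_V, tT_V, smul_eq_mul, sub_self,
    mul_zero]

theorem tA_T (a : Fin P ⊕ Fin Q) (e : Fin P ⊕ Fin Q) :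
    tA F ρR ρC e (dl F (pT a)) = - (sg F e * ((if sc P Q e = a then 1 else 0)
      - (if e = a then 1 else 0))) := by
  simp only [tA, LinearMap.add_apply, tx_T, tr_T, zero_add]

theorem tB_T (a : Fin P ⊕ Fin Q) (e : Fin P ⊕ Fin Q) :
    tB F ρC e (dl F (pT a)) = if lam P Q e = a then 1 else 0 := by
  simp only [tB, LinearMap.add_apply, ty_T, tT_T, zero_add]

theorem tm_T (a : Fin P ⊕ Fin Q) (e : Fin P ⊕ Fin Q) :
    tm F ρR ρC ρS e (dl F (pT a)) = if lam P Q e = a then 1 else 0 := by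
  simp only [tm, LinearMap.sub_apply, tz_T, tV_T, zero_sub]
  split_ifs <;> simp

theorem tm_V (e : Fin P ⊕ Fin Q) : tm F ρR ρC ρS e (dl F pV) = -1 := by
  simp only [tm, LinearMap.sub_apply, tz_V, tV_V, zero_sub]

/-- Equal hub indices. -/
theorem lam_eq {e e' : Fin P ⊕ Fin Q} (hne : e ≠ e') (h : lam P Q e = lam P Q e') :
    ∃ (a : Fin P) (f : Fin Q), (a : ℕ) = 0 ∧ (f : ℕ) + 1 = Q ∧ sc P Q (Sum.inr f) = Sum.inl a ∧
      ((e = Sum.inl a ∧ e' = Sum.inr f) ∨ (e = Sum.inr f ∧ e' = Sum.inl a)) := by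
  rcases e with a | f <;> rcases e' with a' | f'
  · simp only [lam, Sum.elim_inl] at h
    exact absurd h hne
  · simp only [lam, Sum.elim_inl, Sum.elim_inr] at h
    obtain ⟨h1, h2⟩ := junction f' a h.symm
    exact ⟨a, f', h1, h2, h.symm, Or.inl ⟨rfl, rfl⟩⟩
  · simp only [lam, Sum.elim_inl, Sum.elim_inr] at h
    obtain ⟨h1, h2⟩ := junction f a' h
    exact ⟨a', f, h1, h2, h, Or.inr ⟨rfl, rfl⟩⟩
  · simp only [lam, Sum.elim_inr] at h
    exact absurd ((sc P Q).injective h) hne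

end eval

end tok

end TH964.FP
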